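import Mathlib

/-!
# Extension of the scalars of a reflexive real Banach space

`XC 𝕜 X` is the space of the real-linear bounded maps of the dual of `X` to `𝕜`; if `X` is
reflexive this is `X` for `𝕜 = ℝ` and `X ⊕ i X` for `𝕜 = ℂ`.
-/

set_option autoImplicit false
open Filter Topology RCLike

namespace Pool.Agent.Lib_helper17.Cplx

variable (𝕜 : Type) [RCLike 𝕜] (X : Type) [NormedAddCommGroup X] [NormedSpace ℝ X]

/-- the extension of the scalars -/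
def XC : Type := StrongDual ℝ X →L[ℝ] 𝕜

noncomputable instance : NormedAddCommGroup (XC 𝕜 X) :=
  inferInstanceAs (NormedAddCommGroup (StrongDual ℝ X →L[ℝ] 𝕜))

noncomputable instance : NormedSpace 𝕜 (XC 𝕜 X) :=
  inferInstanceAs (NormedSpace 𝕜 (StrongDual ℝ X →L[ℝ] 𝕜))

instance : CompleteSpace (XC 𝕜 X) :=
  inferInstanceAs (CompleteSpace (StrongDual ℝ X →L[ℝ] 𝕜))

variable {𝕜 X}

/-- the underlying map -/
def mp (z : XC 𝕜 X) : StrongDual ℝ X →L[ℝ] 𝕜 := z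

/-- the map as an element of the space -/
def mk (z : StrongDual ℝ X →L[ℝ] 𝕜) : XC 𝕜 X := z

lemma mp_add (z w : XC 𝕜 X) (φ : StrongDual ℝ X) : mp (z + w) φ = mp z φ + mp w φ := rfl

lemma mp_smul (c : 𝕜) (z : XC 𝕜 X) (φ : StrongDual ℝ X) : mp (c • z) φ = c * mp z φ := rfl

lemma mp_ext {z w : XC 𝕜 X} (h : ∀ φ, mp z φ = mp w φ) : z = w := by
  have : mp z = mp w := ContinuousLinearMap.ext h
  exact this

lemma mp_le (z : XC 𝕜 X) (φ : StrongDual ℝ X) : ‖mp z φ‖ ≤ ‖z‖ * ‖φ‖ := (mp z).le_opNorm φ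

/-- the real space in the extension -/
noncomputable def jj (x : X) : XC 𝕜 X :=
  mk ((ofRealCLM : ℝ →L[ℝ] 𝕜).comp (NormedSpace.inclusionInDoubleDual ℝ X x))

lemma jj_apply (x : X) (φ : StrongDual ℝ X) : mp (jj (𝕜 := 𝕜) x) φ = (φ x : 𝕜) := rfl

lemma jj_add (x y : X) : jj (𝕜 := 𝕜) (x + y) = jj x + jj y := mp_ext fun φ => by
  rw [mp_add, jj_apply, jj_apply, jj_apply, map_add, ofReal_add]

lemma jj_smul (a : ℝ) (x : X) : jj (𝕜 := 𝕜) (a • x) = (a : 𝕜) • jj x := mp_ext fun φ => by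
  rw [mp_smul, jj_apply, jj_apply, map_smul, smul_eq_mul, ofReal_mul]

lemma jj_zero : jj (𝕜 := 𝕜) (0 : X) = 0 := mp_ext fun φ => by
  rw [jj_apply, map_zero, ofReal_zero]
  rfl

lemma jj_le (x : X) : ‖jj (𝕜 := 𝕜) x‖ ≤ ‖x‖ := by
  refine ContinuousLinearMap.opNorm_le_bound _ (norm_nonneg _) fun φ => ?_
  show ‖((φ x : ℝ) : 𝕜)‖ ≤ ‖x‖ * ‖φ‖
  rw [norm_ofReal, mul_comm]
  exact φ.le_opNorm x

lemma jj_cont : Continuous (jj (𝕜 := 𝕜) (X := X)) := by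
  apply continuous_of_linear_of_bound (𝕜 := ℝ) (E := X) (G := StrongDual ℝ X →L[ℝ] 𝕜)
    (f := fun x => mp (jj x)) (C := 1)
  · intro x y
    rw [jj_add]
    rfl
  · intro a x
    rw [jj_smul]
    ext φ
    show (a : 𝕜) * mp (jj (𝕜 := 𝕜) x) φ = a • mp (jj (𝕜 := 𝕜) x) φ
    rw [real_smul_eq_coe_mul]
  · intro x
    rw [one_mul]
    exact jj_le x

/-- the evaluation at a functional -/
noncomputable def ev (φ : StrongDual ℝ X) : XC 𝕜 X →L[𝕜] 𝕜 :=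
  LinearMap.mkContinuous
    { toFun := fun z => mp z φ
      map_add' := fun _ _ => rfl
      map_smul' := fun _ _ => rfl } ‖φ‖ (fun z => by
        show ‖mp z φ‖ ≤ ‖φ‖ * ‖z‖
        rw [mul_comm]
        exact mp_le z φ)

lemma ev_apply (φ : StrongDual ℝ X) (z : XC 𝕜 X) : ev φ z = mp z φ := rfl

/-- every element has a real and an imaginary part -/
lemma exists_parts (h : Function.Surjective (NormedSpace.inclusionInDoubleDual ℝ X))
    (z : XC 𝕜 X) : ∃ x y : X, z = jj x + (I : 𝕜) • jj y := by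
  obtain ⟨x, hx⟩ := h ((reCLM : 𝕜 →L[ℝ] ℝ).comp (mp z))
  obtain ⟨y, hy⟩ := h ((imCLM : 𝕜 →L[ℝ] ℝ).comp (mp z))
  refine ⟨x, y, mp_ext fun φ => ?_⟩
  have h1 : φ x = re (mp z φ) := by
    have := congrArg (fun f : StrongDual ℝ (StrongDual ℝ X) => f φ) hx
    exact this
  have h2 : φ y = im (mp z φ) := by
    have := congrArg (fun f : StrongDual ℝ (StrongDual ℝ X) => f φ) hy
    exact this
  rw [mp_add, mp_smul, jj_apply, jj_apply, h1, h2, mul_comm]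
  exact (re_add_im (mp z φ)).symm

/-- the real part of the restriction of a functional -/
noncomputable def rp (ψ : XC 𝕜 X →L[𝕜] 𝕜) : StrongDual ℝ X :=
  LinearMap.mkContinuous
    { toFun := fun x => re (ψ (jj x))
      map_add' := fun x y => by rw [jj_add, map_add, map_add]
      map_smul' := fun a x => by
        rw [jj_smul, map_smul, smul_eq_mul, re_ofReal_mul]
        rfl } ‖ψ‖ (fun x => by
        show |re (ψ (jj x))| ≤ _
        refine (abs_re_le_norm _).trans ((ψ.le_opNorm _).trans ?_)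
        exact mul_le_mul_of_nonneg_left (jj_le x) (norm_nonneg _))

/-- the imaginary part of the restriction of a functional -/
noncomputable def ip (ψ : XC 𝕜 X →L[𝕜] 𝕜) : StrongDual ℝ X :=
  LinearMap.mkContinuous
    { toFun := fun x => im (ψ (jj x))
      map_add' := fun x y => by rw [jj_add, map_add, map_add]
      map_smul' := fun a x => by
        rw [jj_smul, map_smul, smul_eq_mul, im_ofReal_mul]
        rfl } ‖ψ‖ (fun x => by
        show |im (ψ (jj x))| ≤ _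
        refine (abs_im_le_norm _).trans ((ψ.le_opNorm _).trans ?_)
        exact mul_le_mul_of_nonneg_left (jj_le x) (norm_nonneg _))

lemma psi_jj (ψ : XC 𝕜 X →L[𝕜] 𝕜) (x : X) :
    ψ (jj x) = (rp ψ x : 𝕜) + (I : 𝕜) * (ip ψ x : 𝕜) := by
  have : ψ (jj x) = ((re (ψ (jj x)) : ℝ) : 𝕜) + (I : 𝕜) * ((im (ψ (jj x)) : ℝ) : 𝕜) := by
    rw [mul_comm]
    exact (re_add_im _).symm
  exact this

lemma parts_functional (h : Function.Surjective (NormedSpace.inclusionInDoubleDual ℝ X))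
    (ψ : XC 𝕜 X →L[𝕜] 𝕜) : ψ = ev (rp ψ) + (I : 𝕜) • ev (ip ψ) := by
  ext z
  obtain ⟨x, y, rfl⟩ := exists_parts h z
  have h1 : (ev (𝕜 := 𝕜) (rp ψ) + (I : 𝕜) • ev (𝕜 := 𝕜) (ip ψ) : XC 𝕜 X →L[𝕜] 𝕜)
      (jj x + (I : 𝕜) • jj y) =
      mp (jj x + (I : 𝕜) • jj y) (rp ψ) + (I : 𝕜) * mp (jj x + (I : 𝕜) • jj y) (ip ψ) := rfl
  rw [h1, map_add, map_smul, psi_jj, psi_jj, mp_add, mp_add, mp_smul, mp_smul, jj_apply, jj_apply,
    jj_apply, jj_apply, smul_eq_mul]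
  ring

/-- the extension is reflexive -/
theorem reflexive (h : Function.Surjective (NormedSpace.inclusionInDoubleDual ℝ X)) :
    Function.Surjective (NormedSpace.inclusionInDoubleDual 𝕜 (XC 𝕜 X)) := by
  intro Ξ
  have hev : ∀ φ : StrongDual ℝ X, ‖ev (𝕜 := 𝕜) φ‖ ≤ ‖φ‖ := by
    intro φ
    exact LinearMap.mkContinuous_norm_le _ (norm_nonneg _) _
  let z : XC 𝕜 X := mk (LinearMap.mkContinuous
    { toFun := fun φ => Ξ (ev φ)
      map_add' := fun φ φ' => by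
        have : ev (𝕜 := 𝕜) (φ + φ') = ev φ + ev φ' := by
          ext w
          exact map_add (mp w) φ φ'
        rw [this, map_add]
      map_smul' := fun a φ => by
        have : ev (𝕜 := 𝕜) (a • φ) = (a : 𝕜) • ev φ := by
          ext w
          have h1 : ((a : 𝕜) • ev φ) w = (a : 𝕜) * mp w φ := rfl
          rw [h1, ev_apply, map_smul, real_smul_eq_coe_mul]
        rw [this, map_smul, RingHom.id_apply, smul_eq_mul, real_smul_eq_coe_mul] } ‖Ξ‖ (fun φ => by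
        show ‖Ξ (ev φ)‖ ≤ ‖Ξ‖ * ‖φ‖
        refine (Ξ.le_opNorm _).trans ?_
        exact mul_le_mul_of_nonneg_left (hev φ) (norm_nonneg _)))
  have hz : ∀ φ, mp z φ = Ξ (ev φ) := fun φ => rfl
  refine ⟨z, ?_⟩
  ext ψ
  rw [NormedSpace.dual_def]
  conv_lhs => rw [parts_functional h ψ]
  conv_rhs => rw [parts_functional h ψ]
  have h1 : (ev (𝕜 := 𝕜) (rp ψ) + (I : 𝕜) • ev (𝕜 := 𝕜) (ip ψ) : XC 𝕜 X →L[𝕜] 𝕜) z =
      mp z (rp ψ) + (I : 𝕜) * mp z (ip ψ) := rfl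
  rw [h1, hz, hz, map_add, map_smul, smul_eq_mul]

/-- weak convergence of sequences -/
def Wk (𝕜 : Type) [RCLike 𝕜] {E : Type} [NormedAddCommGroup E] [NormedSpace 𝕜 E] (x : ℕ → E)
    (x0 : E) : Prop :=
  ∀ φ : E →L[𝕜] 𝕜, Tendsto (fun k => φ (x k)) atTop (𝓝 (φ x0))

lemma wk_jj {x : ℕ → X} {x0 : X} (hx : Wk ℝ x x0) :
    Wk 𝕜 (fun k => jj (𝕜 := 𝕜) (x k)) (jj x0) := by
  intro ψ
  simp only [psi_jj]
  have h2 := ((continuous_ofReal (K := 𝕜)).tendsto _).comp (hx (rp ψ))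
  have h3 := ((continuous_ofReal (K := 𝕜)).tendsto _).comp (hx (ip ψ))
  exact h2.add (h3.const_mul (I : 𝕜))

/-- the parts of a weakly convergent sequence converge weakly -/
lemma wk_parts (h : Function.Surjective (NormedSpace.inclusionInDoubleDual ℝ X)) {z : ℕ → XC 𝕜 X}
    {z0 : XC 𝕜 X} (hz : Wk 𝕜 z z0) : ∃ (x y : ℕ → X) (x0 y0 : X),
      (∀ k, z k = jj (x k) + (I : 𝕜) • jj (y k)) ∧ z0 = jj x0 + (I : 𝕜) • jj y0 ∧
      Wk ℝ x x0 ∧ Wk ℝ y y0 := by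
  have h1 : ∀ z : XC 𝕜 X, ∃ x y : X, z = jj x + (I : 𝕜) • jj y ∧ (∀ φ : StrongDual ℝ X,
      φ x = re (mp z φ)) ∧ ∀ φ : StrongDual ℝ X, φ y = im (mp z φ) := by
    intro z
    obtain ⟨x, hx⟩ := h ((reCLM : 𝕜 →L[ℝ] ℝ).comp (mp z))
    obtain ⟨y, hy⟩ := h ((imCLM : 𝕜 →L[ℝ] ℝ).comp (mp z))
    have h1 : ∀ φ : StrongDual ℝ X, φ x = re (mp z φ) := by
      intro φ
      exact congrArg (fun f : StrongDual ℝ (StrongDual ℝ X) => f φ) hx
    have h2 : ∀ φ : StrongDual ℝ X, φ y = im (mp z φ) := by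
      intro φ
      exact congrArg (fun f : StrongDual ℝ (StrongDual ℝ X) => f φ) hy
    refine ⟨x, y, mp_ext fun φ => ?_, h1, h2⟩
    rw [mp_add, mp_smul, jj_apply, jj_apply, h1, h2, mul_comm]
    exact (re_add_im (mp z φ)).symm
  choose x y hxy hx hy using fun k => h1 (z k)
  obtain ⟨x0, y0, hxy0, hx0, hy0⟩ := h1 z0
  refine ⟨x, y, x0, y0, hxy, hxy0, ?_, ?_⟩
  · intro φ
    simp only [hx, hx0]
    exact ((continuous_re (K := 𝕜)).tendsto _).comp (hz (ev φ))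
  · intro φ
    simp only [hy, hy0]
    exact ((continuous_im (K := 𝕜)).tendsto _).comp (hz (ev φ))

lemma im_key (c t : 𝕜) : ((im c : ℝ) : 𝕜) * ((I : 𝕜) * (I : 𝕜)) * t = -(((im c : ℝ) : 𝕜) * t) := by
  rcases I_mul_I_ax (K := 𝕜) with h | h
  · have h1 : im c = 0 := im_eq_zero h c
    rw [h1, ofReal_zero]
    ring
  · rw [h]
    ring

/-- the bilinear extension of a real bilinear form -/
noncomputable def bil (T : X →L[ℝ] X →L[ℝ] ℝ) : XC 𝕜 X →ₗ[𝕜] XC 𝕜 X →ₗ[𝕜] 𝕜 :=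
  LinearMap.mk₂ 𝕜 (fun w z => mp z ((reCLM : 𝕜 →L[ℝ] ℝ).comp ((mp w).comp T)) +
      (I : 𝕜) * mp z ((imCLM : 𝕜 →L[ℝ] ℝ).comp ((mp w).comp T)))
    (fun w w' z => by
      have h1 : (reCLM : 𝕜 →L[ℝ] ℝ).comp ((mp (w + w')).comp T) =
          (reCLM : 𝕜 →L[ℝ] ℝ).comp ((mp w).comp T) +
            (reCLM : 𝕜 →L[ℝ] ℝ).comp ((mp w').comp T) := by
        ext x
        exact map_add (re : 𝕜 →+ ℝ) _ _
      have h2 : (imCLM : 𝕜 →L[ℝ] ℝ).comp ((mp (w + w')).comp T) =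
          (imCLM : 𝕜 →L[ℝ] ℝ).comp ((mp w).comp T) +
            (imCLM : 𝕜 →L[ℝ] ℝ).comp ((mp w').comp T) := by
        ext x
        exact map_add (im : 𝕜 →+ ℝ) _ _
      rw [h1, h2, map_add, map_add]
      ring)
    (fun c w z => by
      have h1 : (reCLM : 𝕜 →L[ℝ] ℝ).comp ((mp (c • w)).comp T) =
          re c • (reCLM : 𝕜 →L[ℝ] ℝ).comp ((mp w).comp T) -
            im c • (imCLM : 𝕜 →L[ℝ] ℝ).comp ((mp w).comp T) := by
        ext x
        exact mul_re _ _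
      have h2 : (imCLM : 𝕜 →L[ℝ] ℝ).comp ((mp (c • w)).comp T) =
          re c • (imCLM : 𝕜 →L[ℝ] ℝ).comp ((mp w).comp T) +
            im c • (reCLM : 𝕜 →L[ℝ] ℝ).comp ((mp w).comp T) := by
        ext x
        exact mul_im _ _
      rw [h1, h2, map_add, map_sub, map_smul, map_smul, map_smul, map_smul, real_smul_eq_coe_mul,
        real_smul_eq_coe_mul, real_smul_eq_coe_mul, real_smul_eq_coe_mul, smul_eq_mul]
      conv_rhs => rw [← re_add_im c]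
      have h3 := im_key c (mp z ((imCLM : 𝕜 →L[ℝ] ℝ).comp ((mp w).comp T)))
      linear_combination -h3)
    (fun w z z' => by
      rw [mp_add, mp_add]
      ring)
    (fun c w z => by
      rw [mp_smul, mp_smul, smul_eq_mul]
      ring)

lemma bil_apply (T : X →L[ℝ] X →L[ℝ] ℝ) (w z : XC 𝕜 X) :
    bil T w z = mp z ((reCLM : 𝕜 →L[ℝ] ℝ).comp ((mp w).comp T)) +
      (I : 𝕜) * mp z ((imCLM : 𝕜 →L[ℝ] ℝ).comp ((mp w).comp T)) := rfl

lemma norm_I_le : ‖(I : 𝕜)‖ ≤ 1 := by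
  rcases I_mul_I_ax (K := 𝕜) with h | h
  · rw [h, norm_zero]
    exact zero_le_one
  · have h1 : ‖(I : 𝕜)‖ * ‖(I : 𝕜)‖ = 1 := by rw [← norm_mul, h, norm_neg, norm_one]
    nlinarith [norm_nonneg (I : 𝕜)]

lemma bil_bound (T : X →L[ℝ] X →L[ℝ] ℝ) (w z : XC 𝕜 X) :
    ‖bil T w z‖ ≤ 2 * ‖T‖ * ‖w‖ * ‖z‖ := by
  have h0 : ‖(mp w).comp T‖ ≤ ‖w‖ * ‖T‖ := (mp w).opNorm_comp_le T
  have h1 : ‖(reCLM : 𝕜 →L[ℝ] ℝ).comp ((mp w).comp T)‖ ≤ ‖w‖ * ‖T‖ := by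
    refine ContinuousLinearMap.opNorm_le_bound _ (by positivity) fun x => ?_
    exact (abs_re_le_norm _).trans ((ContinuousLinearMap.le_opNorm _ x).trans
      (mul_le_mul_of_nonneg_right h0 (norm_nonneg _)))
  have h2 : ‖(imCLM : 𝕜 →L[ℝ] ℝ).comp ((mp w).comp T)‖ ≤ ‖w‖ * ‖T‖ := by
    refine ContinuousLinearMap.opNorm_le_bound _ (by positivity) fun x => ?_
    exact (abs_im_le_norm _).trans ((ContinuousLinearMap.le_opNorm _ x).trans
      (mul_le_mul_of_nonneg_right h0 (norm_nonneg _)))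
  rw [bil_apply]
  refine (norm_add_le _ _).trans ?_
  rw [norm_mul]
  have h3 := (mp_le z ((reCLM : 𝕜 →L[ℝ] ℝ).comp ((mp w).comp T))).trans
    (mul_le_mul_of_nonneg_left h1 (norm_nonneg z))
  have h4 := (mp_le z ((imCLM : 𝕜 →L[ℝ] ℝ).comp ((mp w).comp T))).trans
    (mul_le_mul_of_nonneg_left h2 (norm_nonneg z))
  have h5 : ‖(I : 𝕜)‖ * ‖mp z ((imCLM : 𝕜 →L[ℝ] ℝ).comp ((mp w).comp T))‖ ≤
      1 * ‖mp z ((imCLM : 𝕜 →L[ℝ] ℝ).comp ((mp w).comp T))‖ :=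
    mul_le_mul_of_nonneg_right norm_I_le (norm_nonneg _)
  linarith

lemma bil_jj (T : X →L[ℝ] X →L[ℝ] ℝ) (x y : X) :
    bil T (jj (𝕜 := 𝕜) x) (jj y) = (T y x : 𝕜) := by
  rw [bil_apply, jj_apply, jj_apply]
  have h1 : ((reCLM : 𝕜 →L[ℝ] ℝ).comp ((mp (jj (𝕜 := 𝕜) x)).comp T)) y = T y x :=
    ofReal_re (K := 𝕜) _
  have h2 : ((imCLM : 𝕜 →L[ℝ] ℝ).comp ((mp (jj (𝕜 := 𝕜) x)).comp T)) y = 0 :=
    ofReal_im (K := 𝕜) _
  rw [h1, h2, ofReal_zero, mul_zero, add_zero]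

end Pool.Agent.Lib_helper17.Cplx
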