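import Pool.Agent.Lib_helper17.HeisProg

set_option autoImplicit false

/-!
From space-time diagrams over a group to a one-dimensional subshift on which the group acts by
automorphisms.
-/

namespace Pool.Agent.Lib_helper17.HeisShift

section

variable {H N : Type} [Group H] {K : ℕ}

/-- diagrams compatible with the local rules -/
def Comp (gen : N → H) (Φ : N → (Fin 3 → Fin K) → Fin K) (y : ℤ → H → Fin K) : Prop :=
  ∀ (s : N) (t : ℤ) (h : H), y t (gen s * h) = Φ s (fun e => y (t + off e) h)

variable (gen : N → H) (Φ : N → (Fin 3 → Fin K) → Fin K)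

/-- the subshift of rows -/
def rowsX : Set (ℤ → ℕ) :=
  {x | ∃ y : ℤ → H → Fin K, Comp gen Φ y ∧ ∀ t, x t = (y t 1 : ℕ)}

theorem comp_right {y : ℤ → H → Fin K} (hy : Comp gen Φ y) (g : H) :
    Comp gen Φ (fun t h => y t (h * g)) := by
  intro s t h
  simp only [mul_assoc]
  exact hy s t (h * g)

theorem comp_shift {y : ℤ → H → Fin K} (hy : Comp gen Φ y) (r : ℤ) :
    Comp gen Φ (fun t h => y (t + r) h) := by
  intro s t h
  simp only []
  rw [hy s (t + r) h]
  congr 1
  funext e
  congr 1
  ring

theorem comp_unique (hgen : Submonoid.closure (Set.range gen) = ⊤)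
    {y y' : ℤ → H → Fin K} (hy : Comp gen Φ y) (hy' : Comp gen Φ y')
    (h1 : ∀ t, y t 1 = y' t 1) : y = y' := by
  have key : ∀ h : H, h ∈ Submonoid.closure (Set.range gen) →
      ∀ g : H, (∀ t, y t g = y' t g) → ∀ t, y t (h * g) = y' t (h * g) := by
    intro h hh
    induction hh using Submonoid.closure_induction with
    | mem x hx =>
      obtain ⟨s, rfl⟩ := hx
      intro g hg t
      rw [hy s t g, hy' s t g]
      congr 1
      funext e
      exact hg _
    | one => intro g hg t; rw [one_mul]; exact hg t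
    | mul a b _ _ iha ihb =>
      intro g hg t
      rw [mul_assoc]
      exact iha (b * g) (ihb g hg) t
  funext t h
  have := key h (by rw [hgen]; trivial) 1 h1 t
  simpa using this

theorem rowsX_closed : IsClosed (rowsX gen Φ) := by
  set V : Set (ℤ → H → Fin K) := {y | Comp gen Φ y} with hV
  have hVc : IsClosed V := by
    have : V = ⋂ (s : N) (t : ℤ) (h : H),
        {y : ℤ → H → Fin K | y t (gen s * h) = Φ s (fun e => y (t + off e) h)} := by
      ext y
      simp only [hV, Set.mem_iInter]
      rfl
    rw [this]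
    refine isClosed_iInter fun s => isClosed_iInter fun t => isClosed_iInter fun h => ?_
    apply isClosed_eq
    · exact (continuous_apply _).comp (continuous_apply _)
    · have h1 : Continuous (Φ s) := continuous_of_discreteTopology
      apply h1.comp
      apply continuous_pi
      intro e
      exact (continuous_apply _).comp (continuous_apply _)
  have hcomp : IsCompact V := hVc.isCompact
  have hcont : Continuous (fun (y : ℤ → H → Fin K) (t : ℤ) => (y t 1 : ℕ)) := by
    apply continuous_pi
    intro t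
    have h1 : Continuous (fun a : Fin K => (a : ℕ)) := continuous_of_discreteTopology
    exact h1.comp ((continuous_apply _).comp (continuous_apply _))
  have himg : rowsX gen Φ = (fun (y : ℤ → H → Fin K) (t : ℤ) => (y t 1 : ℕ)) '' V := by
    ext x
    constructor
    · rintro ⟨y, hy, hx⟩
      exact ⟨y, hy, by funext t; exact (hx t).symm⟩
    · rintro ⟨y, hy, rfl⟩
      exact ⟨y, hy, fun t => rfl⟩
  rw [himg]
  exact (hcomp.image hcont).isClosed

/-- the diagram of a row -/
noncomputable def diag (x : rowsX gen Φ) : ℤ → H → Fin K := x.2.choose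

theorem diag_comp (x : rowsX gen Φ) : Comp gen Φ (diag gen Φ x) := x.2.choose_spec.1

theorem diag_row (x : rowsX gen Φ) (t : ℤ) : (x : ℤ → ℕ) t = (diag gen Φ x t 1 : ℕ) :=
  x.2.choose_spec.2 t

theorem diag_eq (hgen : Submonoid.closure (Set.range gen) = ⊤) (x : rowsX gen Φ)
    {y : ℤ → H → Fin K} (hy : Comp gen Φ y) (h : ∀ t, (x : ℤ → ℕ) t = (y t 1 : ℕ)) :
    diag gen Φ x = y := by
  apply comp_unique gen Φ hgen (diag_comp gen Φ x) hy
  intro t
  apply Fin.ext
  rw [← diag_row, h]

/-- the action -/
noncomputable def act (g : H) (x : rowsX gen Φ) : rowsX gen Φ :=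
  ⟨fun t => (diag gen Φ x t g : ℕ), fun t h => diag gen Φ x t (h * g),
    comp_right gen Φ (diag_comp gen Φ x) g, fun t => by simp⟩

theorem act_apply (g : H) (x : rowsX gen Φ) (t : ℤ) :
    (act gen Φ g x : ℤ → ℕ) t = (diag gen Φ x t g : ℕ) := rfl

theorem diag_act (hgen : Submonoid.closure (Set.range gen) = ⊤) (g : H) (x : rowsX gen Φ) :
    diag gen Φ (act gen Φ g x) = fun t h => diag gen Φ x t (h * g) := by
  apply diag_eq gen Φ hgen
  · exact comp_right gen Φ (diag_comp gen Φ x) g
  · intro t
    rw [act_apply]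
    simp

theorem act_one (x : rowsX gen Φ) : act gen Φ 1 x = x := by
  apply Subtype.ext
  funext t
  rw [act_apply, diag_row]

theorem act_mul (hgen : Submonoid.closure (Set.range gen) = ⊤) (g g' : H) (x : rowsX gen Φ) :
    act gen Φ (g * g') x = act gen Φ g (act gen Φ g' x) := by
  apply Subtype.ext
  funext t
  rw [act_apply, act_apply, diag_act gen Φ hgen]

/-- the action as permutations -/
noncomputable def rho (hgen : Submonoid.closure (Set.range gen) = ⊤) (g : H) :
    Equiv.Perm (rowsX gen Φ) where
  toFun := act gen Φ g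
  invFun := act gen Φ g⁻¹
  left_inv x := by rw [← act_mul gen Φ hgen, inv_mul_cancel, act_one]
  right_inv x := by rw [← act_mul gen Φ hgen, mul_inv_cancel, act_one]

theorem rho_mul (hgen : Submonoid.closure (Set.range gen) = ⊤) (g g' : H) :
    rho gen Φ hgen (g * g') = rho gen Φ hgen g * rho gen Φ hgen g' := by
  ext1 x
  exact act_mul gen Φ hgen g g' x

theorem act_gen (s : N) (x : rowsX gen Φ) (t : ℤ) :
    (act gen Φ (gen s) x : ℤ → ℕ) t
      = (Φ s (fun e => diag gen Φ x (t + off e) 1) : ℕ) := by
  rw [act_apply]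
  have := diag_comp gen Φ x s t 1
  rw [mul_one] at this
  rw [this]

theorem act_continuous (hgen : Submonoid.closure (Set.range gen) = ⊤) (hK : 0 < K) (g : H) :
    Continuous (act gen Φ g) := by
  have hg : g ∈ Submonoid.closure (Set.range gen) := by rw [hgen]; trivial
  induction hg using Submonoid.closure_induction with
  | mem x hx =>
    obtain ⟨s, rfl⟩ := hx
    apply Continuous.subtype_mk
    apply continuous_pi
    intro t
    set G : (Fin 3 → ℕ) → ℕ := fun w => (Φ s (fun e => ⟨w e % K, Nat.mod_lt _ hK⟩) : ℕ) with hG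
    have h1 : Continuous G := continuous_of_discreteTopology
    have h2 : Continuous (fun x : rowsX gen Φ => (fun e : Fin 3 => (x : ℤ → ℕ) (t + off e))) := by
      apply continuous_pi
      intro e
      exact (continuous_apply _).comp continuous_subtype_val
    have h3 : (fun x : rowsX gen Φ => (diag gen Φ x t (gen s) : ℕ))
        = fun x : rowsX gen Φ => G (fun e : Fin 3 => (x : ℤ → ℕ) (t + off e)) := by
      funext x
      rw [← act_apply, act_gen, hG]
      simp only []
      congr 2
      funext e
      apply Fin.ext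
      simp only []
      rw [diag_row, Nat.mod_eq_of_lt (diag gen Φ x (t + off e) 1).2]
    rw [h3]
    exact h1.comp h2
  | one =>
    have : act gen Φ 1 = id := by funext x; exact act_one gen Φ x
    rw [this]
    exact continuous_id
  | mul a b _ _ iha ihb =>
    have : act gen Φ (a * b) = act gen Φ a ∘ act gen Φ b := by
      funext x; exact act_mul gen Φ hgen a b x
    rw [this]
    exact iha.comp ihb

theorem act_shift (hgen : Submonoid.closure (Set.range gen) = ⊤) (g : H)
    (p q : rowsX gen Φ) (h : (q : ℤ → ℕ) = fun n : ℤ => (p : ℤ → ℕ) (n + 1)) :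
    (act gen Φ g q : ℤ → ℕ) = fun n : ℤ => (act gen Φ g p : ℤ → ℕ) (n + 1) := by
  have hd : diag gen Φ q = fun t h => diag gen Φ p (t + 1) h := by
    apply diag_eq gen Φ hgen
    · exact comp_shift gen Φ (diag_comp gen Φ p) 1
    · intro t
      rw [h]
      simp only []
      rw [diag_row]
  funext n
  rw [act_apply, hd, act_apply]

theorem rowsX_shift (x : ℤ → ℕ) :
    x ∈ rowsX gen Φ ↔ (fun n : ℤ => x (n + 1)) ∈ rowsX gen Φ := by
  constructor
  · rintro ⟨y, hy, hx⟩
    exact ⟨fun t h => y (t + 1) h, comp_shift gen Φ hy 1, fun t => hx (t + 1)⟩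
  · rintro ⟨y, hy, hx⟩
    refine ⟨fun t h => y (t + (-1)) h, comp_shift gen Φ hy (-1), fun t => ?_⟩
    have := hx (t + (-1))
    simp only [] at this
    rw [← this]
    congr 1
    ring

theorem rho_injective (hgen : Submonoid.closure (Set.range gen) = ⊤)
    (hfaith : ∀ g : H, g ≠ 1 → ∃ y : ℤ → H → Fin K, Comp gen Φ y ∧ ∃ t h, y t (h * g) ≠ y t h) :
    Function.Injective (rho gen Φ hgen) := by
  intro g g' hgg
  by_contra hne
  have hg0 : g⁻¹ * g' ≠ 1 := by
    intro h
    apply hne
    have : g' = g := by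
      calc g' = g * (g⁻¹ * g') := by group
        _ = g := by rw [h, mul_one]
    exact this.symm
  obtain ⟨y, hy, t, h, hyt⟩ := hfaith _ hg0
  apply hyt
  have hx : (fun t => (y t 1 : ℕ)) ∈ rowsX gen Φ := ⟨y, hy, fun _ => rfl⟩
  have e1 : act gen Φ (g⁻¹ * g') ⟨_, hx⟩ = ⟨_, hx⟩ := by
    rw [act_mul gen Φ hgen]
    have : act gen Φ g' ⟨_, hx⟩ = act gen Φ g ⟨_, hx⟩ := by
      have := congrArg (fun p : Equiv.Perm (rowsX gen Φ) => p ⟨_, hx⟩) hgg
      exact this.symm
    rw [this, ← act_mul gen Φ hgen, inv_mul_cancel, act_one]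
  have e2 : diag gen Φ ⟨_, hx⟩ = y := diag_eq gen Φ hgen _ hy (fun _ => rfl)
  have e3 := diag_act gen Φ hgen (g⁻¹ * g') ⟨_, hx⟩
  rw [e1, e2] at e3
  have := congrFun (congrFun e3 t) h
  exact this.symm

end

end Pool.Agent.Lib_helper17.HeisShift
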