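import Pool.Agent.Lib_helper17.HeisGroup
import Pool.Agent.Lib_helper17.HeisDyn

set_option autoImplicit false

/-!
Iterating the slow-down operator and assembling the subshift with an action of the
Heisenberg group.
-/

namespace Pool.Agent.Lib_helper17.HeisShift

section

variable {H N F Λ : Type} [Group H] [Group F] [Group Λ] {T : ℕ} {M c k : ℕ}

/-- the blank diagram -/
def blankDiag (D : TimeData H N F Λ T) (M : ℕ) (hk : 0 < k) : ℤ → H → Cell N F Λ M k :=
  fun t h => ((cell k hk t, D.κ h), fun _ => Option.none)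

variable (D : TimeData H N F Λ T) (hk : 0 < k) (ad : Option (Slot N Λ) ≃ Fin c)
    (L : List (Ins N (Slot N Λ))) (code : Op N (Slot N Λ) ≃ ZMod M)

theorem blank_valid : Valid D ad L code (blankDiag D M hk) := by
  intro s t h
  constructor
  · simp [blankDiag, muC]
  · intro ν
    show (Option.none : Atom (Ctl k F) M) = _
    unfold evC
    exact (ev_blank _ _ _).symm

theorem iter_valid (hG : Good M ad L) (hB : Bdd k L) (hT : T = 1 + L.length * E k)
    (hout : ∀ (S : Sem N (Slot N Λ) M) s q j,
      run ad S L (Option.some s) (ad q) j = outVal code S s j q) (n : ℕ) :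
    Valid D ad L code ((slow D hk ad L code)^[n] (blankDiag D M hk)) := by
  induction n with
  | zero => exact blank_valid D hk ad L code
  | succ n ih =>
    rw [Function.iterate_succ_apply']
    exact slow_valid D hk ad L code _ hG hB hT hout ih

/-- the simulating diagram displays the rows of the simulated one -/
theorem slow_shows (s : N) (y : ℤ → H → Cell N F Λ M k) (hT : T = 1 + L.length * E k)
    (hin : ∀ (S : Sem N (Slot N Λ) M) q j, run ad S L Option.none (ad q) j = S.input j q)
    (hck : c ≤ k) (j : ℤ) (g : H) (q : Option (Slot N Λ)) :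
    (slow D hk ad L code y (k * j + (ad q : ℕ)) (D.δ g)).2 (D.lam g, Sum.inl Option.none)
      = (rowSem D ad L code y g).input j q := by
  have h1 : D.δ g * (D.δ g)⁻¹ = 1 := mul_inv_cancel _
  have hTpos : 0 < T := by rw [hT]; omega
  rw [slow_slot D hk ad L code y s _ (D.δ g) g _
    (Or.inl (by rw [h1, D.tau_one]; exact hTpos)), h1, D.tau_one.trans hT]
  have hq := (ad q).2
  have hk' : (0 : ℤ) < k := by omega
  have e1 : ((k * j + (ad q : ℕ)) % k : ℤ).toNat = (ad q : ℕ) := by
    rw [Int.mul_add_emod_self_left, Int.emod_eq_of_lt (by omega) (by omega)]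
    simp
  have e2 : ((k * j + (ad q : ℕ)) / k : ℤ) = j := by
    rw [Int.mul_add_ediv_left _ _ hk'.ne', Int.ediv_eq_zero_of_lt (by omega) (by omega), add_zero]
  have e3 := St_last k ad L (rowSem D ad L code y g) (k * j + (ad q : ℕ)) Option.none
  rw [e1, e2, hin] at e3
  exact e3

theorem input_inj (y : ℤ → H → Cell N F Λ M k) (g g' : H) (j : ℤ)
    (h : ∀ q, ((rowSem D ad L code y g).input j q : Atom (Ctl k F) M)
      = (rowSem D ad L code y g').input j q) : y j g = y j g' := by
  apply Prod.ext
  · have := h Option.none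
    have h2 : (some (Sum.inl (y j g).1) : Atom (Ctl k F) M) = some (Sum.inl (y j g').1) := this
    simpa using h2
  · funext ν
    exact h (Option.some ν)

theorem iter_faith (s : N) (hT : T = 1 + L.length * E k)
    (hin : ∀ (S : Sem N (Slot N Λ) M) q j, run ad S L Option.none (ad q) j = S.input j q)
    (hck : c ≤ k) (n : ℕ) : ∀ (g₀ : H),
    (∀ t h, ((slow D hk ad L code)^[n] (blankDiag D M hk)) t (h * g₀)
      = ((slow D hk ad L code)^[n] (blankDiag D M hk)) t h) →
    ∃ γ, ((D.δ : H → H)^[n + 1]) γ = g₀ := by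
  induction n with
  | zero =>
    intro g₀ h
    have h1 := congrArg (fun z : Cell N F Λ M k => z.1.2) (h 0 1)
    simp only [Function.iterate_zero, id_eq, blankDiag, one_mul, map_one] at h1
    obtain ⟨γ, hγ, _⟩ := D.ker _ h1
    exact ⟨γ, by simpa using hγ⟩
  | succ n ih =>
    intro g₀ h
    rw [Function.iterate_succ_apply'] at h
    set y := (slow D hk ad L code)^[n] (blankDiag D M hk) with hy
    have h1 := congrArg (fun z : Cell N F Λ M k => z.1.2) (h 0 1)
    simp only [slow, one_mul, map_one] at h1
    obtain ⟨γ, hγ, hl⟩ := D.ker _ h1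
    have key : ∀ t g, y t (g * γ) = y t g := by
      intro j g
      apply input_inj D ad L code
      intro q
      have a1 := slow_shows D hk ad L code s y hT hin hck j g q
      have a2 := slow_shows D hk ad L code s y hT hin hck j (g * γ) q
      rw [map_mul, map_mul, hγ, hl, mul_one, h] at a2
      exact a2.symm.trans a1
    obtain ⟨γ', hγ'⟩ := ih γ key
    refine ⟨γ', ?_⟩
    rw [Function.iterate_succ_apply', hγ', hγ]

/-- local rule on cells -/
noncomputable def cellRule (s : N) (w : Fin 3 → Cell N F Λ M k) : Cell N F Λ M k :=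
  (muC D k s (w 1).1, fun ν =>
    ev (gamC D ad L code) (muC D k) (sched D M k ad L s ν (w 1).1).1
      (fun i => (w ((sched D M k ad L s ν (w 1).1).2 i).1).2
        ((sched D M k ad L s ν (w 1).1).2 i).2))

theorem valid_rule (y : ℤ → H → Cell N F Λ M k) (hy : Valid D ad L code y) (s : N) (t : ℤ)
    (h : H) : y t (D.gen s * h) = cellRule D ad L code s (fun e => y (t + off e) h) := by
  apply Prod.ext
  · rw [(hy s t h).1]
    simp only [cellRule, off_one, add_zero]
  · funext ν
    rw [(hy s t h).2 ν]
    simp only [cellRule, off_one, add_zero]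
    rfl

end

/-- Main theorem in group form. -/
theorem exists_subshift :
    ∃ (K : ℕ) (Φ : GN → (Fin 3 → Fin K) → Fin K),
      (∃ y : ℤ → Heis ℤ → Fin K, Comp hgen Φ y) ∧
      ∀ g : Heis ℤ, g ≠ 1 → ∃ y : ℤ → Heis ℤ → Fin K, Comp hgen Φ y ∧
        ∃ t h, y t (h * g) ≠ y t h := by
  classical
  -- fixed finite types
  obtain ⟨c, ⟨ad⟩⟩ := Finite.exists_equiv_fin (Option (Slot GN (Heis (ZMod 4))))
  obtain ⟨M, ⟨code0⟩⟩ := Finite.exists_equiv_fin (Op GN (Slot GN (Heis (ZMod 4))))
  have hMne : NeZero M := by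
    constructor
    rintro rfl
    exact (code0 (Prim.none, fun _ => (0, (1, Sum.inr 0)))).elim0
  have code : Op GN (Slot GN (Heis (ZMod 4))) ≃ ZMod M :=
    code0.trans (Fintype.equivOfCardEq (by rw [Fintype.card_fin, ZMod.card]))
  obtain ⟨L, hG, hin, hout⟩ := exists_program (M := M) ad code
  -- bound on addresses
  obtain ⟨k, hck, hB⟩ : ∃ k : ℕ, c ≤ k ∧ Bdd k L := by
    have hex : ∀ L : List (Ins GN (Slot GN (Heis (ZMod 4)))), ∃ k : ℕ, c ≤ k ∧ Bdd k L := by
      intro L
      induction L with
      | nil => exact ⟨c, le_rfl, by intro I hI; simp at hI⟩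
      | cons I L ih =>
        obtain ⟨k, hk, hB⟩ := ih
        refine ⟨k + I.dst + 1 + ∑ i, I.a i, by omega, ?_⟩
        intro J hJ
        have hle : ∀ i, I.a i ≤ ∑ i, I.a i := fun i =>
          Finset.single_le_sum (f := I.a) (fun _ _ => Nat.zero_le _) (Finset.mem_univ i)
        rcases List.mem_cons.mp hJ with rfl | hJ
        · exact ⟨by omega, fun i => by have := hle i; omega⟩
        · obtain ⟨h1, h2⟩ := hB J hJ
          exact ⟨by omega, fun i => by have := h2 i; omega⟩
    exact hex L
  have hcpos : 0 < c := (Nat.zero_le _).trans_lt (ad Option.none).2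
  have hk : 0 < k := by omega
  obtain ⟨T, hT⟩ : ∃ T, T = 1 + L.length * E k := ⟨_, rfl⟩
  obtain ⟨m, hm⟩ : ∃ m, m = 100 * (T + 10) := ⟨_, rfl⟩
  have hm' : 100 * (T + 10) ≤ m := by omega
  have hmne : NeZero (4 * m ^ 2) := by
    constructor
    have : 0 < m := by omega
    positivity
  set D := hdata T m hm' with hD
  -- encode cells
  obtain ⟨K, ⟨e⟩⟩ := Finite.exists_equiv_fin
    (Cell GN (Heis (ZMod (4 * m ^ 2))) (Heis (ZMod 4)) M k)
  refine ⟨K, fun s w => e (cellRule D ad L code s (fun i => e.symm (w i))), ?_⟩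
  have hcomp : ∀ y : ℤ → Heis ℤ → Cell GN (Heis (ZMod (4 * m ^ 2))) (Heis (ZMod 4)) M k,
      Valid D ad L code y →
      Comp hgen (fun s w => e (cellRule D ad L code s (fun i => e.symm (w i))))
        (fun t h => e (y t h)) := by
    intro y hy s t h
    have := valid_rule D ad L code y hy s t h
    simp only [Equiv.symm_apply_apply]
    rw [← this]
    rfl
  constructor
  · exact ⟨_, hcomp _ (blank_valid D hk ad L code)⟩
  · intro g hg
    by_contra hcon
    push Not at hcon
    apply hg
    have hall : ∀ n : ℕ, ∃ γ, ((Heis.dil (m : ℤ) : Heis ℤ → Heis ℤ)^[n + 1]) γ = g := by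
      intro n
      apply iter_faith D hk ad L code (0, 0, 0) hT hin hck n g
      intro t h
      have := hcon _ (hcomp _ (iter_valid D hk ad L code hG hB hT hout n)) t h
      exact e.injective this
    apply dil_inter m (by omega)
    intro n
    rcases n with _ | n
    · exact ⟨g, rfl⟩
    · exact hall n

end Pool.Agent.Lib_helper17.HeisShift
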