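import Pool.Agent.Lib_helper17.HeisSlow

set_option autoImplicit false

/-!
The discrete Heisenberg group and its dilation data.
-/

namespace Pool.Agent.Lib_helper17.HeisShift

/-- Heisenberg group over a ring, with law `(a,b,c)(a',b',c') = (a+a', b+b', c+c'+a b')` -/
@[ext] structure Heis (R : Type) where
  a : R
  b : R
  c : R

namespace Heis

variable {R : Type} [CommRing R]

instance : Mul (Heis R) := ⟨fun x y => ⟨x.a + y.a, x.b + y.b, x.c + y.c + x.a * y.b⟩⟩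
instance : One (Heis R) := ⟨⟨0, 0, 0⟩⟩
instance : Inv (Heis R) := ⟨fun x => ⟨-x.a, -x.b, -x.c + x.a * x.b⟩⟩

@[simp] theorem mul_a (x y : Heis R) : (x * y).a = x.a + y.a := rfl
@[simp] theorem mul_b (x y : Heis R) : (x * y).b = x.b + y.b := rfl
@[simp] theorem mul_c (x y : Heis R) : (x * y).c = x.c + y.c + x.a * y.b := rfl
@[simp] theorem one_a : (1 : Heis R).a = 0 := rfl
@[simp] theorem one_b : (1 : Heis R).b = 0 := rfl
@[simp] theorem one_c : (1 : Heis R).c = 0 := rfl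
@[simp] theorem inv_a (x : Heis R) : (x⁻¹).a = -x.a := rfl
@[simp] theorem inv_b (x : Heis R) : (x⁻¹).b = -x.b := rfl
@[simp] theorem inv_c (x : Heis R) : (x⁻¹).c = -x.c + x.a * x.b := rfl

instance : Group (Heis R) := Group.ofLeftAxioms
  (by intro x y z; ext <;> simp <;> ring)
  (by intro x; ext <;> simp)
  (by intro x; ext <;> simp)

/-- functoriality -/
def map {S : Type} [CommRing S] (f : R →+* S) : Heis R →* Heis S where
  toFun x := ⟨f x.a, f x.b, f x.c⟩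
  map_one' := by ext <;> simp
  map_mul' x y := by ext <;> simp

/-- dilation -/
def dil (m : R) : Heis R →* Heis R where
  toFun x := ⟨m * x.a, m * x.b, m ^ 2 * x.c⟩
  map_one' := by ext <;> simp
  map_mul' x y := by ext <;> simp <;> ring

@[simp] theorem dil_a (m : R) (x : Heis R) : (dil m x).a = m * x.a := rfl
@[simp] theorem dil_b (m : R) (x : Heis R) : (dil m x).b = m * x.b := rfl
@[simp] theorem dil_c (m : R) (x : Heis R) : (dil m x).c = m ^ 2 * x.c := rfl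

instance {R : Type} [Finite R] : Finite (Heis R) :=
  Finite.of_injective (fun x : Heis R => (x.a, x.b, x.c)) (by
    intro x y h
    simp only [Prod.mk.injEq] at h
    exact Heis.ext h.1 h.2.1 h.2.2)

end Heis

/-- generator index set -/
abbrev GN : Type := Fin 5 × Fin 5 × Fin 17

/-- generators: all `(x,y,z)` with `|x|,|y| ≤ 2`, `|z| ≤ 8` -/
def hgen (s : GN) : Heis ℤ := ⟨(s.1 : ℤ) - 2, (s.2.1 : ℤ) - 2, (s.2.2 : ℤ) - 8⟩

theorem hgen_surj (x y z : ℤ) (hx : -2 ≤ x ∧ x ≤ 2) (hy : -2 ≤ y ∧ y ≤ 2)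
    (hz : -8 ≤ z ∧ z ≤ 8) : ∃ s : GN, hgen s = ⟨x, y, z⟩ := by
  refine ⟨(⟨(x + 2).toNat, by omega⟩, ⟨(y + 2).toNat, by omega⟩, ⟨(z + 8).toNat, by omega⟩), ?_⟩
  unfold hgen
  ext
  · simp only []; omega
  · simp only []; omega
  · simp only []; omega

theorem hgen_bd (s : GN) : (-2 ≤ (hgen s).a ∧ (hgen s).a ≤ 2) ∧
    (-2 ≤ (hgen s).b ∧ (hgen s).b ≤ 2) ∧ (-8 ≤ (hgen s).c ∧ (hgen s).c ≤ 8) := by
  obtain ⟨s1, s2, s3⟩ := s
  unfold hgen
  have := s1.2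
  have := s2.2
  have := s3.2
  simp only []
  omega

theorem hgen_closure : Submonoid.closure (Set.range hgen) = ⊤ := by
  rw [eq_top_iff]
  rintro ⟨a, b, c⟩ -
  set P := Submonoid.closure (Set.range hgen) with hP
  have hmem : ∀ x y z : ℤ, (-2 ≤ x ∧ x ≤ 2) → (-2 ≤ y ∧ y ≤ 2) → (-8 ≤ z ∧ z ≤ 8) →
      (⟨x, y, z⟩ : Heis ℤ) ∈ P := by
    intro x y z hx hy hz
    obtain ⟨s, hs⟩ := hgen_surj x y z hx hy hz
    rw [← hs]
    exact Submonoid.subset_closure ⟨s, rfl⟩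
  have h1 : ∀ n : ℕ, (⟨n, 0, 0⟩ : Heis ℤ) ∈ P ∧ (⟨-n, 0, 0⟩ : Heis ℤ) ∈ P ∧
      (⟨0, n, 0⟩ : Heis ℤ) ∈ P ∧ (⟨0, -n, 0⟩ : Heis ℤ) ∈ P ∧
      (⟨0, 0, n⟩ : Heis ℤ) ∈ P ∧ (⟨0, 0, -n⟩ : Heis ℤ) ∈ P := by
    intro n
    induction n with
    | zero =>
      have : (⟨0, 0, 0⟩ : Heis ℤ) ∈ P := P.one_mem
      simpa using this
    | succ n ih =>
      obtain ⟨i1, i2, i3, i4, i5, i6⟩ := ih
      refine ⟨?_, ?_, ?_, ?_, ?_, ?_⟩
      · convert P.mul_mem i1 (hmem 1 0 0 (by omega) (by omega) (by omega)) using 1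
        ext <;> simp
      · convert P.mul_mem i2 (hmem (-1) 0 0 (by omega) (by omega) (by omega)) using 1
        ext <;> simp; ring
      · convert P.mul_mem i3 (hmem 0 1 0 (by omega) (by omega) (by omega)) using 1
        ext <;> simp
      · convert P.mul_mem i4 (hmem 0 (-1) 0 (by omega) (by omega) (by omega)) using 1
        ext <;> simp; ring
      · convert P.mul_mem i5 (hmem 0 0 1 (by omega) (by omega) (by omega)) using 1
        ext <;> simp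
      · convert P.mul_mem i6 (hmem 0 0 (-1) (by omega) (by omega) (by omega)) using 1
        ext <;> simp; ring
  have ha : (⟨a, 0, 0⟩ : Heis ℤ) ∈ P := by
    rcases Int.eq_nat_or_neg a with ⟨n, rfl | rfl⟩
    · exact (h1 n).1
    · exact (h1 n).2.1
  have hb : (⟨0, b, 0⟩ : Heis ℤ) ∈ P := by
    rcases Int.eq_nat_or_neg b with ⟨n, rfl | rfl⟩
    · exact (h1 n).2.2.1
    · exact (h1 n).2.2.2.1
  have hc : (⟨0, 0, c⟩ : Heis ℤ) ∈ P := by
    rcases Int.eq_nat_or_neg c with ⟨n, rfl | rfl⟩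
    · exact (h1 n).2.2.2.2.1
    · exact (h1 n).2.2.2.2.2
  convert P.mul_mem (P.mul_mem hb ha) hc using 1
  ext <;> simp

section stage

/-- the stage function -/
def htau (T m : ℕ) (u : Heis ℤ) : ℕ :=
  min T (min (min ((m + 2 * T - u.a.natAbs) / 2) ((m + 2 * T - u.b.natAbs) / 2))
    ((m ^ 2 + (8 + 2 * (m + 2 * T)) * T - u.c.natAbs) / (8 + 2 * (m + 2 * T))))

theorem div_lip (B w x y : ℕ) (hw : 0 < w) (h : y ≤ x + w) :
    (B - x) / w ≤ (B - y) / w + 1 := by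
  calc (B - x) / w ≤ (B - y + w) / w := Nat.div_le_div_right (by omega)
    _ = (B - y) / w + 1 := Nat.add_div_right _ hw

theorem natAbs_bd (z : ℤ) (n : ℕ) (h1 : -(n : ℤ) ≤ z) (h2 : z ≤ n) : z.natAbs ≤ n := by omega

/-- change of the third coordinate under a generator -/
theorem gen_c (s : GN) (u : Heis ℤ) (A : ℕ) (hb : u.b.natAbs ≤ A) :
    ((hgen s * u).c - u.c).natAbs ≤ 8 + 2 * A := by
  obtain ⟨⟨h1, h2⟩, _, ⟨h5, h6⟩⟩ := hgen_bd s
  rw [Heis.mul_c]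
  have hprod : ((hgen s).a * u.b).natAbs ≤ 2 * A := by
    rw [Int.natAbs_mul]
    exact Nat.mul_le_mul (by omega) hb
  generalize (hgen s).a * u.b = z at hprod
  omega

theorem htau_le (T m : ℕ) (u : Heis ℤ) : htau T m u ≤ T := by
  unfold htau; omega

theorem htau_one (T m : ℕ) : htau T m 1 = T := by
  unfold htau
  simp only [Heis.one_a, Heis.one_b, Heis.one_c, Int.natAbs_zero, Nat.sub_zero]
  have h1 : T ≤ (m + 2 * T) / 2 := by omega
  have h2 : T ≤ (m ^ 2 + (8 + 2 * (m + 2 * T)) * T) / (8 + 2 * (m + 2 * T)) := by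
    rw [Nat.le_div_iff_mul_le (by omega)]
    nlinarith
  omega

theorem htau_lip (T m : ℕ) (s : GN) (u : Heis ℤ) :
    htau T m (hgen s * u) ≤ htau T m u + 1 ∧ htau T m u ≤ htau T m (hgen s * u) + 1 := by
  obtain ⟨⟨h1, h2⟩, ⟨h3, h4⟩, _⟩ := hgen_bd s
  have ha : (hgen s * u).a = (hgen s).a + u.a := Heis.mul_a _ _
  have hb : (hgen s * u).b = (hgen s).b + u.b := Heis.mul_b _ _
  unfold htau
  generalize hA : m + 2 * T = A
  have fa1 : (A - (hgen s * u).a.natAbs) / 2 ≤ (A - u.a.natAbs) / 2 + 1 := by omega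
  have fa2 : (A - u.a.natAbs) / 2 ≤ (A - (hgen s * u).a.natAbs) / 2 + 1 := by omega
  have fb1 : (A - (hgen s * u).b.natAbs) / 2 ≤ (A - u.b.natAbs) / 2 + 1 := by omega
  have fb2 : (A - u.b.natAbs) / 2 ≤ (A - (hgen s * u).b.natAbs) / 2 + 1 := by omega
  by_cases hbA : u.b.natAbs ≤ A
  · have hc := gen_c s u A hbA
    generalize hB : m ^ 2 + (8 + 2 * A) * T = B
    have fc1 := div_lip B (8 + 2 * A) (hgen s * u).c.natAbs u.c.natAbs (by omega) (by omega)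
    have fc2 := div_lip B (8 + 2 * A) u.c.natAbs (hgen s * u).c.natAbs (by omega) (by omega)
    constructor <;> omega
  · have fb3 : (A - u.b.natAbs) / 2 = 0 := by omega
    have fb4 : (A - (hgen s * u).b.natAbs) / 2 = 0 := by omega
    rw [fb3, fb4]
    have z : ∀ p q : ℕ, min T (min (min p 0) q) = 0 := by intro p q; omega
    rw [z, z]
    omega

/-- bounds for positions near the support -/
theorem htau_bd (T m : ℕ) (s : GN) (u : Heis ℤ)
    (h : 0 < htau T m u ∨ 0 < htau T m (hgen s * u)) :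
    u.a.natAbs ≤ m + 2 * T ∧ u.b.natAbs ≤ m + 2 * T ∧
      u.c.natAbs ≤ m ^ 2 + (8 + 2 * (m + 2 * T)) * T := by
  obtain ⟨⟨h1, h2⟩, ⟨h3, h4⟩, _⟩ := hgen_bd s
  have ha : (hgen s * u).a = (hgen s).a + u.a := Heis.mul_a _ _
  have hb : (hgen s * u).b = (hgen s).b + u.b := Heis.mul_b _ _
  unfold htau at h
  generalize hA : m + 2 * T = A at h ⊢
  generalize hB : m ^ 2 + (8 + 2 * A) * T = B at h ⊢
  rcases h with h | h
  · have k1 : 0 < (A - u.a.natAbs) / 2 := by omega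
    have k2 : 0 < (A - u.b.natAbs) / 2 := by omega
    have k3 : 0 < (B - u.c.natAbs) / (8 + 2 * A) := by omega
    have k4 : 8 + 2 * A ≤ B - u.c.natAbs := by
      by_contra hlt
      rw [Nat.div_eq_of_lt (by omega)] at k3
      omega
    omega
  · have k1 : 0 < (A - (hgen s * u).a.natAbs) / 2 := by omega
    have k2 : 0 < (A - (hgen s * u).b.natAbs) / 2 := by omega
    have k3 : 0 < (B - (hgen s * u).c.natAbs) / (8 + 2 * A) := by omega
    have k4 : 8 + 2 * A ≤ B - (hgen s * u).c.natAbs := by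
      by_contra hlt
      rw [Nat.div_eq_of_lt (by omega)] at k3
      omega
    have k5 : u.b.natAbs ≤ A := by omega
    have hc := gen_c s u A k5
    omega

/-- the data for the Heisenberg group -/
theorem hcov (T m : ℕ) (hm : 100 * (T + 10) ≤ m) (s : GN) (u : Heis ℤ)
    (h : 0 < htau T m (hgen s * u)) :
    ∃ s' : GN, htau T m (u * Heis.dil (m : ℤ) (hgen s')) = T := by
  obtain ⟨b1, b2, b3⟩ := htau_bd T m s u (Or.inr h)
  have hm0 : (0 : ℤ) < m := by omega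
  have hm2 : (0 : ℤ) < (m : ℤ) ^ 2 := by positivity
  set g1 : ℤ := -(u.a / m) with hg1
  set g2 : ℤ := -(u.b / m) with hg2
  set z : ℤ := u.c + u.a * (m * g2) with hz
  set g3 : ℤ := -(z / (m : ℤ) ^ 2) with hg3
  have hu1 : -(2 * (m : ℤ)) ≤ u.a ∧ u.a < 2 * m := by omega
  have hu2 : -(2 * (m : ℤ)) ≤ u.b ∧ u.b < 2 * m := by omega
  have g1b : -2 ≤ g1 ∧ g1 ≤ 2 := by
    have e1 : -2 ≤ u.a / m := by
      rw [Int.le_ediv_iff_mul_le hm0]; omega
    have e2 : u.a / m < 2 := by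
      rw [Int.ediv_lt_iff_lt_mul hm0]; omega
    omega
  have g2b : -2 ≤ g2 ∧ g2 ≤ 2 := by
    have e1 : -2 ≤ u.b / m := by
      rw [Int.le_ediv_iff_mul_le hm0]; omega
    have e2 : u.b / m < 2 := by
      rw [Int.ediv_lt_iff_lt_mul hm0]; omega
    omega
  have hBm : ((m ^ 2 + (8 + 2 * (m + 2 * T)) * T : ℕ) : ℤ) ≤ 2 * (m : ℤ) ^ 2 := by
    push_cast
    have : (100 * ((T : ℤ) + 10)) ≤ m := by exact_mod_cast hm
    nlinarith
  have hcb : -(2 * (m : ℤ) ^ 2) ≤ u.c ∧ u.c ≤ 2 * (m : ℤ) ^ 2 := by omega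
  have hprod : -(4 * (m : ℤ) ^ 2) ≤ u.a * (m * g2) ∧ u.a * (m * g2) ≤ 4 * (m : ℤ) ^ 2 := by
    have : |u.a * (m * g2)| ≤ (2 * m) * (m * 2) := by
      rw [abs_mul, abs_mul]
      apply mul_le_mul
      · rw [abs_le]; omega
      · rw [abs_of_pos hm0]
        apply mul_le_mul_of_nonneg_left _ hm0.le
        rw [abs_le]; omega
      · positivity
      · positivity
    rw [abs_le] at this
    constructor <;> nlinarith [this.1, this.2]
  have g3b : -8 ≤ g3 ∧ g3 ≤ 8 := by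
    have e1 : -8 ≤ z / (m : ℤ) ^ 2 := by
      rw [Int.le_ediv_iff_mul_le hm2]; nlinarith [hprod.1, hcb.1]
    have e2 : z / (m : ℤ) ^ 2 < 8 := by
      rw [Int.ediv_lt_iff_lt_mul hm2]; nlinarith [hprod.2, hcb.2]
    omega
  obtain ⟨s', hs'⟩ := hgen_surj g1 g2 g3 g1b g2b g3b
  refine ⟨s', ?_⟩
  rw [hs']
  have ea : (u * Heis.dil (m : ℤ) ⟨g1, g2, g3⟩).a = u.a % m := by
    rw [Heis.mul_a, Heis.dil_a]
    have := Int.mul_ediv_add_emod u.a m
    simp only [hg1]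
    linarith
  have eb : (u * Heis.dil (m : ℤ) ⟨g1, g2, g3⟩).b = u.b % m := by
    rw [Heis.mul_b, Heis.dil_b]
    have := Int.mul_ediv_add_emod u.b m
    simp only [hg2]
    linarith
  have ec : (u * Heis.dil (m : ℤ) ⟨g1, g2, g3⟩).c = z % (m : ℤ) ^ 2 := by
    rw [Heis.mul_c, Heis.dil_c, Heis.dil_b]
    have := Int.mul_ediv_add_emod z ((m : ℤ) ^ 2)
    simp only [hg3]
    linarith
  unfold htau
  rw [ea, eb, ec]
  have r1 := Int.emod_nonneg u.a hm0.ne'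
  have r2 := Int.emod_lt_of_pos u.a hm0
  have r3 := Int.emod_nonneg u.b hm0.ne'
  have r4 := Int.emod_lt_of_pos u.b hm0
  have r5 := Int.emod_nonneg z hm2.ne'
  have r6 := Int.emod_lt_of_pos z hm2
  have q1 : T ≤ (m + 2 * T - (u.a % m).natAbs) / 2 := by omega
  have q2 : T ≤ (m + 2 * T - (u.b % m).natAbs) / 2 := by omega
  have q3 : T ≤ (m ^ 2 + (8 + 2 * (m + 2 * T)) * T - (z % (m : ℤ) ^ 2).natAbs)
      / (8 + 2 * (m + 2 * T)) := by
    rw [Nat.le_div_iff_mul_le (by omega)]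
    have r7 : (z % (m : ℤ) ^ 2).natAbs ≤ m ^ 2 := by
      have : ((m ^ 2 : ℕ) : ℤ) = (m : ℤ) ^ 2 := by push_cast; ring
      omega
    have : T * (8 + 2 * (m + 2 * T)) = (8 + 2 * (m + 2 * T)) * T := mul_comm _ _
    omega
  omega

/-- reduction modulo `n` -/
def hred (n : ℕ) : Heis ℤ →* Heis (ZMod n) := Heis.map (Int.castRingHom (ZMod n))

theorem hred_one (n : ℕ) (g : Heis ℤ) (h : hred n g = 1) :
    (n : ℤ) ∣ g.a ∧ (n : ℤ) ∣ g.b ∧ (n : ℤ) ∣ g.c := by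
  have h1 := congrArg Heis.a h
  have h2 := congrArg Heis.b h
  have h3 := congrArg Heis.c h
  simp only [hred, Heis.map, MonoidHom.coe_mk, OneHom.coe_mk, Heis.one_a, Heis.one_b,
    Heis.one_c, Int.coe_castRingHom] at h1 h2 h3
  exact ⟨(ZMod.intCast_zmod_eq_zero_iff_dvd _ _).mp h1, (ZMod.intCast_zmod_eq_zero_iff_dvd _ _).mp h2,
    (ZMod.intCast_zmod_eq_zero_iff_dvd _ _).mp h3⟩

theorem hker (m : ℕ) (g : Heis ℤ) (h : hred (4 * m ^ 2) g = 1) :
    ∃ γ, Heis.dil (m : ℤ) γ = g ∧ hred 4 γ = 1 := by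
  obtain ⟨⟨x, hx⟩, ⟨y, hy⟩, ⟨z, hz⟩⟩ := hred_one _ g h
  refine ⟨⟨4 * (m * x), 4 * (m * y), 4 * z⟩, ?_, ?_⟩
  · ext
    · rw [Heis.dil_a, hx]; push_cast; ring
    · rw [Heis.dil_b, hy]; push_cast; ring
    · rw [Heis.dil_c, hz]; push_cast; ring
  · have h4 : ((4 : ℤ) : ZMod 4) = 0 := by decide
    ext
    · show ((4 * (m * x) : ℤ) : ZMod 4) = 0
      rw [Int.cast_mul, h4, zero_mul]
    · show ((4 * (m * y) : ℤ) : ZMod 4) = 0
      rw [Int.cast_mul, h4, zero_mul]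
    · show ((4 * z : ℤ) : ZMod 4) = 0
      rw [Int.cast_mul, h4, zero_mul]

theorem dvd_small (x : ℤ) (h : (4 : ℤ) ∣ x) (h1 : -4 < x) (h2 : x < 4) : x = 0 := by
  obtain ⟨y, rfl⟩ := h
  omega

theorem hsep (T m : ℕ) (hm : 100 * (T + 10) ≤ m) (s : GN) (h g₁ g₂ : Heis ℤ)
    (hl : hred 4 g₁ = hred 4 g₂)
    (h1 : 0 < htau T m (h * (Heis.dil (m : ℤ) g₁)⁻¹) ∨
      0 < htau T m (hgen s * (h * (Heis.dil (m : ℤ) g₁)⁻¹)))
    (h2 : 0 < htau T m (h * (Heis.dil (m : ℤ) g₂)⁻¹) ∨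
      0 < htau T m (hgen s * (h * (Heis.dil (m : ℤ) g₂)⁻¹))) : g₁ = g₂ := by
  obtain ⟨a1, a2, a3⟩ := htau_bd T m s _ h1
  obtain ⟨b1, b2, b3⟩ := htau_bd T m s _ h2
  set u₁ := h * (Heis.dil (m : ℤ) g₁)⁻¹ with hu₁
  set u₂ := h * (Heis.dil (m : ℤ) g₂)⁻¹ with hu₂
  set g := g₁ * g₂⁻¹ with hg
  have hgl : hred 4 g = 1 := by
    rw [hg, map_mul, map_inv, hl, mul_inv_cancel]
  obtain ⟨d1, d2, d3⟩ := hred_one 4 g hgl
  have hu : u₂ = u₁ * Heis.dil (m : ℤ) g := by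
    rw [hu₁, hu₂, hg, map_mul, map_inv]; group
  have hm0 : (0 : ℤ) < m := by omega
  have hm2 : (0 : ℤ) < (m : ℤ) ^ 2 := by positivity
  have ea : u₂.a = u₁.a + m * g.a := by rw [hu, Heis.mul_a, Heis.dil_a]
  have eb : u₂.b = u₁.b + m * g.b := by rw [hu, Heis.mul_b, Heis.dil_b]
  have ec : u₂.c = u₁.c + m ^ 2 * g.c + u₁.a * (m * g.b) := by
    rw [hu, Heis.mul_c, Heis.dil_c, Heis.dil_b]
  have ga : g.a = 0 := by
    apply dvd_small _ d1
    · have : (m : ℤ) * (-4) < m * g.a := by omega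
      exact lt_of_mul_lt_mul_left this hm0.le
    · have : (m : ℤ) * g.a < m * 4 := by omega
      exact lt_of_mul_lt_mul_left this hm0.le
  have gb : g.b = 0 := by
    apply dvd_small _ d2
    · have : (m : ℤ) * (-4) < m * g.b := by omega
      exact lt_of_mul_lt_mul_left this hm0.le
    · have : (m : ℤ) * g.b < m * 4 := by omega
      exact lt_of_mul_lt_mul_left this hm0.le
  have hBm : ((m ^ 2 + (8 + 2 * (m + 2 * T)) * T : ℕ) : ℤ) < 2 * (m : ℤ) ^ 2 := by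
    push_cast
    have : (100 * ((T : ℤ) + 10)) ≤ m := by exact_mod_cast hm
    nlinarith
  have gc : g.c = 0 := by
    rw [gb, mul_zero, mul_zero, add_zero] at ec
    apply dvd_small _ d3
    · have : (m : ℤ) ^ 2 * (-4) < m ^ 2 * g.c := by omega
      exact lt_of_mul_lt_mul_left this hm2.le
    · have : (m : ℤ) ^ 2 * g.c < m ^ 2 * 4 := by omega
      exact lt_of_mul_lt_mul_left this hm2.le
  have : g = 1 := by ext <;> simpa using by assumption
  rw [hg] at this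
  exact mul_inv_eq_one.mp this

/-- the time data of the Heisenberg group -/
def hdata (T m : ℕ) (hm : 100 * (T + 10) ≤ m) :
    TimeData (Heis ℤ) GN (Heis (ZMod (4 * m ^ 2))) (Heis (ZMod 4)) T where
  gen := hgen
  δ := Heis.dil (m : ℤ)
  κ := hred (4 * m ^ 2)
  lam := hred 4
  tau := htau T m
  tau_le := htau_le T m
  tau_lip := htau_lip T m
  tau_one := htau_one T m
  ker := hker m
  sep := hsep T m hm
  cov := fun s u _ h => hcov T m hm s u h

theorem dil_iter_a (m : ℤ) (n : ℕ) (g : Heis ℤ) :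
    (((Heis.dil m)^[n]) g).a = m ^ n * g.a ∧ (((Heis.dil m)^[n]) g).b = m ^ n * g.b ∧
      (((Heis.dil m)^[n]) g).c = (m ^ 2) ^ n * g.c := by
  induction n with
  | zero => simp
  | succ n ih =>
    rw [Function.iterate_succ_apply']
    refine ⟨?_, ?_, ?_⟩
    · rw [Heis.dil_a, ih.1, pow_succ]; ring
    · rw [Heis.dil_b, ih.2.1, pow_succ]; ring
    · rw [Heis.dil_c, ih.2.2, pow_succ]; ring

theorem zero_of_pow_dvd (x : ℤ) (q : ℤ) (hq : 2 ≤ q) (h : ∀ n : ℕ, q ^ n ∣ x) : x = 0 := by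
  by_contra hx
  have hpos : 0 < |x| := abs_pos.mpr hx
  obtain ⟨n, hn⟩ := pow_unbounded_of_one_lt (|x|) (show (1 : ℤ) < q by omega)
  have := Int.le_of_dvd hpos ((dvd_abs _ _).mpr (h n))
  omega

theorem dil_inter (m : ℕ) (hm : 2 ≤ m) (g : Heis ℤ)
    (h : ∀ n : ℕ, ∃ γ, ((Heis.dil (m : ℤ))^[n]) γ = g) : g = 1 := by
  have hq : (2 : ℤ) ≤ m := by exact_mod_cast hm
  ext
  · apply zero_of_pow_dvd _ m hq
    intro n
    obtain ⟨γ, hγ⟩ := h n
    exact ⟨γ.a, by rw [← hγ, (dil_iter_a _ _ _).1]⟩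
  · apply zero_of_pow_dvd _ m hq
    intro n
    obtain ⟨γ, hγ⟩ := h n
    exact ⟨γ.b, by rw [← hγ, (dil_iter_a _ _ _).2.1]⟩
  · apply zero_of_pow_dvd _ ((m : ℤ) ^ 2) (by nlinarith)
    intro n
    obtain ⟨γ, hγ⟩ := h n
    exact ⟨γ.c, by rw [← hγ, (dil_iter_a _ _ _).2.2]⟩

end stage

end Pool.Agent.Lib_helper17.HeisShift
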