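import Mathlib

set_option autoImplicit false

/-!
Straight line programs over a finite set of local operations, and the existence of a
program that evaluates every local operation from its code (used for a self-simulating
hierarchical subshift).
-/

namespace Pool.Agent.Lib_helper17.HeisShift

/-- primitive operations -/
inductive Prim (N ι : Type) : Type
  | none : Prim N ι
  | proj : Prim N ι
  | gam (s : N) (ν : ι) : Prim N ι
  | mu (s : N) : Prim N ι
  | dec : Prim N ι
  | sel : Prim N ι

/-- local operations on slots -/
abbrev Op (N ι : Type) : Type := Prim N ι × (Fin 3 → Fin 3 × ι)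

instance {N ι : Type} [Finite N] [Finite ι] : Finite (Prim N ι) := by
  let f : Prim N ι → (Fin 4 ⊕ (N × ι)) ⊕ N := fun p =>
    match p with
    | Prim.none => Sum.inl (Sum.inl 0)
    | Prim.proj => Sum.inl (Sum.inl 1)
    | Prim.gam s ν => Sum.inl (Sum.inr (s, ν))
    | Prim.mu s => Sum.inr s
    | Prim.dec => Sum.inl (Sum.inl 2)
    | Prim.sel => Sum.inl (Sum.inl 3)
  apply Finite.of_injective f
  intro p q h
  cases p <;> cases q <;> simp_all [f]

instance {N ι : Type} : Nonempty (Prim N ι) := ⟨Prim.none⟩

/-- offset -/
def off (e : Fin 3) : ℤ := (e : ℤ) - 1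

abbrev Atom (C : Type) (M : ℕ) : Type := Option (C ⊕ ZMod M)

/-- A semantics: the control type, the interpretation of the operations `gam`, `mu`,
and the input configuration. -/
structure Sem (N ι : Type) (M : ℕ) where
  Ctrl : Type
  gam : N → ι → Ctrl → ZMod M
  mu : N → Ctrl → Ctrl
  ctl : ℤ → Ctrl
  inp : ℤ → ι → Atom Ctrl M

section

variable {N ι : Type} {M : ℕ}

open Classical in
/-- selection -/
noncomputable def selF {C : Type} (x y z : Atom C M) : Atom C M :=
  if x = some (Sum.inr 0) then y else z

/-- evaluation of primitive operations -/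
noncomputable def ev {C : Type} (gam : N → ι → C → ZMod M) (mu : N → C → C) :
    Prim N ι → (Fin 3 → Atom C M) → Atom C M
  | Prim.none, _ => Option.none
  | Prim.proj, x => x 0
  | Prim.gam s ν, x =>
      match x 0 with
      | some (Sum.inl c) => some (Sum.inr (gam s ν c))
      | _ => Option.none
  | Prim.mu s, x =>
      match x 0 with
      | some (Sum.inl c) => some (Sum.inl (mu s c))
      | _ => Option.none
  | Prim.dec, x =>
      match x 0 with
      | some (Sum.inr n) => some (Sum.inr (n - 1))
      | _ => Option.none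
  | Prim.sel, x => selF (x 0) (x 1) (x 2)

theorem ev_none {C : Type} (gam : N → ι → C → ZMod M) (mu : N → C → C) (x) :
    ev gam mu Prim.none x = Option.none := rfl

theorem ev_proj {C : Type} (gam : N → ι → C → ZMod M) (mu : N → C → C) (x) :
    ev gam mu Prim.proj x = x 0 := rfl

theorem ev_blank {C : Type} (gam : N → ι → C → ZMod M) (mu : N → C → C) (φ : Prim N ι) :
    ev gam mu φ (fun _ => Option.none) = Option.none := by
  cases φ <;> simp [ev, selF]

/-- instructions -/
structure Ins (N ι : Type) where
  trk : Option N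
  dst : ℕ
  φ : Prim N ι
  e : Fin 3 → Fin 3
  a : Fin 3 → ℕ

/-- memory states -/
abbrev Mem (S : Sem N ι M) : Type := Option N → ℕ → ℤ → Atom S.Ctrl M

/-- the input atoms -/
def Sem.input (S : Sem N ι M) (j : ℤ) : Option ι → Atom S.Ctrl M
  | Option.none => some (Sum.inl (S.ctl j))
  | Option.some ν => S.inp j ν

variable {c : ℕ}

/-- initial memory -/
def init (ad : Option ι ≃ Fin c) (S : Sem N ι M) : Mem S := fun b v j =>
  match b with
  | Option.none => if h : v < c then S.input j (ad.symm ⟨v, h⟩) else Option.none
  | Option.some _ => Option.none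

open Classical in
/-- one instruction -/
noncomputable def step (S : Sem N ι M) (I : Ins N ι) (m : Mem S) : Mem S := fun b v j =>
  if b = I.trk ∧ v = I.dst then
    ev S.gam S.mu I.φ (fun i => m Option.none (I.a i) (j + off (I.e i)))
  else m b v j

noncomputable def run (ad : Option ι ≃ Fin c) (S : Sem N ι M) (L : List (Ins N ι)) : Mem S :=
  L.foldl (fun m I => step S I m) (init ad S)

theorem run_nil (ad : Option ι ≃ Fin c) (S : Sem N ι M) : run ad S [] = init ad S := rfl

theorem run_snoc (ad : Option ι ≃ Fin c) (S : Sem N ι M) (L : List (Ins N ι)) (I : Ins N ι) :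
    run ad S (L ++ [I]) = step S I (run ad S L) := by
  simp [run, List.foldl_append]

/-- the value prescribed by an operation -/
noncomputable def evOp (S : Sem N ι M) (o : Op N ι) (j : ℤ) : Atom S.Ctrl M :=
  ev S.gam S.mu o.1 (fun i => S.inp (j + off (o.2 i).1) (o.2 i).2)

/-- local condition on an instruction `I` executed after the list `L` -/
def Cond (M : ℕ) (ad : Option ι ≃ Fin c) (L : List (Ins N ι)) (I : Ins N ι) : Prop :=
  (I.trk = Option.none → ∀ i, I.a i ≠ I.dst) ∧
    ∀ (S : Sem N ι M) (j : ℤ), run ad S L I.trk I.dst j = Option.none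

/-- all instructions satisfy the local condition -/
def Good (M : ℕ) (ad : Option ι ≃ Fin c) (L : List (Ins N ι)) : Prop :=
  ∀ n (h : n < L.length), Cond M ad (L.take n) L[n]

theorem good_nil (ad : Option ι ≃ Fin c) : Good M ad ([] : List (Ins N ι)) := by
  intro n h; simp at h

theorem good_snoc (ad : Option ι ≃ Fin c) (L : List (Ins N ι)) (I : Ins N ι)
    (hL : Good M ad L) (hI : Cond M ad L I) : Good M ad (L ++ [I]) := by
  intro n h
  by_cases hn : n < L.length
  · have h1 : (L ++ [I]).take n = L.take n := by
      rw [List.take_append_of_le_length hn.le]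
    have h2 : (L ++ [I])[n] = L[n] := by
      rw [List.getElem_append_left hn]
    rw [h1, h2]
    exact hL n hn
  · have hn' : n = L.length := by
      simp at h; omega
    subst hn'
    have h1 : (L ++ [I]).take L.length = L := by simp
    have h2 : (L ++ [I])[L.length] = I := by simp
    rw [h1, h2]
    exact hI

/-- Programs writing to consecutive fresh cells of the main track. -/
structure MV (M : ℕ) (ad : Option ι ≃ Fin c) (L : List (Ins N ι)) : Prop where
  good : Good M ad L
  blank : ∀ (S : Sem N ι M) v j, c + L.length ≤ v → run ad S L Option.none v j = Option.none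
  side : ∀ (S : Sem N ι M) s v j, run ad S L (Option.some s) v j = Option.none
  inputs : ∀ (S : Sem N ι M) q j, run ad S L Option.none (ad q) j = S.input j q

theorem mv_nil (ad : Option ι ≃ Fin c) : MV M ad ([] : List (Ins N ι)) where
  good := good_nil ad
  blank := by
    intro S v j h
    simp only [List.length_nil, add_zero] at h
    simp [run_nil, init, not_lt.mpr h]
  side := by intro S s v j; simp [run_nil, init]
  inputs := by
    intro S q j
    simp [run_nil, init]

/-- the next instruction appended to `L` -/
def nxt (c : ℕ) (L : List (Ins N ι)) (φ : Prim N ι) (e : Fin 3 → Fin 3) (a : Fin 3 → ℕ) :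
    Ins N ι := ⟨Option.none, c + L.length, φ, e, a⟩

theorem run_nxt_old (ad : Option ι ≃ Fin c) (S : Sem N ι M) (L : List (Ins N ι))
    (φ : Prim N ι) (e : Fin 3 → Fin 3) (a : Fin 3 → ℕ) (v : ℕ) (j : ℤ) (hv : v < c + L.length) :
    run ad S (L ++ [nxt c L φ e a]) Option.none v j = run ad S L Option.none v j := by
  rw [run_snoc]
  unfold step nxt
  simp [hv.ne]

theorem run_nxt_new (ad : Option ι ≃ Fin c) (S : Sem N ι M) (L : List (Ins N ι))
    (φ : Prim N ι) (e : Fin 3 → Fin 3) (a : Fin 3 → ℕ) (j : ℤ) :
    run ad S (L ++ [nxt c L φ e a]) Option.none (c + L.length) j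
      = ev S.gam S.mu φ (fun i => run ad S L Option.none (a i) (j + off (e i))) := by
  rw [run_snoc]
  simp [step, nxt]

theorem mv_nxt (ad : Option ι ≃ Fin c) (L : List (Ins N ι)) (hL : MV M ad L)
    (φ : Prim N ι) (e : Fin 3 → Fin 3) (a : Fin 3 → ℕ) (ha : ∀ i, a i < c + L.length) :
    MV M ad (L ++ [nxt c L φ e a]) where
  good := by
    apply good_snoc _ _ _ hL.good
    refine ⟨fun _ i => (ha i).ne, ?_⟩
    intro S j
    exact hL.blank S _ j le_rfl
  blank := by
    intro S v j hv
    simp only [List.length_append, List.length_cons, List.length_nil] at hv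
    rw [run_snoc]
    have : v ≠ c + L.length := by omega
    simp only [step, nxt, this, and_false, if_false]
    exact hL.blank S v j (by omega)
  side := by
    intro S s v j
    rw [run_snoc]
    simp only [step, nxt, reduceCtorEq, false_and, if_false]
    exact hL.side S s v j
  inputs := by
    intro S q j
    rw [run_nxt_old ad S L φ e a _ j (by have := (ad q).2; omega)]
    exact hL.inputs S q j

/-- extension of programs -/
def Ext (M : ℕ) (ad : Option ι ≃ Fin c) (L L' : List (Ins N ι)) : Prop :=
  L.length ≤ L'.length ∧ ∀ (S : Sem N ι M) v j, v < c + L.length →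
    run ad S L' Option.none v j = run ad S L Option.none v j

theorem Ext.refl (ad : Option ι ≃ Fin c) (L : List (Ins N ι)) : Ext M ad L L :=
  ⟨le_rfl, fun _ _ _ _ => rfl⟩

theorem Ext.trans {ad : Option ι ≃ Fin c} {L L' L'' : List (Ins N ι)}
    (h : Ext M ad L L') (h' : Ext M ad L' L'') : Ext M ad L L'' :=
  ⟨h.1.trans h'.1, fun S v j hv => by
    rw [h'.2 S v j (by have := h.1; omega), h.2 S v j hv]⟩

theorem ext_nxt (ad : Option ι ≃ Fin c) (L : List (Ins N ι))
    (φ : Prim N ι) (e : Fin 3 → Fin 3) (a : Fin 3 → ℕ) :
    Ext M ad L (L ++ [nxt c L φ e a]) :=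
  ⟨by simp, fun S v j hv => run_nxt_old ad S L φ e a v j hv⟩

theorem len_nxt (L : List (Ins N ι)) (φ : Prim N ι) (e : Fin 3 → Fin 3) (a : Fin 3 → ℕ) :
    (L ++ [nxt c L φ e a]).length = L.length + 1 := by simp

/-- the value that the rule prescribes for slot `ν`, generator `s` -/
noncomputable def target (code : Op N ι ≃ ZMod M) (S : Sem N ι M) (s : N) (ν : ι) (j : ℤ) :
    Atom S.Ctrl M :=
  evOp S (code.symm (S.gam s ν (S.ctl j))) j

theorem off_one : off 1 = 0 := by simp [off]

theorem loop (ad : Option ι ≃ Fin c) [NeZero M] (code : Op N ι ≃ ZMod M) (s : N) (ν : ι)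
    (L : List (Ins N ι)) (hL : MV M ad L) (n : ℕ) (hn : n ≤ M) :
    ∃ L' : List (Ins N ι), MV M ad L' ∧ Ext M ad L L' ∧ ∃ vc vr : ℕ,
      vc < c + L'.length ∧ vr < c + L'.length ∧
      ∀ (S : Sem N ι M) (j : ℤ),
        run ad S L' Option.none vc j
          = some (Sum.inr (S.gam s ν (S.ctl j) - (n : ZMod M))) ∧
        run ad S L' Option.none vr j
          = if (S.gam s ν (S.ctl j)).val < n then target code S s ν j else Option.none := by
  induction n with
  | zero =>
    set L1 := L ++ [nxt c L (Prim.gam s ν) (fun _ => 1) (fun _ => (ad Option.none : ℕ))] with hL1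
    have hM1 : MV M ad L1 := mv_nxt ad L hL _ _ _ (fun _ => by
      have := (ad Option.none).2; omega)
    set L2 := L1 ++ [nxt c L1 Prim.none (fun _ => 1) (fun _ => (ad Option.none : ℕ))] with hL2
    have hM2 : MV M ad L2 := mv_nxt ad L1 hM1 _ _ _ (fun _ => by
      have := (ad Option.none).2; omega)
    have e1 : Ext M ad L L1 := ext_nxt ad L _ _ _
    have e2 : Ext M ad L1 L2 := ext_nxt ad L1 _ _ _
    have l1 : L1.length = L.length + 1 := len_nxt L _ _ _
    have l2 : L2.length = L1.length + 1 := len_nxt L1 _ _ _
    refine ⟨L2, hM2, e1.trans e2, c + L.length, c + L1.length, by omega, by omega, ?_⟩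
    intro S j
    constructor
    · rw [e2.2 S _ _ (by omega)]
      rw [hL1, run_nxt_new]
      have : run ad S L Option.none (ad Option.none : ℕ) (j + off 1) = some (Sum.inl (S.ctl j)) := by
        rw [hL.inputs S Option.none]
        simp [Sem.input, off_one]
      simp [ev, this]
    · rw [hL2, run_nxt_new]
      simp [ev]
  | succ n ih =>
    obtain ⟨L0, hM0, e0, vc, vr, hvc, hvr, hval⟩ := ih (by omega)
    set o : Op N ι := code.symm (n : ZMod M) with ho
    -- compute the candidate
    set L1 := L0 ++ [nxt c L0 o.1 (fun i => (o.2 i).1)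
      (fun i => (ad (Option.some (o.2 i).2) : ℕ))] with hL1
    have hM1 : MV M ad L1 := mv_nxt ad L0 hM0 _ _ _ (fun i => by
      have := (ad (Option.some (o.2 i).2)).2; omega)
    have l1 : L1.length = L0.length + 1 := len_nxt L0 _ _ _
    have e1 : Ext M ad L0 L1 := ext_nxt ad L0 _ _ _
    -- select
    set L2 := L1 ++ [nxt c L1 Prim.sel (fun _ => 1) (![vc, c + L0.length, vr])] with hL2
    have hM2 : MV M ad L2 := mv_nxt ad L1 hM1 _ _ _ (fun i => by
      fin_cases i <;> simp <;> omega)
    have l2 : L2.length = L1.length + 1 := len_nxt L1 _ _ _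
    have e2 : Ext M ad L1 L2 := ext_nxt ad L1 _ _ _
    -- decrement
    set L3 := L2 ++ [nxt c L2 Prim.dec (fun _ => 1) (fun _ => vc)] with hL3
    have hM3 : MV M ad L3 := mv_nxt ad L2 hM2 _ _ _ (fun i => by omega)
    have l3 : L3.length = L2.length + 1 := len_nxt L2 _ _ _
    have e3 : Ext M ad L2 L3 := ext_nxt ad L2 _ _ _
    refine ⟨L3, hM3, e0.trans (e1.trans (e2.trans e3)), c + L2.length, c + L1.length,
      by omega, by omega, ?_⟩
    intro S j
    obtain ⟨h1, h2⟩ := hval S j
    have hc1 : run ad S L1 Option.none vc j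
        = some (Sum.inr (S.gam s ν (S.ctl j) - (n : ZMod M))) := by
      rw [e1.2 S _ _ (by omega), h1]
    have hc2 : run ad S L2 Option.none vc j
        = some (Sum.inr (S.gam s ν (S.ctl j) - (n : ZMod M))) := by
      rw [e2.2 S _ _ (by omega), hc1]
    have hr1 : run ad S L1 Option.none vr j
          = if (S.gam s ν (S.ctl j)).val < n then target code S s ν j else Option.none := by
      rw [e1.2 S _ _ (by omega), h2]
    have hx1 : run ad S L1 Option.none (c + L0.length) j = evOp S o j := by
      rw [hL1, run_nxt_new]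
      unfold evOp
      congr 1
      funext i
      rw [hM0.inputs S]
      rfl
    constructor
    · rw [hL3, run_nxt_new]
      simp only [off_one, add_zero, ev, hc2]
      congr 2
      push_cast
      ring
    · rw [e3.2 S _ _ (by omega)]
      rw [hL2, run_nxt_new]
      simp only [off_one, add_zero, ev, Matrix.cons_val_zero, Matrix.cons_val_one,
        Matrix.cons_val]
      rw [hc1, hr1, hx1]
      unfold selF
      have key : (some (Sum.inr (S.gam s ν (S.ctl j) - (n : ZMod M))) :
          Atom S.Ctrl M) = some (Sum.inr 0) ↔ (S.gam s ν (S.ctl j)).val = n := by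
        rw [Option.some_inj, Sum.inr.injEq, sub_eq_zero]
        constructor
        · intro h
          rw [h, ZMod.val_natCast, Nat.mod_eq_of_lt (by omega)]
        · intro h
          rw [← h, ZMod.natCast_zmod_val]
      by_cases hk : (S.gam s ν (S.ctl j)).val = n
      · rw [if_pos (key.mpr hk), if_pos (by omega)]
        unfold target
        congr 1
        rw [ho]
        congr 1
        rw [← hk, ZMod.natCast_zmod_val]
      · rw [if_neg (fun h => hk (key.mp h))]
        by_cases hlt : (S.gam s ν (S.ctl j)).val < n
        · rw [if_pos hlt, if_pos (by omega)]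
        · rw [if_neg hlt, if_neg (by omega)]

theorem computeAll (ad : Option ι ≃ Fin c) [NeZero M] (code : Op N ι ≃ ZMod M)
    (l : List (N × ι)) :
    ∃ L : List (Ins N ι), MV M ad L ∧ ∀ p ∈ l, ∃ v < c + L.length,
      ∀ (S : Sem N ι M) (j : ℤ), run ad S L Option.none v j = target code S p.1 p.2 j := by
  induction l with
  | nil => exact ⟨[], mv_nil ad, by simp⟩
  | cons p l ih =>
    obtain ⟨L, hL, hl⟩ := ih
    obtain ⟨L', hL', hE, vc, vr, hvc, hvr, hval⟩ := loop ad code p.1 p.2 L hL M le_rfl
    refine ⟨L', hL', ?_⟩
    intro q hq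
    rcases List.mem_cons.mp hq with rfl | hq
    · refine ⟨vr, hvr, fun S j => ?_⟩
      rw [(hval S j).2, if_pos (ZMod.val_lt _)]
    · obtain ⟨v, hv, hv'⟩ := hl q hq
      refine ⟨v, by have := hE.1; omega, fun S j => ?_⟩
      rw [hE.2 S v j hv, hv' S j]

/-- the value of the outputs -/
noncomputable def outVal (code : Op N ι ≃ ZMod M) (S : Sem N ι M) (s : N) (j : ℤ) :
    Option ι → Atom S.Ctrl M
  | Option.none => some (Sum.inl (S.mu s (S.ctl j)))
  | Option.some ν => target code S s ν j

/-- Existence of the universal program. -/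
theorem exists_program [Finite N] [Finite ι] (ad : Option ι ≃ Fin c) [NeZero M]
    (code : Op N ι ≃ ZMod M) :
    ∃ L : List (Ins N ι), Good M ad L ∧
      (∀ (S : Sem N ι M) q j, run ad S L Option.none (ad q) j = S.input j q) ∧
      (∀ (S : Sem N ι M) s q j, run ad S L (Option.some s) (ad q) j = outVal code S s j q) := by
  classical
  have := Fintype.ofFinite N
  have := Fintype.ofFinite ι
  obtain ⟨L, hL, hout⟩ := computeAll ad code (Finset.univ : Finset (N × ι)).toList
  have hout' : ∀ s ν, ∃ v < c + L.length,
      ∀ (S : Sem N ι M) (j : ℤ), run ad S L Option.none v j = target code S s ν j :=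
    fun s ν => hout (s, ν) (by simp)
  choose out hout1 hout2 using hout'
  -- the output instructions
  let oi : N × Option ι → Ins N ι := fun p =>
    match p.2 with
    | Option.none => ⟨Option.some p.1, (ad Option.none : ℕ), Prim.mu p.1, fun _ => 1,
        fun _ => (ad Option.none : ℕ)⟩
    | Option.some ν => ⟨Option.some p.1, (ad (Option.some ν) : ℕ), Prim.proj, fun _ => 1,
        fun _ => out p.1 ν⟩
  have oi_trk : ∀ p, (oi p).trk = Option.some p.1 := by
    rintro ⟨s, _ | ν⟩ <;> rfl
  have oi_dst : ∀ p, (oi p).dst = (ad p.2 : ℕ) := by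
    rintro ⟨s, _ | ν⟩ <;> rfl
  have main : ∀ l : List (N × Option ι), l.Nodup →
      ∃ L' : List (Ins N ι), Good M ad L' ∧
        (∀ (S : Sem N ι M) v j, run ad S L' Option.none v j = run ad S L Option.none v j) ∧
        (∀ (S : Sem N ι M) s q j, run ad S L' (Option.some s) (ad q) j
          = if (s, q) ∈ l then outVal code S s j q else Option.none) := by
    intro l
    induction l with
    | nil =>
      intro _
      refine ⟨L, hL.good, fun _ _ _ => rfl, ?_⟩
      intro S s q j
      rw [hL.side]
      simp
    | cons p l ih =>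
      intro hnd
      rw [List.nodup_cons] at hnd
      obtain ⟨L', hG, hM, hO⟩ := ih hnd.2
      refine ⟨L' ++ [oi p], ?_, ?_, ?_⟩
      · apply good_snoc _ _ _ hG
        refine ⟨fun h => by rw [oi_trk] at h; exact absurd h (by simp), ?_⟩
        intro S j
        rw [oi_trk, oi_dst, hO S p.1 p.2 j, if_neg hnd.1]
      · intro S v j
        rw [run_snoc]
        unfold step
        rw [oi_trk]
        simp only [reduceCtorEq, false_and, if_false]
        exact hM S v j
      · intro S s q j
        rw [run_snoc]
        unfold step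
        rw [oi_trk, oi_dst]
        by_cases hsq : (s, q) = p
        · subst hsq
          rw [if_pos ⟨rfl, rfl⟩, if_pos (by simp)]
          rcases q with _ | ν
          · simp only [oi, outVal, off_one, add_zero]
            have : run ad S L' Option.none (ad Option.none : ℕ) j = some (Sum.inl (S.ctl j)) := by
              rw [hM, hL.inputs S Option.none]
              rfl
            simp [ev, this]
          · simp only [oi, outVal, off_one, add_zero, ev]
            rw [hM, hout2]
        · have : ¬ ((Option.some s : Option N) = Option.some p.1 ∧ (ad q : ℕ) = (ad p.2 : ℕ)) := by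
            rintro ⟨h1, h2⟩
            apply hsq
            have h3 : s = p.1 := by simpa using h1
            have h4 : q = p.2 := ad.injective (Fin.ext h2)
            rw [h3, h4]
          rw [if_neg this, hO]
          have h5 : (s, q) ∈ p :: l ↔ (s, q) ∈ l := by
            simp [List.mem_cons, hsq]
          simp only [h5]
  obtain ⟨L', hG, hM, hO⟩ := main (Finset.univ : Finset (N × Option ι)).toList
    (Finset.nodup_toList _)
  refine ⟨L', hG, ?_, ?_⟩
  · intro S q j
    rw [hM, hL.inputs]
  · intro S s q j
    rw [hO]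
    simp

end

end Pool.Agent.Lib_helper17.HeisShift
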