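import Pool.Agent.Lib_helper17.HeisStage

set_option autoImplicit false

/-!
The slow-down operator on space-time diagrams: a valid space-time diagram is simulated by a
valid space-time diagram of the same rule.
-/

namespace Pool.Agent.Lib_helper17.HeisShift

/-- Group theoretic data: a dilation `δ`, two finite quotients, and a stage function. -/
structure TimeData (H N F Λ : Type) [Group H] [Group F] [Group Λ] (T : ℕ) where
  gen : N → H
  δ : H →* H
  κ : H →* F
  lam : H →* Λ
  tau : H → ℕ
  tau_le : ∀ u, tau u ≤ T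
  tau_lip : ∀ s u, tau (gen s * u) ≤ tau u + 1 ∧ tau u ≤ tau (gen s * u) + 1
  tau_one : tau 1 = T
  ker : ∀ g, κ g = 1 → ∃ γ, δ γ = g ∧ lam γ = 1
  sep : ∀ (s : N) (h g₁ g₂ : H), lam g₁ = lam g₂ →
    (0 < tau (h * (δ g₁)⁻¹) ∨ 0 < tau (gen s * (h * (δ g₁)⁻¹))) →
    (0 < tau (h * (δ g₂)⁻¹) ∨ 0 < tau (gen s * (h * (δ g₂)⁻¹))) → g₁ = g₂
  cov : ∀ (s : N) (u : H), tau u = 0 → 0 < tau (gen s * u) →
    ∃ s' : N, tau (u * δ (gen s')) = T

section

variable {H N F Λ : Type} [Group H] [Group F] [Group Λ] {T : ℕ}

/-- `u` is the relative position of the process of colour `l` at clock `f`, as seen by the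
generator `s` -/
def TimeData.near (D : TimeData H N F Λ T) (s : N) (f : F) (l : Λ) (u : H) : Prop :=
  ∃ h g : H, D.κ h = f ∧ D.lam g = l ∧ u = h * (D.δ g)⁻¹ ∧
    (0 < D.tau u ∨ 0 < D.tau (D.gen s * u))

theorem TimeData.near_unique (D : TimeData H N F Λ T) (s : N) (f : F) (l : Λ) (u u' : H)
    (h1 : D.near s f l u) (h2 : D.near s f l u') : u = u' := by
  obtain ⟨h, g, hh, hg, rfl, ha⟩ := h1
  obtain ⟨h', g', hh', hg', rfl, ha'⟩ := h2
  have hk : D.κ (h⁻¹ * h') = 1 := by
    rw [map_mul, map_inv, hh, hh', inv_mul_cancel]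
  obtain ⟨γ, hγ, hl⟩ := D.ker _ hk
  have e1 : h' = h * D.δ γ := by rw [hγ]; group
  have e2 : h' * (D.δ g')⁻¹ = h * (D.δ (g' * γ⁻¹))⁻¹ := by
    rw [e1, map_mul, map_inv]; group
  rw [e2] at ha' ⊢
  have e3 : g = g' * γ⁻¹ := by
    apply D.sep s h g (g' * γ⁻¹) _ ha ha'
    rw [map_mul, map_inv, hl, hg, hg']; simp
  rw [← e3]

variable {M c k : ℕ}

abbrev Ctl (k : ℕ) (F : Type) : Type := Fin k × F

/-- slots -/
abbrev Slot (N Λ : Type) : Type := Λ × Sub N

/-- lift of an operation inside a process -/
def lift (l : Λ) (o : LOp N (Slot N Λ)) : Op N (Slot N Λ) :=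
  (o.1, fun i => ((o.2 i).1, (l, (o.2 i).2)))

open Classical in
/-- the forward operation of a process at stage `τ` -/
noncomputable def fwdOp (M k : ℕ) (ad : Option (Slot N Λ) ≃ Fin c)
    (L : List (Ins N (Slot N Λ))) (τ p : ℕ) (sub : Sub N) : LOp N (Slot N Λ) :=
  if h : Trans M k p sub (fun S => St k ad L S τ) (fun S => St k ad L S (τ + 1)) then h.choose
  else blankOp

open Classical in
/-- the backward operation of a process at stage `τ + 1` -/
noncomputable def bwdOp (M k : ℕ) (ad : Option (Slot N Λ) ≃ Fin c)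
    (L : List (Ins N (Slot N Λ))) (τ p : ℕ) (sub : Sub N) : LOp N (Slot N Λ) :=
  if h : Trans M k p sub (fun S => St k ad L S (τ + 1)) (fun S => St k ad L S τ) then h.choose
  else blankOp

open Classical in
/-- loading operation -/
noncomputable def loadOp (D : TimeData H N F Λ T) (c : ℕ) (l : Λ) (u : H) (p : ℕ) :
    Sub N → LOp N (Slot N Λ) × Λ
  | Sum.inl Option.none =>
      if h : p < c ∧ ∃ s' : N, D.tau (u * D.δ (D.gen s')) = T then
        (mvOp 1 (Sum.inl (Option.some h.2.choose)), (D.lam (D.gen h.2.choose))⁻¹ * l)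
      else (blankOp, l)
  | _ => (blankOp, l)

open Classical in
/-- the operation for a process at relative position `u` -/
noncomputable def opFor (D : TimeData H N F Λ T) (M k : ℕ) (ad : Option (Slot N Λ) ≃ Fin c)
    (L : List (Ins N (Slot N Λ))) (s : N) (l : Λ) (u : H) (p : ℕ) (sub : Sub N) :
    Op N (Slot N Λ) :=
  if D.tau (D.gen s * u) = D.tau u then lift l (mvOp 1 sub)
  else if D.tau (D.gen s * u) = D.tau u + 1 then
    if D.tau u = 0 then lift (loadOp D c l u p sub).2 (loadOp D c l u p sub).1
    else lift l (fwdOp M k ad L (D.tau u) p sub)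
  else
    if D.tau (D.gen s * u) = 0 then lift l blankOp
    else lift l (bwdOp M k ad L (D.tau (D.gen s * u)) p sub)

open Classical in
/-- the schedule -/
noncomputable def sched (D : TimeData H N F Λ T) (M k : ℕ) (ad : Option (Slot N Λ) ≃ Fin c)
    (L : List (Ins N (Slot N Λ))) (s : N) (ν : Slot N Λ) (x : Ctl k F) : Op N (Slot N Λ) :=
  if h : ∃ u, D.near s x.2 ν.1 u then opFor D M k ad L s ν.1 h.choose x.1 ν.2
  else lift ν.1 blankOp

/-- cell states -/
abbrev Cell (N F Λ : Type) (M k : ℕ) : Type :=
  Ctl k F × (Slot N Λ → Atom (Ctl k F) M)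

/-- interpretation of `gam` -/
noncomputable def gamC (D : TimeData H N F Λ T) (ad : Option (Slot N Λ) ≃ Fin c)
    (L : List (Ins N (Slot N Λ))) (code : Op N (Slot N Λ) ≃ ZMod M) :
    N → Slot N Λ → Ctl k F → ZMod M :=
  fun s ν x => code (sched D M k ad L s ν x)

/-- interpretation of `mu` -/
def muC (D : TimeData H N F Λ T) (k : ℕ) : N → Ctl k F → Ctl k F :=
  fun s x => (x.1, D.κ (D.gen s) * x.2)

/-- the semantics given by a row of a diagram -/
noncomputable def rowSem (D : TimeData H N F Λ T) (ad : Option (Slot N Λ) ≃ Fin c)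
    (L : List (Ins N (Slot N Λ))) (code : Op N (Slot N Λ) ≃ ZMod M)
    (y : ℤ → H → Cell N F Λ M k) (g : H) : Sem N (Slot N Λ) M where
  Ctrl := Ctl k F
  gam := gamC D ad L code
  mu := muC D k
  ctl := fun j => (y j g).1
  inp := fun j ν => (y j g).2 ν

/-- evaluation of an operation in a row -/
noncomputable def evC (D : TimeData H N F Λ T) (ad : Option (Slot N Λ) ≃ Fin c)
    (L : List (Ins N (Slot N Λ))) (code : Op N (Slot N Λ) ≃ ZMod M)
    (o : Op N (Slot N Λ)) (X : ℤ → Slot N Λ → Atom (Ctl k F) M) (t : ℤ) : Atom (Ctl k F) M :=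
  ev (gamC D ad L code) (muC D k) o.1 (fun i => X (t + off (o.2 i).1) (o.2 i).2)

/-- evaluation of an operation inside a process -/
noncomputable def evLC (D : TimeData H N F Λ T) (ad : Option (Slot N Λ) ≃ Fin c)
    (L : List (Ins N (Slot N Λ))) (code : Op N (Slot N Λ) ≃ ZMod M)
    (o : LOp N (Slot N Λ)) (X : ℤ → Sub N → Atom (Ctl k F) M) (t : ℤ) : Atom (Ctl k F) M :=
  ev (gamC D ad L code) (muC D k) o.1 (fun i => X (t + off (o.2 i).1) (o.2 i).2)

/-- valid space-time diagrams -/
def Valid (D : TimeData H N F Λ T) (ad : Option (Slot N Λ) ≃ Fin c)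
    (L : List (Ins N (Slot N Λ))) (code : Op N (Slot N Λ) ≃ ZMod M)
    (y : ℤ → H → Cell N F Λ M k) : Prop :=
  ∀ (s : N) (t : ℤ) (h : H),
    (y t (D.gen s * h)).1 = muC D k s (y t h).1 ∧
    ∀ ν, (y t (D.gen s * h)).2 ν
      = evC D ad L code (sched D M k ad L s ν (y t h).1) (fun j ν' => (y j h).2 ν') t

/-- address of a cell -/
def cell (k : ℕ) (hk : 0 < k) (t : ℤ) : Fin k :=
  ⟨(t % k).toNat, by
    have h1 := Int.emod_lt_of_pos t (show (0 : ℤ) < k by omega)
    have h2 := Int.emod_nonneg t (show (k : ℤ) ≠ 0 by omega)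
    omega⟩

/-- state of the process of source row `g` at stage `τ` -/
noncomputable def sval (D : TimeData H N F Λ T) (ad : Option (Slot N Λ) ≃ Fin c)
    (L : List (Ins N (Slot N Λ))) (code : Op N (Slot N Λ) ≃ ZMod M)
    (y : ℤ → H → Cell N F Λ M k) (g : H) (τ : ℕ) (t : ℤ) (sub : Sub N) : Atom (Ctl k F) M :=
  St k ad L (rowSem D ad L code y g) τ t sub

open Classical in
/-- the simulating diagram -/
noncomputable def slow (D : TimeData H N F Λ T) (hk : 0 < k) (ad : Option (Slot N Λ) ≃ Fin c)
    (L : List (Ins N (Slot N Λ))) (code : Op N (Slot N Λ) ≃ ZMod M)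
    (y : ℤ → H → Cell N F Λ M k) : ℤ → H → Cell N F Λ M k := fun t h =>
  ((cell k hk t, D.κ h), fun ν =>
    if hx : ∃ g, D.lam g = ν.1 ∧ 0 < D.tau (h * (D.δ g)⁻¹) then
      sval D ad L code y hx.choose (D.tau (h * (D.δ hx.choose)⁻¹)) t ν.2
    else Option.none)

variable (D : TimeData H N F Λ T) (hk : 0 < k) (ad : Option (Slot N Λ) ≃ Fin c)
    (L : List (Ins N (Slot N Λ))) (code : Op N (Slot N Λ) ≃ ZMod M)
    (y : ℤ → H → Cell N F Λ M k)

theorem sval_zero (g : H) (t : ℤ) (sub : Sub N) :
    sval D ad L code y g 0 t sub = Option.none := rfl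

theorem slow_slot (s : N) (t : ℤ) (h g : H) (sub : Sub N)
    (hg : 0 < D.tau (h * (D.δ g)⁻¹) ∨ 0 < D.tau (D.gen s * (h * (D.δ g)⁻¹))) :
    (slow D hk ad L code y t h).2 (D.lam g, sub)
      = sval D ad L code y g (D.tau (h * (D.δ g)⁻¹)) t sub := by
  unfold slow
  simp only []
  by_cases hx : ∃ g', D.lam g' = D.lam g ∧ 0 < D.tau (h * (D.δ g')⁻¹)
  · rw [dif_pos hx]
    have he : hx.choose = g :=
      D.sep s h hx.choose g hx.choose_spec.1 (Or.inl hx.choose_spec.2) hg
    rw [he]
  · rw [dif_neg hx]
    have h0 : D.tau (h * (D.δ g)⁻¹) = 0 := by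
      by_contra hne
      exact hx ⟨g, rfl, Nat.pos_of_ne_zero hne⟩
    rw [h0, sval_zero]

theorem slow_slot' (s : N) (t : ℤ) (h g : H) (sub : Sub N)
    (hg : 0 < D.tau (h * (D.δ g)⁻¹) ∨ 0 < D.tau (D.gen s * (h * (D.δ g)⁻¹))) :
    (slow D hk ad L code y t (D.gen s * h)).2 (D.lam g, sub)
      = sval D ad L code y g (D.tau (D.gen s * (h * (D.δ g)⁻¹))) t sub := by
  unfold slow
  simp only []
  by_cases hx : ∃ g', D.lam g' = D.lam g ∧ 0 < D.tau (D.gen s * h * (D.δ g')⁻¹)
  · rw [dif_pos hx]
    have he : hx.choose = g :=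
      D.sep s h hx.choose g hx.choose_spec.1
        (Or.inr (by rw [← mul_assoc]; exact hx.choose_spec.2)) hg
    rw [he, mul_assoc]
  · rw [dif_neg hx]
    have h0 : D.tau (D.gen s * (h * (D.δ g)⁻¹)) = 0 := by
      by_contra hne
      exact hx ⟨g, rfl, by rw [mul_assoc]; exact Nat.pos_of_ne_zero hne⟩
    rw [h0, sval_zero]

theorem slow_blank (s : N) (t : ℤ) (h : H) (ν : Slot N Λ)
    (hν : ¬ ∃ u, D.near s (D.κ h) ν.1 u) :
    (slow D hk ad L code y t (D.gen s * h)).2 ν = Option.none := by
  unfold slow
  simp only []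
  rw [dif_neg]
  rintro ⟨g, hg, hpos⟩
  exact hν ⟨h * (D.δ g)⁻¹, h, g, rfl, hg, rfl, Or.inr (by rw [← mul_assoc]; exact hpos)⟩

/-- evaluation of a lifted operation in a row of the simulating diagram -/
theorem evC_slow (s : N) (t : ℤ) (h g : H) (o : LOp N (Slot N Λ))
    (hg : 0 < D.tau (h * (D.δ g)⁻¹) ∨ 0 < D.tau (D.gen s * (h * (D.δ g)⁻¹))) :
    evC D ad L code (lift (D.lam g) o) (fun j ν' => (slow D hk ad L code y j h).2 ν') t
      = evLC D ad L code o (sval D ad L code y g (D.tau (h * (D.δ g)⁻¹))) t := by
  unfold evC evLC lift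
  simp only []
  congr 1
  funext i
  exact slow_slot D hk ad L code y s _ h g _ hg

theorem evC_blank (l : Λ) (X : ℤ → Slot N Λ → Atom (Ctl k F) M) (t : ℤ) :
    evC D ad L code (lift l blankOp) X t = Option.none := rfl

theorem evLC_keep (sub : Sub N) (X : ℤ → Sub N → Atom (Ctl k F) M) (t : ℤ) :
    evLC D ad L code (mvOp 1 sub) X t = X t sub := by
  show X (t + off 1) sub = _
  rw [off_one, add_zero]

/-- the main simulation theorem -/
theorem slow_valid (hG : Good M ad L) (hB : Bdd k L) (hT : T = 1 + L.length * E k)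
    (hout : ∀ (S : Sem N (Slot N Λ) M) s q j,
      run ad S L (Option.some s) (ad q) j = outVal code S s j q)
    (hy : Valid D ad L code y) : Valid D ad L code (slow D hk ad L code y) := by
  intro s t h
  constructor
  · simp [slow, muC]
  · rintro ⟨l, sub⟩
    have hc : (slow D hk ad L code y t h).1 = (cell k hk t, D.κ h) := rfl
    rw [hc]
    unfold sched
    by_cases hn : ∃ u, D.near s (D.κ h) l u
    · rw [dif_pos hn]
      obtain ⟨h', g', hh', hg', hu', hpos'⟩ := hn.choose_spec
      generalize hn.choose = u at hu' hpos' ⊢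
      -- find g for the time h
      have hk' : D.κ (h'⁻¹ * h) = 1 := by
        rw [map_mul, map_inv, hh', inv_mul_cancel]
      obtain ⟨γ, hγ, hlγ⟩ := D.ker _ hk'
      have eh : h = h' * D.δ γ := by rw [hγ]; group
      obtain ⟨g, hug, hlg⟩ : ∃ g, u = h * (D.δ g)⁻¹ ∧ D.lam g = l := by
        refine ⟨g' * γ, ?_, ?_⟩
        · rw [hu', eh, map_mul]; group
        · rw [map_mul, hlγ, hg', mul_one]
      have hpos : 0 < D.tau (h * (D.δ g)⁻¹) ∨ 0 < D.tau (D.gen s * (h * (D.δ g)⁻¹)) := by
        rw [← hug]; exact hpos'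
      subst hlg
      subst hug
      rw [slow_slot' D hk ad L code y s t h g sub hpos]
      have hlip := D.tau_lip s (h * (D.δ g)⁻¹)
      have hle := D.tau_le (h * (D.δ g)⁻¹)
      have hle' := D.tau_le (D.gen s * (h * (D.δ g)⁻¹))
      unfold opFor
      by_cases c1 : D.tau (D.gen s * (h * (D.δ g)⁻¹)) = D.tau (h * (D.δ g)⁻¹)
      · rw [if_pos c1, evC_slow D hk ad L code y s t h g _ hpos, evLC_keep, c1]
      · rw [if_neg c1]
        by_cases c2 : D.tau (D.gen s * (h * (D.δ g)⁻¹)) = D.tau (h * (D.δ g)⁻¹) + 1
        · rw [if_pos c2]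
          by_cases c3 : D.tau (h * (D.δ g)⁻¹) = 0
          · rw [if_pos c3, c2, c3, zero_add]
            -- loading
            rcases sub with b | i
            · rcases b with _ | s₁
              · have hL1 : sval D ad L code y g 1 t (Sum.inl Option.none)
                    = init ad (rowSem D ad L code y g) Option.none (t % k).toNat (t / k) :=
                  St_one_inl k ad L _ t _
                rw [hL1]
                by_cases hp : (t % k).toNat < c
                · have hex : ((cell k hk t : Fin k) : ℕ) < c ∧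
                      ∃ s' : N, D.tau (h * (D.δ g)⁻¹ * D.δ (D.gen s')) = T :=
                    ⟨hp, D.cov s _ c3 (by omega)⟩
                  have hload : loadOp D c (D.lam g) (h * (D.δ g)⁻¹) ((cell k hk t : Fin k) : ℕ)
                      (Sum.inl Option.none)
                      = ((mvOp 1 (Sum.inl (Option.some hex.2.choose)),
                          (D.lam (D.gen hex.2.choose))⁻¹ * D.lam g) :
                          LOp N (Slot N Λ) × Λ) := by
                    unfold loadOp
                    simp only []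
                    rw [dif_pos hex]
                  rw [hload]
                  have hs'T := hex.2.choose_spec
                  generalize hex.2.choose = s' at hs'T ⊢
                  obtain ⟨g₁, hg₁⟩ : ∃ g₁, g₁ = (D.gen s')⁻¹ * g := ⟨_, rfl⟩
                  have e1 : h * (D.δ g)⁻¹ * D.δ (D.gen s') = h * (D.δ g₁)⁻¹ := by
                    rw [hg₁, map_mul, map_inv]; group
                  rw [e1] at hs'T
                  have e2 : (D.lam (D.gen s'))⁻¹ * D.lam g = D.lam g₁ := by
                    rw [hg₁, map_mul, map_inv]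
                  simp only [e2]
                  have hTpos : 0 < T := by rw [hT]; omega
                  rw [evC_slow D hk ad L code y s t h g₁ _ (Or.inl (by rw [hs'T]; exact hTpos)),
                    evLC_keep, hs'T.trans hT]
                  have hlast : sval D ad L code y g₁ (1 + L.length * E k) t
                      (Sum.inl (Option.some s'))
                      = run ad (rowSem D ad L code y g₁) L (Option.some s')
                        (ad (ad.symm ⟨(t % k).toNat, hp⟩) : ℕ) (t / k) := by
                    rw [Equiv.apply_symm_apply]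
                    exact St_last k ad L _ t _
                  rw [hlast]
                  have hinit : init ad (rowSem D ad L code y g) Option.none (t % k).toNat (t / k)
                      = Sem.input (rowSem D ad L code y g) (t / k)
                        (ad.symm ⟨(t % k).toNat, hp⟩) := by
                    unfold init
                    simp only []
                    rw [dif_pos hp]
                  rw [hinit]
                  generalize ad.symm ⟨(t % k).toNat, hp⟩ = q
                  refine Eq.trans ?_ (hout (rowSem D ad L code y g₁) s' q (t / k)).symm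
                  have hgg : D.gen s' * g₁ = g := by rw [hg₁]; group
                  have hyy := hy s' (t / k) g₁
                  rw [hgg] at hyy
                  rcases q with _ | ν
                  · show some (Sum.inl (y (t / k) g).1) = some (Sum.inl (muC D k s' (y (t / k) g₁).1))
                    rw [hyy.1]
                  · show (y (t / k) g).2 ν = evC D ad L code
                      (code.symm (code (sched D M k ad L s' ν (y (t / k) g₁).1)))
                      (fun j ν' => (y j g₁).2 ν') (t / k)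
                    rw [Equiv.symm_apply_apply]
                    exact hyy.2 ν
                · have hload : loadOp D c (D.lam g) (h * (D.δ g)⁻¹) ((cell k hk t : Fin k) : ℕ)
                      (Sum.inl Option.none) = ((blankOp, D.lam g) : LOp N (Slot N Λ) × Λ) := by
                    unfold loadOp
                    simp only []
                    rw [dif_neg (fun hh => hp hh.1)]
                  rw [hload, evC_blank]
                  unfold init
                  simp only []
                  rw [dif_neg hp]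
                  rfl
              · exact St_one_inl k ad L _ t _
            · exact St_one_inr k ad L _ t _
          · rw [if_neg c3, evC_slow D hk ad L code y s t h g _ hpos, c2]
            have htr := (trans_stage (M := M) k ad L hG hB (D.tau (h * (D.δ g)⁻¹)) (by omega)
              (by rw [← hT]; omega) (t % k).toNat sub).1
            have hf : fwdOp M k ad L (D.tau (h * (D.δ g)⁻¹)) ((cell k hk t : Fin k) : ℕ) sub
                = htr.choose := by
              unfold fwdOp
              exact dif_pos htr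
            rw [hf]
            exact htr.choose_spec _ t rfl
        · rw [if_neg c2]
          have c4 : D.tau (h * (D.δ g)⁻¹) = D.tau (D.gen s * (h * (D.δ g)⁻¹)) + 1 := by omega
          by_cases c3 : D.tau (D.gen s * (h * (D.δ g)⁻¹)) = 0
          · rw [if_pos c3, c3, sval_zero, evC_blank]
          · rw [if_neg c3, evC_slow D hk ad L code y s t h g _ hpos, c4]
            have htr := (trans_stage (M := M) k ad L hG hB (D.tau (D.gen s * (h * (D.δ g)⁻¹)))
              (by omega) (by rw [← hT]; omega) (t % k).toNat sub).2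
            have hf : bwdOp M k ad L (D.tau (D.gen s * (h * (D.δ g)⁻¹)))
                ((cell k hk t : Fin k) : ℕ) sub = htr.choose := by
              unfold bwdOp
              exact dif_pos htr
            rw [hf]
            exact htr.choose_spec _ t rfl
    · rw [dif_neg hn, evC_blank]
      exact slow_blank D hk ad L code y s t h (l, sub) hn

end

end Pool.Agent.Lib_helper17.HeisShift
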