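import Pool.Agent.Lib_helper17.HeisProg

set_option autoImplicit false

/-!
Slow execution of a straight line program by local moves: the stages of a process.
-/

namespace Pool.Agent.Lib_helper17.HeisShift

section

variable {N ι : Type} {M c : ℕ}

/-- sub-slots of a process: tracks of the memory, and three carriers -/
abbrev Sub (N : Type) : Type := Option N ⊕ Fin 3

def dummy : Ins N ι := ⟨Option.none, 0, Prim.none, fun _ => 1, fun _ => 0⟩

/-- the instruction number `n` -/
def insAt (L : List (Ins N ι)) (n : ℕ) : Ins N ι := L.getD n dummy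

theorem insAt_eq (L : List (Ins N ι)) (n : ℕ) (h : n < L.length) : insAt L n = L[n] := by
  simp [insAt, List.getD_eq_getElem?_getD, h]

/-- memory after `n` instructions -/
noncomputable def stt (ad : Option ι ≃ Fin c) (L : List (Ins N ι)) (S : Sem N ι M) (n : ℕ) :
    Mem S := run ad S (L.take n)

theorem stt_succ (ad : Option ι ≃ Fin c) (L : List (Ins N ι)) (S : Sem N ι M) (n : ℕ)
    (h : n < L.length) :
    stt ad L S (n + 1) = step S (insAt L n) (stt ad L S n) := by
  unfold stt
  rw [List.take_succ_eq_append_getElem h, run_snoc, insAt_eq L n h]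

/-- displacement of carrier `i` after `x` moves -/
def disp (k : ℕ) (I : Ins N ι) (i : Fin 3) (x : ℕ) : ℤ :=
  max (-(x : ℤ)) (min (x : ℤ) ((I.dst : ℤ) - I.a i - k * off (I.e i)))

theorem disp_zero (k : ℕ) (I : Ins N ι) (i : Fin 3) : disp k I i 0 = 0 := by
  unfold disp
  simp only [Nat.cast_zero, neg_zero]
  omega

theorem disp_step (k : ℕ) (I : Ins N ι) (i : Fin 3) (x : ℕ) :
    -1 ≤ disp k I i (x + 1) - disp k I i x ∧ disp k I i (x + 1) - disp k I i x ≤ 1 := by
  unfold disp
  push_cast
  generalize (I.dst : ℤ) - I.a i - k * off (I.e i) = y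
  omega

theorem off_abs (e : Fin 3) : -1 ≤ off e ∧ off e ≤ 1 := by
  fin_cases e <;> simp [off]

theorem disp_full (k : ℕ) (I : Ins N ι) (i : Fin 3) (h1 : I.dst < k) (h2 : I.a i < k) :
    disp k I i (2 * k) = (I.dst : ℤ) - I.a i - k * off (I.e i) := by
  unfold disp
  have hk : -(k : ℤ) ≤ k * off (I.e i) ∧ (k : ℤ) * off (I.e i) ≤ k := by
    have := off_abs (I.e i)
    constructor <;> nlinarith
  push_cast
  generalize (k : ℤ) * off (I.e i) = y at hk ⊢
  omega

/-- content of the carriers in terms of the original position -/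
noncomputable def carF (k : ℕ) (ad : Option ι ≃ Fin c) (L : List (Ins N ι)) (S : Sem N ι M)
    (n : ℕ) (i : Fin 3) (s : ℤ) : Atom S.Ctrl M :=
  if (s % k).toNat = (insAt L n).a i then stt ad L S n Option.none (s % k).toNat (s / k)
  else Option.none

/-- number of moves made by the carriers -/
def xOf (k d : ℕ) : ℕ := if d ≤ 2 * k + 1 then d - 1 else 2 * (2 * k) + 2 - d

/-- state in the middle of instruction `n`, substep `d` -/
noncomputable def StA (k : ℕ) (ad : Option ι ≃ Fin c) (L : List (Ins N ι)) (S : Sem N ι M)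
    (n d : ℕ) (t : ℤ) : Sub N → Atom S.Ctrl M
  | Sum.inl b => stt ad L S (if d ≤ 2 * k + 1 then n else n + 1) b (t % k).toNat (t / k)
  | Sum.inr i => if d = 0 then Option.none else
      carF k ad L S n i (t - disp k (insAt L n) i (xOf k d))

/-- number of substeps of an instruction -/
def E (k : ℕ) : ℕ := 2 * (2 * k) + 3

/-- the state at stage `τ` -/
noncomputable def St (k : ℕ) (ad : Option ι ≃ Fin c) (L : List (Ins N ι)) (S : Sem N ι M) :
    ℕ → ℤ → Sub N → Atom S.Ctrl M
  | 0 => fun _ _ => Option.none
  | τ + 1 => StA k ad L S (τ / E k) (τ % E k)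

/-- local operations inside a process -/
abbrev LOp (N ι : Type) : Type := Prim N ι × (Fin 3 → Fin 3 × Sub N)

noncomputable def evL (S : Sem N ι M) (o : LOp N ι) (X : ℤ → Sub N → Atom S.Ctrl M) (t : ℤ) :
    Atom S.Ctrl M :=
  ev S.gam S.mu o.1 (fun i => X (t + off (o.2 i).1) (o.2 i).2)

def mvOp (e : Fin 3) (sub : Sub N) : LOp N ι := (Prim.proj, fun _ => (e, sub))

def blankOp : LOp N ι := (Prim.none, fun _ => (1, Sum.inl Option.none))

theorem evL_mv (S : Sem N ι M) (e : Fin 3) (sub : Sub N) (X : ℤ → Sub N → Atom S.Ctrl M)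
    (t : ℤ) : evL S (mvOp e sub) X t = X (t + off e) sub := rfl

theorem evL_keep (S : Sem N ι M) (sub : Sub N) (X : ℤ → Sub N → Atom S.Ctrl M)
    (t : ℤ) : evL S (mvOp 1 sub) X t = X t sub := by
  rw [evL_mv, off_one, add_zero]

theorem evL_blank (S : Sem N ι M) (X : ℤ → Sub N → Atom S.Ctrl M)
    (t : ℤ) : evL S blankOp X t = Option.none := rfl

theorem exists_off (σ : ℤ) (h : -1 ≤ σ ∧ σ ≤ 1) : ∃ e : Fin 3, off e = σ := by
  have : σ = -1 ∨ σ = 0 ∨ σ = 1 := by omega
  rcases this with rfl | rfl | rfl
  · exact ⟨0, by simp [off]⟩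
  · exact ⟨1, by simp [off]⟩
  · exact ⟨2, by simp [off]⟩

/-- two-sided local transition between two states at cells of address `p` -/
def Trans (M k : ℕ) (p : ℕ) (sub : Sub N)
    (X Y : (S : Sem N ι M) → ℤ → Sub N → Atom S.Ctrl M) : Prop :=
  ∃ o : LOp N ι, ∀ (S : Sem N ι M) (t : ℤ), (t % k).toNat = p → Y S t sub = evL S o (X S) t

theorem trans_keep (k p : ℕ) (sub : Sub N)
    (X Y : (S : Sem N ι M) → ℤ → Sub N → Atom S.Ctrl M)
    (h : ∀ (S : Sem N ι M) (t : ℤ), (t % k).toNat = p → Y S t sub = X S t sub) :
    Trans M k p sub X Y :=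
  ⟨mvOp 1 sub, fun S t ht => by rw [evL_keep, h S t ht]⟩

theorem trans_blank (k p : ℕ) (sub : Sub N)
    (X Y : (S : Sem N ι M) → ℤ → Sub N → Atom S.Ctrl M)
    (h : ∀ (S : Sem N ι M) (t : ℤ), (t % k).toNat = p → Y S t sub = Option.none) :
    Trans M k p sub X Y :=
  ⟨blankOp, fun S t ht => by rw [evL_blank, h S t ht]⟩

theorem trans_mv (k p : ℕ) (sub sub' : Sub N) (σ : ℤ) (hσ : -1 ≤ σ ∧ σ ≤ 1)
    (X Y : (S : Sem N ι M) → ℤ → Sub N → Atom S.Ctrl M)
    (h : ∀ (S : Sem N ι M) (t : ℤ), (t % k).toNat = p → Y S t sub = X S (t + σ) sub') :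
    Trans M k p sub X Y := by
  obtain ⟨e, he⟩ := exists_off σ hσ
  exact ⟨mvOp e sub', fun S t ht => by rw [evL_mv, h S t ht, he]⟩

theorem StA_inl (k : ℕ) (ad : Option ι ≃ Fin c) (L : List (Ins N ι)) (S : Sem N ι M)
    (n d : ℕ) (t : ℤ) (b : Option N) : StA k ad L S n d t (Sum.inl b)
      = stt ad L S (if d ≤ 2 * k + 1 then n else n + 1) b (t % k).toNat (t / k) := rfl

theorem StA_inr0 (k : ℕ) (ad : Option ι ≃ Fin c) (L : List (Ins N ι)) (S : Sem N ι M)
    (n : ℕ) (t : ℤ) (i : Fin 3) : StA k ad L S n 0 t (Sum.inr i) = Option.none := rfl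

theorem StA_inr (k : ℕ) (ad : Option ι ≃ Fin c) (L : List (Ins N ι)) (S : Sem N ι M)
    (n d : ℕ) (t : ℤ) (i : Fin 3) (x : ℕ) (hd : d ≠ 0) (hx : xOf k d = x) :
    StA k ad L S n d t (Sum.inr i)
      = carF k ad L S n i (t - disp k (insAt L n) i x) := by
  subst hx
  simp [StA, hd]

theorem xOf_le (k d : ℕ) (h : d ≤ 2 * k + 1) : xOf k d = d - 1 := by
  unfold xOf; rw [if_pos h]

theorem xOf_gt (k d : ℕ) (h : ¬ d ≤ 2 * k + 1) : xOf k d = 2 * (2 * k) + 2 - d := by
  unfold xOf; rw [if_neg h]

/-- what the carriers bring -/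
theorem carF_full (k : ℕ) (ad : Option ι ≃ Fin c) (L : List (Ins N ι)) (S : Sem N ι M)
    (n : ℕ) (i : Fin 3) (t : ℤ) (h1 : (insAt L n).dst < k) (h2 : (insAt L n).a i < k)
    (ht : (t % k).toNat = (insAt L n).dst) :
    carF k ad L S n i (t - disp k (insAt L n) i (2 * k))
      = stt ad L S n Option.none ((insAt L n).a i) (t / k + off ((insAt L n).e i)) := by
  rw [disp_full k _ i h1 h2]
  have hk : (0 : ℤ) < k := by have := h1; omega
  have hmod : t % k = (insAt L n).dst := by
    have := Int.emod_nonneg t hk.ne'
    omega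
  have hdiv : t = k * (t / k) + (insAt L n).dst := by
    have := Int.mul_ediv_add_emod t k
    rw [hmod] at this
    omega
  have e1 : t - (((insAt L n).dst : ℤ) - (insAt L n).a i - k * off ((insAt L n).e i))
      = ((insAt L n).a i : ℤ) + k * (t / k + off ((insAt L n).e i)) := by
    rw [mul_add]
    linarith
  rw [e1]
  have e2 : (((insAt L n).a i : ℤ) + k * (t / k + off ((insAt L n).e i))) % k
      = (insAt L n).a i := by
    rw [Int.add_mul_emod_self_left]
    exact Int.emod_eq_of_lt (by omega) (by omega)
  have e3 : (((insAt L n).a i : ℤ) + k * (t / k + off ((insAt L n).e i))) / k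
      = t / k + off ((insAt L n).e i) := by
    rw [Int.add_mul_ediv_left _ _ hk.ne']
    rw [Int.ediv_eq_zero_of_lt (by omega) (by omega)]
    ring
  unfold carF
  rw [e2, e3]
  simp

/-- hypothesis on addresses -/
def Bdd (k : ℕ) (L : List (Ins N ι)) : Prop := ∀ I ∈ L, I.dst < k ∧ ∀ i, I.a i < k

theorem insAt_bdd (k : ℕ) (L : List (Ins N ι)) (hB : Bdd k L) (n : ℕ) (hn : n < L.length) :
    (insAt L n).dst < k ∧ ∀ i, (insAt L n).a i < k := by
  rw [insAt_eq L n hn]
  exact hB _ (List.getElem_mem hn)

theorem insAt_cond (ad : Option ι ≃ Fin c) (L : List (Ins N ι)) (hG : Good M ad L) (n : ℕ)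
    (hn : n < L.length) : Cond M ad (L.take n) (insAt L n) := by
  rw [insAt_eq L n hn]
  exact hG n hn

/-- transitions inside an instruction -/
theorem trans_inside (k : ℕ) (ad : Option ι ≃ Fin c) (L : List (Ins N ι)) (hG : Good M ad L)
    (hB : Bdd k L) (n : ℕ) (hn : n < L.length) (d : ℕ) (hd : d + 1 < E k) (p : ℕ)
    (sub : Sub N) :
    Trans M k p sub (fun S => StA k ad L S n d) (fun S => StA k ad L S n (d + 1)) ∧
    Trans M k p sub (fun S => StA k ad L S n (d + 1)) (fun S => StA k ad L S n d) := by
  have hb := insAt_bdd k L hB n hn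
  have hc := insAt_cond ad L hG n hn
  unfold E at hd
  rcases sub with b | i
  · -- memory tracks
    by_cases hdk : d = 2 * k + 1
    · -- compute
      by_cases hbp : b = (insAt L n).trk ∧ p = (insAt L n).dst
      · constructor
        · refine ⟨((insAt L n).φ, fun i => (1, Sum.inr i)), fun S t ht => ?_⟩
          simp only []
          rw [StA_inl, if_neg (by omega), stt_succ ad L S n hn]
          unfold step evL
          rw [if_pos (by rw [ht]; exact hbp)]
          congr 1
          funext i
          simp only [off_one, add_zero]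
          rw [StA_inr k ad L S n d t i (2 * k) (by omega) (by rw [xOf_le _ _ (by omega)]; omega),
            carF_full k ad L S n i t hb.1 (hb.2 i) (by rw [ht]; exact hbp.2)]
        · apply trans_blank
          intro S t ht
          rw [StA_inl, if_pos (by omega)]
          rw [ht, hbp.1, hbp.2]
          exact hc.2 S _
      · have key : ∀ (S : Sem N ι M) (t : ℤ), (t % k).toNat = p →
            stt ad L S (n + 1) b (t % k).toNat (t / k) = stt ad L S n b (t % k).toNat (t / k) := by
          intro S t ht
          rw [stt_succ ad L S n hn]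
          unfold step
          rw [if_neg (by rw [ht]; exact hbp)]
        constructor
        · apply trans_keep
          intro S t ht
          rw [StA_inl, StA_inl, if_neg (by omega), if_pos (by omega)]
          exact key S t ht
        · apply trans_keep
          intro S t ht
          rw [StA_inl, StA_inl, if_pos (by omega), if_neg (by omega)]
          exact (key S t ht).symm
    · have hidx : (if d + 1 ≤ 2 * k + 1 then n else n + 1)
          = (if d ≤ 2 * k + 1 then n else n + 1) := by
        split_ifs <;> omega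
      constructor
      · apply trans_keep
        intro S t _
        rw [StA_inl, StA_inl, hidx]
      · apply trans_keep
        intro S t _
        rw [StA_inl, StA_inl, hidx]
  · -- carriers
    by_cases hd0 : d = 0
    · subst hd0
      have hx : xOf k (0 + 1) = 0 := by rw [xOf_le _ _ (by omega)]
      constructor
      · by_cases hp : p = (insAt L n).a i
        · apply trans_mv k p (Sum.inr i) (Sum.inl Option.none) 0 (by omega)
          intro S t ht
          rw [StA_inr k ad L S n _ t i 0 (by omega) hx, StA_inl, if_pos (by omega)]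
          simp only [disp_zero, sub_zero, add_zero]
          unfold carF
          rw [if_pos (by rw [ht, hp])]
        · apply trans_blank
          intro S t ht
          rw [StA_inr k ad L S n _ t i 0 (by omega) hx]
          simp only [disp_zero, sub_zero]
          unfold carF
          rw [if_neg (by rw [ht]; exact hp)]
      · apply trans_blank
        intro S t _
        rw [StA_inr0]
    · by_cases hd1 : d ≤ 2 * k
      · obtain ⟨x, rfl⟩ : ∃ x, d = x + 1 := ⟨d - 1, by omega⟩
        have hs := disp_step k (insAt L n) i x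
        have hx : xOf k (x + 1) = x := by rw [xOf_le _ _ (by omega)]; omega
        have hx' : xOf k (x + 1 + 1) = x + 1 := by rw [xOf_le _ _ (by omega)]; omega
        constructor
        · apply trans_mv k p (Sum.inr i) (Sum.inr i)
            (-(disp k (insAt L n) i (x + 1) - disp k (insAt L n) i x)) (by omega)
          intro S t _
          rw [StA_inr k ad L S n _ _ i _ (by omega) hx, StA_inr k ad L S n _ _ i _ (by omega) hx']
          congr 1
          ring
        · apply trans_mv k p (Sum.inr i) (Sum.inr i)
            (disp k (insAt L n) i (x + 1) - disp k (insAt L n) i x) (by omega)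
          intro S t _
          rw [StA_inr k ad L S n _ _ i _ (by omega) hx, StA_inr k ad L S n _ _ i _ (by omega) hx']
          congr 1
          ring
      · by_cases hd2 : d = 2 * k + 1
        · have hx : xOf k d = 2 * k := by rw [xOf_le _ _ (by omega)]; omega
          have hx' : xOf k (d + 1) = 2 * k := by rw [xOf_gt _ _ (by omega)]; omega
          constructor
          · apply trans_keep
            intro S t _
            rw [StA_inr k ad L S n _ _ i _ (by omega) hx,
              StA_inr k ad L S n _ _ i _ (by omega) hx']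
          · apply trans_keep
            intro S t _
            rw [StA_inr k ad L S n _ _ i _ (by omega) hx,
              StA_inr k ad L S n _ _ i _ (by omega) hx']
        · obtain ⟨x, hx⟩ : ∃ x, xOf k d = x + 1 :=
            ⟨2 * (2 * k) + 1 - d, by rw [xOf_gt _ _ (by omega)]; omega⟩
          have hx' : xOf k (d + 1) = x := by
            rw [xOf_gt _ _ (by omega)] at hx ⊢; omega
          have hs := disp_step k (insAt L n) i x
          constructor
          · apply trans_mv k p (Sum.inr i) (Sum.inr i)
              (disp k (insAt L n) i (x + 1) - disp k (insAt L n) i x) (by omega)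
            intro S t _
            rw [StA_inr k ad L S n _ _ i _ (by omega) hx,
              StA_inr k ad L S n _ _ i _ (by omega) hx']
            congr 1
            ring
          · apply trans_mv k p (Sum.inr i) (Sum.inr i)
              (-(disp k (insAt L n) i (x + 1) - disp k (insAt L n) i x)) (by omega)
            intro S t _
            rw [StA_inr k ad L S n _ _ i _ (by omega) hx,
              StA_inr k ad L S n _ _ i _ (by omega) hx']
            congr 1
            ring

/-- transition to the next instruction -/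
theorem trans_next (k : ℕ) (ad : Option ι ≃ Fin c) (L : List (Ins N ι)) (hG : Good M ad L)
    (n : ℕ) (hn : n < L.length) (d : ℕ) (hd : d + 1 = E k) (p : ℕ)
    (sub : Sub N) :
    Trans M k p sub (fun S => StA k ad L S n d) (fun S => StA k ad L S (n + 1) 0) ∧
    Trans M k p sub (fun S => StA k ad L S (n + 1) 0) (fun S => StA k ad L S n d) := by
  have hc := insAt_cond ad L hG n hn
  unfold E at hd
  rcases sub with b | i
  · constructor
    · apply trans_keep
      intro S t _
      rw [StA_inl, StA_inl, if_pos (by omega), if_neg (by omega)]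
    · apply trans_keep
      intro S t _
      rw [StA_inl, StA_inl, if_neg (by omega), if_pos (by omega)]
  · constructor
    · apply trans_blank
      intro S t _
      rw [StA_inr0]
    · have hx : xOf k d = 0 := by rw [xOf_gt _ _ (by omega)]; omega
      by_cases hp : p = (insAt L n).a i
      · apply trans_mv k p (Sum.inr i) (Sum.inl Option.none) 0 (by omega)
        intro S t ht
        rw [StA_inr k ad L S n _ _ i _ (by omega) hx, StA_inl, if_pos (by omega)]
        simp only [disp_zero, sub_zero, add_zero]
        unfold carF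
        rw [if_pos (by rw [ht, hp]), stt_succ ad L S n hn]
        unfold step
        rw [if_neg]
        rintro ⟨h1, h2⟩
        exact hc.1 h1.symm i (by rw [← hp, ← ht, h2])
      · apply trans_blank
        intro S t ht
        rw [StA_inr k ad L S n _ _ i _ (by omega) hx]
        simp only [disp_zero, sub_zero]
        unfold carF
        rw [if_neg (by rw [ht]; exact hp)]

/-- transitions between consecutive stages -/
theorem trans_stage (k : ℕ) (ad : Option ι ≃ Fin c) (L : List (Ins N ι)) (hG : Good M ad L)
    (hB : Bdd k L) (τ : ℕ) (h1 : 1 ≤ τ) (h2 : τ + 1 ≤ 1 + L.length * E k) (p : ℕ)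
    (sub : Sub N) :
    Trans M k p sub (fun S => St k ad L S τ) (fun S => St k ad L S (τ + 1)) ∧
    Trans M k p sub (fun S => St k ad L S (τ + 1)) (fun S => St k ad L S τ) := by
  obtain ⟨σ, rfl⟩ : ∃ σ, τ = σ + 1 := ⟨τ - 1, by omega⟩
  have hE : 0 < E k := by unfold E; omega
  have hn : σ / E k < L.length := by
    rw [Nat.div_lt_iff_lt_mul hE]; omega
  by_cases hd : σ % E k + 1 < E k
  · have e1 : (σ + 1) / E k = σ / E k := by
      rw [Nat.succ_div]
      have : ¬ E k ∣ σ + 1 := by
        intro hdvd
        have h := Nat.mod_eq_zero_of_dvd hdvd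
        rw [Nat.add_mod, Nat.mod_eq_of_lt (show 1 < E k by unfold E; omega),
          Nat.mod_eq_of_lt hd] at h
        omega
      simp [this]
    have e2 : (σ + 1) % E k = σ % E k + 1 := by
      rw [Nat.add_mod, Nat.mod_eq_of_lt (show 1 < E k by unfold E; omega), Nat.mod_eq_of_lt hd]
    have := trans_inside k ad L hG hB (σ / E k) hn (σ % E k) hd p sub
    simpa only [St, e1, e2] using this
  · have hd' : σ % E k + 1 = E k := by
      have := Nat.mod_lt σ hE; omega
    have hdvd : E k ∣ σ + 1 := by
      have := Nat.div_add_mod σ (E k)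
      exact ⟨σ / E k + 1, by rw [mul_add]; omega⟩
    have e1 : (σ + 1) / E k = σ / E k + 1 := by
      rw [Nat.succ_div]; simp [hdvd]
    have e2 : (σ + 1) % E k = 0 := Nat.mod_eq_zero_of_dvd hdvd
    have := trans_next k ad L hG (σ / E k) hn (σ % E k) hd' p sub
    simpa only [St, e1, e2] using this

theorem St_zero (k : ℕ) (ad : Option ι ≃ Fin c) (L : List (Ins N ι)) (S : Sem N ι M)
    (t : ℤ) (sub : Sub N) : St k ad L S 0 t sub = Option.none := rfl

theorem St_one_inl (k : ℕ) (ad : Option ι ≃ Fin c) (L : List (Ins N ι)) (S : Sem N ι M)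
    (t : ℤ) (b : Option N) :
    St k ad L S 1 t (Sum.inl b) = init ad S b (t % k).toNat (t / k) := by
  have : St k ad L S 1 t (Sum.inl b) = StA k ad L S (0 / E k) (0 % E k) t (Sum.inl b) := rfl
  rw [this, Nat.zero_div, Nat.zero_mod, StA_inl, if_pos (by omega)]
  rfl

theorem St_one_inr (k : ℕ) (ad : Option ι ≃ Fin c) (L : List (Ins N ι)) (S : Sem N ι M)
    (t : ℤ) (i : Fin 3) :
    St k ad L S 1 t (Sum.inr i) = Option.none := by
  have : St k ad L S 1 t (Sum.inr i) = StA k ad L S (0 / E k) (0 % E k) t (Sum.inr i) := rfl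
  rw [this, Nat.zero_div, Nat.zero_mod, StA_inr0]

theorem St_last (k : ℕ) (ad : Option ι ≃ Fin c) (L : List (Ins N ι)) (S : Sem N ι M)
    (t : ℤ) (b : Option N) :
    St k ad L S (1 + L.length * E k) t (Sum.inl b) = run ad S L b (t % k).toNat (t / k) := by
  have hE : 0 < E k := by unfold E; omega
  rw [add_comm]
  have : St k ad L S (L.length * E k + 1) t (Sum.inl b)
      = StA k ad L S (L.length * E k / E k) (L.length * E k % E k) t (Sum.inl b) := rfl
  rw [this, Nat.mul_div_cancel _ hE, Nat.mul_mod_left, StA_inl, if_pos (by omega)]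
  unfold stt
  rw [List.take_length]

end

end Pool.Agent.Lib_helper17.HeisShift
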