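import Pool.Agent.Lib_helper17.SepCore

set_option linter.unusedSectionVars false
set_option linter.unusedVariables false

namespace Pool.Agent.Lib_helper17.Sep
open Finset

variable {K L : Type} [AddCommGroup K] [AddCommGroup L] [Fintype K] [Fintype L]
  [DecidableEq K] [DecidableEq L]

/-- support of `er` -/
noncomputable def sup (S : Finset K) (j0 : L) (t : ℕ) : Finset K :=
  univ.filter (fun x => er S j0 t x ≠ 0)

lemma card_sup (S : Finset K) (j0 : L) (t : ℕ) : (sup S j0 t).card ≤ (1 + S.card) ^ t := by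
  induction t with
  | zero =>
    simp only [pow_zero]
    have : sup S j0 0 ⊆ {0} := by
      intro x hx
      rw [sup, Finset.mem_filter] at hx
      replace hx := hx.2
      simp only [er] at hx
      by_contra h
      simp only [Finset.mem_singleton] at h
      simp [h] at hx
    exact (Finset.card_le_card this).trans (by simp)
  | succ t ih =>
    have h1 : sup S j0 (t + 1) ⊆ sup S j0 t ∪ (S ×ˢ sup S j0 t).image (fun p => p.1 + p.2) := by
      intro x hx
      rw [sup, Finset.mem_filter] at hx
      replace hx := hx.2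
      simp only [er] at hx
      by_contra h
      simp only [Finset.mem_union, not_or, sup, Finset.mem_filter, Finset.mem_univ, true_and,
        Finset.mem_image, Finset.mem_product, not_exists, Prod.forall, not_not, and_imp,
        not_and] at h
      apply hx
      have h2 : ∀ s ∈ S, er S j0 t (x - s) = 0 := by
        intro s hs
        by_contra h3
        exact h.2 s (x - s) hs h3 (by abel)
      rw [h.1, Finset.sum_eq_zero h2]
      simp
    calc (sup S j0 (t + 1)).card ≤ _ := Finset.card_le_card h1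
      _ ≤ (sup S j0 t).card + ((S ×ˢ sup S j0 t).image (fun p => p.1 + p.2)).card :=
        Finset.card_union_le _ _
      _ ≤ (sup S j0 t).card + (S ×ˢ sup S j0 t).card := by
        gcongr
        exact Finset.card_image_le
      _ = (1 + S.card) * (sup S j0 t).card := by rw [Finset.card_product]; ring
      _ ≤ (1 + S.card) * (1 + S.card) ^ t := by gcongr
      _ = (1 + S.card) ^ (t + 1) := by ring

lemma aa_pow_le_one (S : Finset K) (j0 : L) (t : ℕ) : aa S j0 ^ t ≤ 1 :=
  pow_le_one₀ (aa_nonneg S j0) (aa_le_one S j0)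

lemma tv_ge (S : Finset K) (j0 : L) (t : ℕ) :
    aa S j0 ^ t - ((1 + S.card) ^ t : ℝ) / (Fintype.card K : ℝ) ≤ tv (conn S j0) t := by
  have hK := Kpos (K := K)
  have hL := Lpos (L := L)
  refine le_trans ?_ (tv_lower (conn S j0) (conn_nonempty S j0) t ((sup S j0 t) ×ˢ univ))
  have h1 : aa S j0 ^ t ≤ ∑ x ∈ (sup S j0 t) ×ˢ (univ : Finset L), mu (conn S j0) t x := by
    rw [Finset.sum_product]
    have h2 : ∀ x ∈ sup S j0 t, er S j0 t x ≤ ∑ y : L, mu (conn S j0) t (x, y) := by
      intro x _
      have := marg_eq S j0 t x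
      unfold marg at this
      rw [this]
      have h3 := aa_pow_le_one S j0 t
      have : 0 ≤ (1 - aa S j0 ^ t) / (Fintype.card K : ℝ) := by
        apply div_nonneg <;> linarith
      linarith
    refine le_trans ?_ (Finset.sum_le_sum h2)
    rw [← sum_er S j0 t]
    apply le_of_eq
    symm
    apply Finset.sum_subset (Finset.subset_univ _)
    intro x _ hx
    by_contra h
    exact hx (by simp [sup, h])
  have h2 : ((((sup S j0 t) ×ˢ (univ : Finset L)).card : ℝ)) / (Fintype.card (K × L) : ℝ) ≤
      ((1 + S.card) ^ t : ℝ) / (Fintype.card K : ℝ) := by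
    rw [Finset.card_product, Fintype.card_prod, Finset.card_univ]
    push_cast
    rw [mul_div_mul_right _ _ (by linarith)]
    gcongr
    exact_mod_cast card_sup S j0 t
  linarith

/-- there is a point whose probability is at most `(1 - a^t)/|V|` -/
lemma exists_low (S : Finset K) (j0 : L) (t : ℕ) (ht : (1 + S.card) ^ t < Fintype.card K) :
    ∃ p : K × L, (Fintype.card (K × L) : ℝ) * mu (conn S j0) t p ≤ 1 - aa S j0 ^ t := by
  have h1 : (sup S j0 t).card < Fintype.card K := lt_of_le_of_lt (card_sup S j0 t) ht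
  obtain ⟨x, hx⟩ : ∃ x, x ∉ sup S j0 t := by
    by_contra h
    push Not at h
    have : sup S j0 t = univ := Finset.eq_univ_iff_forall.mpr h
    rw [this, Finset.card_univ] at h1
    exact lt_irrefl _ h1
  have h2 : er S j0 t x = 0 := by
    by_contra h
    exact hx (by simp [sup, h])
  have h3 := marg_eq S j0 t x
  rw [h2, zero_add] at h3
  have hK := Kpos (K := K)
  have hL := Lpos (L := L)
  by_contra hcon
  push Not at hcon
  have h4 : ∀ j ∈ (univ : Finset L), (1 - aa S j0 ^ t) / (Fintype.card (K × L) : ℝ) <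
      mu (conn S j0) t (x, j) := by
    intro j _
    have := hcon (x, j)
    rw [div_lt_iff₀ (by rw [Fintype.card_prod]; push_cast; positivity)]
    linarith
  have h5 := Finset.sum_lt_sum_of_nonempty (Finset.univ_nonempty_iff.mpr ⟨j0⟩) h4
  unfold marg at h3
  rw [h3, Finset.sum_const, Finset.card_univ, nsmul_eq_mul, Fintype.card_prod] at h5
  push_cast at h5
  have h6 : (Fintype.card L : ℝ) * ((1 - aa S j0 ^ t) / ((Fintype.card K : ℝ) * (Fintype.card L : ℝ)))
    = (1 - aa S j0 ^ t) / (Fintype.card K : ℝ) := by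
    have : (Fintype.card L : ℝ) ≠ 0 := by linarith
    field_simp
  rw [h6] at h5
  exact lt_irrefl _ h5

lemma mu_succ_ge (S : Finset K) (j0 : L) (t : ℕ) (p : K × L) :
    1 / 2 * mu (conn S j0) t p +
      1 / (2 * Dt S j0) * ((S.card : ℝ) * ((1 - aa S j0 ^ t) / (Fintype.card K : ℝ))) ≤
      mu (conn S j0) (t + 1) p := by
  obtain ⟨x, j⟩ := p
  simp only [mu]
  have hD := Dt_pos S j0
  have hDd : Dt S j0 = ((conn S j0).card : ℝ) := rfl
  rw [← hDd]
  have key : (S.card : ℝ) * ((1 - aa S j0 ^ t) / (Fintype.card K : ℝ)) ≤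
      ∑ c ∈ conn S j0, mu (conn S j0) t ((x, j) - c) := by
    rw [sum_conn]
    simp only [Prod.mk_sub_mk]
    have h1 : ∑ s ∈ S, mu (conn S j0) t (x - s, j - j0) ≤
        ∑ y : K, mu (conn S j0) t (x - y, j - j0) := by
      apply Finset.sum_le_sum_of_subset_of_nonneg (Finset.subset_univ _)
      intro i _ _
      exact mu_nonneg _ _ _
    have h2 : ∀ s ∈ S, (1 - aa S j0 ^ t) / (Fintype.card K : ℝ) ≤
        ∑ i ∈ (univ : Finset L).erase j0, mu (conn S j0) t (x - s, j - i) +
          mu (conn S j0) t (x - s, j - j0) := by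
      intro s _
      rw [Finset.sum_erase_add _ _ (Finset.mem_univ j0)]
      have h3 : ∑ i : L, mu (conn S j0) t (x - s, j - i) = marg S j0 t (x - s) := by
        unfold marg
        exact Equiv.sum_comp (Equiv.subLeft j) (fun z => mu (conn S j0) t (x - s, z))
      rw [h3, marg_eq]
      have := er_nonneg S j0 t (x - s)
      linarith
    have h4 := Finset.sum_le_sum h2
    rw [Finset.sum_const, nsmul_eq_mul, Finset.sum_add_distrib] at h4
    linarith
  have h5 : (0 : ℝ) ≤ 1 / (2 * Dt S j0) := by positivity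
  have := mul_le_mul_of_nonneg_left key h5
  linarith

lemma low_iter (S : Finset K) (j0 : L) (u r : ℕ) (p : K × L) :
    (1 - (1 / 2 : ℝ) ^ r) * ((1 - del S j0) * (1 - aa S j0 ^ u)) ≤
      (Fintype.card (K × L) : ℝ) * mu (conn S j0) (u + r) p := by
  have hK := Kpos (K := K)
  have hL := Lpos (L := L)
  have hcard : (Fintype.card (K × L) : ℝ) = (Fintype.card K : ℝ) * (Fintype.card L : ℝ) := by
    rw [Fintype.card_prod]; push_cast; ring
  have hD := Dt_pos S j0
  induction r generalizing p with
  | zero =>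
    have := mu_nonneg (conn S j0) u p
    simp only [pow_zero, sub_self, zero_mul, add_zero]
    rw [hcard]
    positivity
  | succ r ih =>
    have h1 := mu_succ_ge S j0 (u + r) p
    have h2 := ih p
    have h3 : aa S j0 ^ (u + r) ≤ aa S j0 ^ u :=
      pow_le_pow_of_le_one (aa_nonneg S j0) (aa_le_one S j0) (by omega)
    have h4 : (Fintype.card (K × L) : ℝ) * (1 / (2 * Dt S j0) * ((S.card : ℝ) *
        ((1 - aa S j0 ^ (u + r)) / (Fintype.card K : ℝ)))) ≥
        1 / 2 * ((1 - del S j0) * (1 - aa S j0 ^ u)) := by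
      rw [hcard, one_sub_del]
      have h5 : (Fintype.card K : ℝ) * (Fintype.card L : ℝ) * (1 / (2 * Dt S j0) * ((S.card : ℝ) *
        ((1 - aa S j0 ^ (u + r)) / (Fintype.card K : ℝ)))) =
        1 / 2 * ((S.card : ℝ) * (Fintype.card L : ℝ) / Dt S j0) * (1 - aa S j0 ^ (u + r)) := by
        field_simp
      rw [h5]
      have h6 : (S.card : ℝ) * ((Fintype.card L : ℝ) - 1) / Dt S j0 ≤
          (S.card : ℝ) * (Fintype.card L : ℝ) / Dt S j0 := by
        gcongr
        linarith
      have h7 : 0 ≤ (S.card : ℝ) * ((Fintype.card L : ℝ) - 1) / Dt S j0 := by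
        apply div_nonneg
        · apply mul_nonneg
          · positivity
          · linarith
        · linarith
      have h8 : 1 - aa S j0 ^ u ≤ 1 - aa S j0 ^ (u + r) := by linarith
      have h9 : 0 ≤ 1 - aa S j0 ^ u := by linarith [aa_pow_le_one S j0 u]
      have := mul_le_mul h6 h8 h9 (h7.trans h6)
      nlinarith [this]
    have h10 : (Fintype.card (K × L) : ℝ) * (1 / 2 * mu (conn S j0) (u + r) p +
      1 / (2 * Dt S j0) * ((S.card : ℝ) * ((1 - aa S j0 ^ (u + r)) / (Fintype.card K : ℝ)))) ≤
      (Fintype.card (K × L) : ℝ) * mu (conn S j0) (u + r + 1) p :=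
      mul_le_mul_of_nonneg_left h1 (by positivity)
    rw [← add_assoc]
    refine le_trans ?_ h10
    rw [pow_succ]
    nlinarith [h2, h4]

end Pool.Agent.Lib_helper17.Sep
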