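import Mathlib

set_option linter.unusedSectionVars false
set_option linter.unusedVariables false

namespace Pool.Agent.Lib_helper17.Sep
open Finset

section general
variable {G : Type} [AddCommGroup G] [Fintype G] [DecidableEq G]

/-- law at time `t`, started at `0`, of the lazy walk with connection set `C` -/
noncomputable def mu (C : Finset G) : ℕ → G → ℝ
  | 0, x => if x = 0 then 1 else 0
  | t + 1, x => 1 / 2 * mu C t x + 1 / (2 * (C.card : ℝ)) * ∑ c ∈ C, mu C t (x - c)

/-- transition matrix of the lazy walk with connection set `C` -/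
noncomputable def walk (C : Finset G) : Matrix G G ℝ := fun x y =>
  1 / 2 * (if x = y then 1 else 0) + 1 / 2 * (if y - x ∈ C then 1 / (C.card : ℝ) else 0)

lemma walk_pow (C : Finset G) (t : ℕ) (x y : G) : (walk C ^ t) x y = mu C t (y - x) := by
  induction t generalizing y with
  | zero =>
    simp only [pow_zero, mu, Matrix.one_apply]
    by_cases h : x = y
    · simp [h]
    · rw [if_neg h, if_neg]
      intro h'
      exact h (sub_eq_zero.mp h').symm
  | succ t ih =>
    rw [pow_succ, Matrix.mul_apply]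
    simp only [ih, walk, mu, mul_add, Finset.sum_add_distrib]
    congr 1
    · rw [Finset.sum_eq_single y]
      · simp [mul_comm]
      · intro b _ hb
        simp [hb]
      · simp
    · rw [Finset.mul_sum]
      rw [← Finset.sum_subset (Finset.subset_univ (C.image (fun c => y - c)))]
      · rw [Finset.sum_image]
        · apply Finset.sum_congr rfl
          intro c hc
          have h1 : y - (y - c) = c := by abel
          rw [h1, if_pos hc]
          have h2 : y - c - x = y - x - c := by abel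
          rw [h2]
          have h3 : (C.card : ℝ) ≠ 0 := by
            have : 0 < C.card := Finset.card_pos.mpr ⟨c, hc⟩
            positivity
          field_simp
        · intro a _ b _ hab
          simpa using hab
      · intro z _ hz
        have : y - z ∉ C := by
          intro h
          apply hz
          rw [Finset.mem_image]
          exact ⟨y - z, h, by abel⟩
        simp [this]

lemma mu_nonneg (C : Finset G) (t : ℕ) (x : G) : 0 ≤ mu C t x := by
  induction t generalizing x with
  | zero => simp only [mu]; split_ifs <;> norm_num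
  | succ t ih =>
    simp only [mu]
    have h1 := ih x
    have h2 : 0 ≤ ∑ c ∈ C, mu C t (x - c) := Finset.sum_nonneg (fun c _ => ih (x - c))
    positivity

lemma sum_shift (f : G → ℝ) (c : G) : ∑ x, f (x - c) = ∑ x, f x :=
  Equiv.sum_comp (Equiv.subRight c) f

lemma sum_shift' (f : G → ℝ) (c : G) : ∑ x, f (x + c) = ∑ x, f x :=
  Equiv.sum_comp (Equiv.addRight c) f

lemma sum_mu (C : Finset G) (hC : C.Nonempty) (t : ℕ) : ∑ x, mu C t x = 1 := by
  induction t with
  | zero => simp [mu]
  | succ t ih =>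
    simp only [mu, Finset.sum_add_distrib, ← Finset.mul_sum]
    rw [Finset.sum_comm]
    simp only [sum_shift, ih]
    have : 0 < C.card := Finset.card_pos.mpr hC
    have h3 : (C.card : ℝ) ≠ 0 := by positivity
    simp only [Finset.sum_const, nsmul_eq_mul]
    field_simp
    norm_num

/-- total variation distance to uniform at time `t` -/
noncomputable def tv (C : Finset G) (t : ℕ) : ℝ :=
  1 / 2 * ∑ x, |mu C t x - 1 / (Fintype.card G : ℝ)|

lemma tv_lower (C : Finset G) (hC : C.Nonempty) (t : ℕ) (B : Finset G) :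
    ∑ x ∈ B, mu C t x - (B.card : ℝ) / (Fintype.card G : ℝ) ≤ tv C t := by
  unfold tv
  set f : G → ℝ := fun x => mu C t x - 1 / (Fintype.card G : ℝ) with hf
  have hcard : (0 : ℝ) < Fintype.card G := by
    have : 0 < Fintype.card G := Fintype.card_pos
    exact_mod_cast this
  have h0 : ∑ x, f x = 0 := by
    simp only [hf, Finset.sum_sub_distrib, sum_mu C hC, Finset.sum_const, Finset.card_univ,
      nsmul_eq_mul]
    field_simp
    norm_num
  have h1 : ∑ x ∈ B, f x = ∑ x ∈ B, mu C t x - (B.card : ℝ) / (Fintype.card G : ℝ) := by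
    simp only [hf, Finset.sum_sub_distrib, Finset.sum_const, nsmul_eq_mul]
    ring
  have h2 : ∑ x ∈ B, f x + ∑ x ∈ Bᶜ, f x = 0 := by
    rw [Finset.sum_add_sum_compl, h0]
  have h3 : ∑ x ∈ B, |f x| + ∑ x ∈ Bᶜ, |f x| = ∑ x, |f x| :=
    Finset.sum_add_sum_compl B (fun x => |f x|)
  have h4 : ∑ x ∈ B, f x ≤ ∑ x ∈ B, |f x| := Finset.sum_le_sum (fun x _ => le_abs_self _)
  have h5 : -∑ x ∈ Bᶜ, f x ≤ ∑ x ∈ Bᶜ, |f x| := by
    rw [← Finset.sum_neg_distrib]
    exact Finset.sum_le_sum (fun x _ => neg_le_abs _)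
  rw [← h1, ← h3]
  linarith

lemma tv_upper (C : Finset G) (hC : C.Nonempty) (t : ℕ) (ε : ℝ) (hε : 0 ≤ ε)
    (h : ∀ x, 1 - ε ≤ (Fintype.card G : ℝ) * mu C t x) : tv C t ≤ ε := by
  unfold tv
  set f : G → ℝ := fun x => mu C t x - 1 / (Fintype.card G : ℝ) with hf
  have hcard : (0 : ℝ) < Fintype.card G := by
    have : 0 < Fintype.card G := Fintype.card_pos
    exact_mod_cast this
  have h0 : ∑ x, f x = 0 := by
    simp only [hf, Finset.sum_sub_distrib, sum_mu C hC, Finset.sum_const, Finset.card_univ,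
      nsmul_eq_mul]
    field_simp
    norm_num
  have h1 : ∀ x, |f x| ≤ f x + 2 * ε / (Fintype.card G : ℝ) := by
    intro x
    have h2 := h x
    have h3 : -(ε / (Fintype.card G : ℝ)) ≤ f x := by
      simp only [hf]
      have : (1 - ε) / (Fintype.card G : ℝ) ≤ mu C t x := by
        rw [div_le_iff₀ hcard]; linarith
      have h4 : (1 - ε) / (Fintype.card G : ℝ) = 1 / (Fintype.card G : ℝ) - ε / (Fintype.card G : ℝ) := by
        ring
      linarith
    have h5 : 0 ≤ ε / (Fintype.card G : ℝ) := by positivity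
    have h6 : 2 * ε / (Fintype.card G : ℝ) = 2 * (ε / (Fintype.card G : ℝ)) := by ring
    rw [h6, abs_le]
    constructor <;> linarith
  have h7 : ∑ x, |f x| ≤ ∑ x, (f x + 2 * ε / (Fintype.card G : ℝ)) :=
    Finset.sum_le_sum (fun x _ => h1 x)
  rw [Finset.sum_add_distrib, h0, Finset.sum_const, Finset.card_univ, nsmul_eq_mul] at h7
  have h8 : (Fintype.card G : ℝ) * (2 * ε / (Fintype.card G : ℝ)) = 2 * ε := by
    field_simp
  rw [h8] at h7
  linarith

end general

section product
variable {K L : Type} [AddCommGroup K] [AddCommGroup L] [Fintype K] [Fintype L]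
  [DecidableEq K] [DecidableEq L]

/-- the connection set `S × (L ∖ {j0}) ∪ K × {j0}` -/
def conn (S : Finset K) (j0 : L) : Finset (K × L) :=
  (S ×ˢ (univ.erase j0)) ∪ (univ ×ˢ {j0})

lemma conn_disj (S : Finset K) (j0 : L) :
    Disjoint (S ×ˢ ((univ : Finset L).erase j0)) ((univ : Finset K) ×ˢ {j0}) := by
  rw [Finset.disjoint_left]
  rintro ⟨x, j⟩ h1 h2
  simp at h1 h2
  exact h1.2 h2.symm

lemma sum_conn (S : Finset K) (j0 : L) (f : K × L → ℝ) :
    ∑ c ∈ conn S j0, f c = ∑ s ∈ S, ∑ j ∈ univ.erase j0, f (s, j) + ∑ y, f (y, j0) := by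
  unfold conn
  rw [Finset.sum_union (conn_disj S j0), Finset.sum_product, Finset.sum_product]
  simp

lemma card_conn (S : Finset K) (j0 : L) :
    (conn S j0).card = S.card * (Fintype.card L - 1) + Fintype.card K := by
  unfold conn
  rw [Finset.card_union_of_disjoint (conn_disj S j0), Finset.card_product, Finset.card_product,
    Finset.card_erase_of_mem (Finset.mem_univ _)]
  simp [Finset.card_univ]

/-- the real numbers attached to the construction -/
noncomputable def Dt (S : Finset K) (j0 : L) : ℝ := ((conn S j0).card : ℝ)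

lemma Dt_eq (S : Finset K) (j0 : L) :
    Dt S j0 = (S.card : ℝ) * ((Fintype.card L : ℝ) - 1) + (Fintype.card K : ℝ) := by
  unfold Dt
  rw [card_conn]
  have : 1 ≤ Fintype.card L := Fintype.card_pos_iff.mpr ⟨j0⟩
  push_cast [Nat.cast_sub this]
  ring

lemma Kpos : (0 : ℝ) < Fintype.card K := by
  have : 0 < Fintype.card K := Fintype.card_pos
  exact_mod_cast this

lemma Lpos : (1 : ℝ) ≤ Fintype.card L := by
  have : 1 ≤ Fintype.card L := Fintype.card_pos
  exact_mod_cast this

lemma Dt_pos (S : Finset K) (j0 : L) : 0 < Dt S j0 := by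
  rw [Dt_eq]
  have h1 := Kpos (K := K)
  have h2 := Lpos (L := L)
  have h3 : (0 : ℝ) ≤ S.card := by positivity
  nlinarith [mul_nonneg h3 (sub_nonneg.mpr h2)]

/-- `δ = N / Dt` -/
noncomputable def del (S : Finset K) (j0 : L) : ℝ := (Fintype.card K : ℝ) / Dt S j0

lemma del_pos (S : Finset K) (j0 : L) : 0 < del S j0 := div_pos Kpos (Dt_pos S j0)

lemma del_le_one (S : Finset K) (j0 : L) : del S j0 ≤ 1 := by
  unfold del
  rw [div_le_one (Dt_pos S j0), Dt_eq]
  have h2 := Lpos (L := L)
  have h3 : (0 : ℝ) ≤ S.card := by positivity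
  nlinarith [mul_nonneg h3 (sub_nonneg.mpr h2)]

lemma one_sub_del (S : Finset K) (j0 : L) :
    1 - del S j0 = (S.card : ℝ) * ((Fintype.card L : ℝ) - 1) / Dt S j0 := by
  unfold del
  have h := Dt_pos S j0
  field_simp
  rw [Dt_eq]
  ring

/-- marginal on `K` -/
noncomputable def marg (S : Finset K) (j0 : L) (t : ℕ) (x : K) : ℝ :=
  ∑ j : L, mu (conn S j0) t (x, j)

lemma conn_nonempty (S : Finset K) (j0 : L) : (conn S j0).Nonempty :=
  ⟨(0, j0), by simp [conn]⟩

lemma sum_marg (S : Finset K) (j0 : L) (t : ℕ) : ∑ x, marg S j0 t x = 1 := by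
  unfold marg
  rw [← Fintype.sum_prod_type']
  exact sum_mu (conn S j0) (conn_nonempty S j0) t

lemma marg_succ (S : Finset K) (j0 : L) (t : ℕ) (x : K) :
    marg S j0 (t + 1) x = 1 / 2 * marg S j0 t x +
      1 / (2 * Dt S j0) * (((Fintype.card L : ℝ) - 1) * ∑ s ∈ S, marg S j0 t (x - s) + 1) := by
  have h1 : marg S j0 (t + 1) x = 1 / 2 * marg S j0 t x +
      1 / (2 * Dt S j0) * ∑ j : L, ∑ c ∈ conn S j0, mu (conn S j0) t ((x, j) - c) := by
    simp only [marg, mu, Finset.sum_add_distrib, ← Finset.mul_sum, Dt]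
  rw [h1]
  congr 2
  simp only [sum_conn, Prod.mk_sub_mk, Finset.sum_add_distrib]
  congr 1
  · rw [Finset.sum_comm]
    rw [Finset.mul_sum]
    apply Finset.sum_congr rfl
    intro s _
    rw [Finset.sum_comm]
    have h2 : ∀ j ∈ (univ : Finset L).erase j0,
        ∑ y : L, mu (conn S j0) t (x - s, y - j) = marg S j0 t (x - s) := by
      intro j _
      exact sum_shift (fun y => mu (conn S j0) t (x - s, y)) j
    rw [Finset.sum_congr rfl h2, Finset.sum_const, Finset.card_erase_of_mem (Finset.mem_univ _),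
      nsmul_eq_mul, Finset.card_univ]
    have : 1 ≤ Fintype.card L := Fintype.card_pos_iff.mpr ⟨j0⟩
    push_cast [Nat.cast_sub this]
    ring
  · have h3 : ∀ y : L, ∑ z : K, mu (conn S j0) t (x - z, y - j0) =
        ∑ z : K, mu (conn S j0) t (z, y - j0) := by
      intro y
      exact Equiv.sum_comp (Equiv.subLeft x) (fun z => mu (conn S j0) t (z, y - j0))
    simp only [h3]
    rw [Finset.sum_comm]
    have h4 : ∀ z : K, ∑ y : L, mu (conn S j0) t (z, y - j0) = marg S j0 t z := by
      intro z
      exact sum_shift (fun y => mu (conn S j0) t (z, y)) j0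
    simp only [h4]
    exact sum_marg S j0 t

/-- the part of the law not yet randomised -/
noncomputable def er (S : Finset K) (j0 : L) : ℕ → K → ℝ
  | 0, x => if x = 0 then 1 else 0
  | t + 1, x => 1 / 2 * er S j0 t x +
      ((Fintype.card L : ℝ) - 1) / (2 * Dt S j0) * ∑ s ∈ S, er S j0 t (x - s)

/-- `a = 1 - δ/2` -/
noncomputable def aa (S : Finset K) (j0 : L) : ℝ := 1 - del S j0 / 2

lemma aa_nonneg (S : Finset K) (j0 : L) : 0 ≤ aa S j0 := by
  unfold aa; linarith [del_le_one S j0]

lemma aa_le_one (S : Finset K) (j0 : L) : aa S j0 ≤ 1 := by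
  unfold aa; linarith [del_pos S j0]

lemma er_nonneg (S : Finset K) (j0 : L) (t : ℕ) (x : K) : 0 ≤ er S j0 t x := by
  induction t generalizing x with
  | zero => simp only [er]; split_ifs <;> norm_num
  | succ t ih =>
    simp only [er]
    have h1 := ih x
    have h2 : 0 ≤ ∑ s ∈ S, er S j0 t (x - s) := Finset.sum_nonneg (fun c _ => ih (x - c))
    have h3 := Lpos (L := L)
    have h4 := Dt_pos S j0
    have h5 : 0 ≤ ((Fintype.card L : ℝ) - 1) / (2 * Dt S j0) := by
      apply div_nonneg <;> linarith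
    have := mul_nonneg h5 h2
    linarith

lemma sum_er (S : Finset K) (j0 : L) (t : ℕ) : ∑ x, er S j0 t x = aa S j0 ^ t := by
  induction t with
  | zero => simp [er]
  | succ t ih =>
    simp only [er, Finset.sum_add_distrib, ← Finset.mul_sum]
    rw [Finset.sum_comm]
    simp only [sum_shift, ih]
    have h3 := Dt_pos S j0
    simp only [Finset.sum_const, nsmul_eq_mul]
    rw [pow_succ]
    have h1 := one_sub_del S j0
    have h2 : (aa S j0) = 1 / 2 + (1 - del S j0) / 2 := by unfold aa; ring
    generalize aa S j0 ^ t = A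
    rw [h2, h1]
    ring

lemma marg_eq (S : Finset K) (j0 : L) (t : ℕ) (x : K) :
    marg S j0 t x = er S j0 t x + (1 - aa S j0 ^ t) / (Fintype.card K : ℝ) := by
  induction t generalizing x with
  | zero =>
    simp only [marg, er, mu, pow_zero, sub_self, zero_div, add_zero]
    by_cases h : x = 0
    · subst h
      simp [Prod.ext_iff]
    · simp [Prod.ext_iff, h]
  | succ t ih =>
    rw [marg_succ]
    simp only [ih, er, Finset.sum_add_distrib, Finset.sum_const, nsmul_eq_mul]
    have h3 := Dt_pos S j0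
    have hK := Kpos (K := K)
    have h1 := one_sub_del S j0
    have h1' : (S.card : ℝ) * ((Fintype.card L : ℝ) - 1) = (1 - del S j0) * Dt S j0 := by
      rw [h1]; field_simp
    have h2 : (1 : ℝ) / (2 * Dt S j0) = del S j0 / (2 * (Fintype.card K : ℝ)) := by
      unfold del; field_simp
    rw [pow_succ]
    have e1 : 1 / (2 * Dt S j0) * (((Fintype.card L : ℝ) - 1) *
        (∑ s ∈ S, er S j0 t (x - s) + (S.card : ℝ) * ((1 - aa S j0 ^ t) / (Fintype.card K : ℝ))) + 1)
        = ((Fintype.card L : ℝ) - 1) / (2 * Dt S j0) * ∑ s ∈ S, er S j0 t (x - s)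
          + (1 - del S j0) / 2 * ((1 - aa S j0 ^ t) / (Fintype.card K : ℝ))
          + 1 / (2 * Dt S j0) := by
      have : 1 / (2 * Dt S j0) * (((Fintype.card L : ℝ) - 1) *
        (∑ s ∈ S, er S j0 t (x - s) + (S.card : ℝ) * ((1 - aa S j0 ^ t) / (Fintype.card K : ℝ))) + 1)
        = ((Fintype.card L : ℝ) - 1) / (2 * Dt S j0) * ∑ s ∈ S, er S j0 t (x - s)
          + 1 / (2 * Dt S j0) * ((S.card : ℝ) * ((Fintype.card L : ℝ) - 1)) *
            ((1 - aa S j0 ^ t) / (Fintype.card K : ℝ))
          + 1 / (2 * Dt S j0) := by ring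
      rw [this, h1']
      field_simp
    rw [e1, h2]
    have h4 : aa S j0 = 1 - del S j0 / 2 := rfl
    generalize aa S j0 ^ t = A
    rw [h4]
    field_simp
    ring

end product

end Pool.Agent.Lib_helper17.Sep
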