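import Pool.Agent.Lib_helper17.SepCore

set_option linter.unusedSectionVars false
set_option linter.unusedVariables false

namespace Pool.Agent.Lib_helper17.Sep
open Finset

section
variable {K L : Type} [AddCommGroup K] [AddCommGroup L] [Fintype K] [Fintype L]
  [DecidableEq K] [DecidableEq L]

/-- spectral hypothesis on the pair `(K, S)` -/
def Gap (S : Finset K) : Prop :=
  ∀ (F : K → ℝ) (θ : ℝ), (∃ x, F x ≠ 0) → ∑ x, F x = 0 →
    (∀ x, ∑ s ∈ S, F (x + s) = θ * F x) → θ ≤ (S.card : ℝ) / 2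

lemma eigen_bound (S : Finset K) (j0 : L) (hgap : Gap S) (hL : 5 ≤ Fintype.card L)
    (hdel : del S j0 ≤ 1 / 4) (f : K × L → ℝ) (hf : ∃ p, f p ≠ 0) (hsum : ∑ p, f p = 0)
    (θ : ℝ) (h : ∀ p, ∑ c ∈ conn S j0, f (p + c) = θ * f p) : θ ≤ Dt S j0 / 2 := by
  have hK := Kpos (K := K)
  have hL5 : (5 : ℝ) ≤ Fintype.card L := by exact_mod_cast hL
  have hD := Dt_pos S j0
  have hDeq := Dt_eq S j0
  have hS : (0 : ℝ) ≤ S.card := by positivity
  have hN : (Fintype.card K : ℝ) ≤ Dt S j0 / 4 := by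
    have : (Fintype.card K : ℝ) / Dt S j0 ≤ 1 / 4 := hdel
    rw [div_le_iff₀ hD] at this
    linarith
  set F : K → ℝ := fun x => ∑ j, f (x, j) with hF
  have hFsum : ∑ x, F x = 0 := by
    rw [← hsum, Fintype.sum_prod_type]
  have hFeig : ∀ x, ((Fintype.card L : ℝ) - 1) * ∑ s ∈ S, F (x + s) = θ * F x := by
    intro x
    have h1 : ∑ j : L, ∑ c ∈ conn S j0, f ((x, j) + c) = θ * F x := by
      simp only [h, hF, Finset.mul_sum]
    rw [← h1]
    simp only [sum_conn, Prod.mk_add_mk, Finset.sum_add_distrib]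
    have h2 : ∑ j : L, ∑ y : K, f (x + y, j + j0) = 0 := by
      have h3 : ∀ j : L, ∑ y : K, f (x + y, j + j0) = ∑ y : K, f (y, j + j0) := fun j =>
        Equiv.sum_comp (Equiv.addLeft x) (fun z => f (z, j + j0))
      simp only [h3]
      rw [Finset.sum_comm]
      have h4 : ∀ y : K, ∑ j : L, f (y, j + j0) = F y := fun y =>
        Equiv.sum_comp (Equiv.addRight j0) (fun z => f (y, z))
      simp only [h4, hFsum]
    rw [h2, add_zero, Finset.mul_sum]
    have h2' : ∑ y : L, ∑ s ∈ S, ∑ i ∈ (univ : Finset L).erase j0, f (x + s, y + i) =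
        ∑ s ∈ S, ∑ y : L, ∑ i ∈ (univ : Finset L).erase j0, f (x + s, y + i) := Finset.sum_comm
    rw [h2']
    apply Finset.sum_congr rfl
    intro s _
    have h2'' : ∑ y : L, ∑ i ∈ (univ : Finset L).erase j0, f (x + s, y + i) =
        ∑ i ∈ (univ : Finset L).erase j0, ∑ y : L, f (x + s, y + i) := Finset.sum_comm
    rw [h2'']
    have h2 : ∀ j ∈ (univ : Finset L).erase j0, ∑ y : L, f (x + s, y + j) = F (x + s) := by
      intro j _
      exact Equiv.sum_comp (Equiv.addRight j) (fun z => f (x + s, z))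
    rw [Finset.sum_congr rfl h2, Finset.sum_const, Finset.card_erase_of_mem (Finset.mem_univ _),
      nsmul_eq_mul, Finset.card_univ]
    have : 1 ≤ Fintype.card L := Fintype.card_pos_iff.mpr ⟨j0⟩
    push_cast [Nat.cast_sub this]
    ring
  by_cases hF0 : ∃ x, F x ≠ 0
  · have h1 := hgap F (θ / ((Fintype.card L : ℝ) - 1)) hF0 hFsum (by
      intro x
      have h2 := hFeig x
      have h3 : ((Fintype.card L : ℝ) - 1) ≠ 0 := by linarith
      rw [div_mul_eq_mul_div, eq_div_iff h3, ← h2]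
      ring)
    rw [div_le_iff₀ (by linarith)] at h1
    have h2 : 0 ≤ (S.card : ℝ) / 2 * ((Fintype.card L : ℝ) - 1) := by
      apply mul_nonneg
      · positivity
      · linarith
    nlinarith
  · push Not at hF0
    -- maximal point of |f|
    obtain ⟨p0, hp0⟩ := hf
    obtain ⟨p, -, hp⟩ := Finset.exists_max_image (univ : Finset (K × L)) (fun q => |f q|)
      ⟨p0, Finset.mem_univ _⟩
    have hpos : 0 < |f p| := lt_of_lt_of_le (abs_pos.mpr hp0) (hp p0 (Finset.mem_univ _))
    have h1 := h p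
    obtain ⟨x, j⟩ := p
    rw [sum_conn] at h1
    simp only [Prod.mk_add_mk] at h1
    have h2 : ∀ s ∈ S, ∑ i ∈ (univ : Finset L).erase j0, f (x + s, j + i) =
        - f (x + s, j + j0) := by
      intro s _
      have h3 : ∑ i ∈ (univ : Finset L).erase j0, f (x + s, j + i) + f (x + s, j + j0) =
          ∑ i : L, f (x + s, j + i) := Finset.sum_erase_add _ _ (Finset.mem_univ j0)
      have h4 : ∑ i : L, f (x + s, j + i) = F (x + s) :=
        Equiv.sum_comp (Equiv.addLeft j) (fun z => f (x + s, z))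
      rw [h4, hF0] at h3
      linarith
    rw [Finset.sum_congr rfl h2] at h1
    have h5 : |∑ s ∈ S, -f (x + s, j + j0)| ≤ (S.card : ℝ) * |f (x, j)| := by
      refine (Finset.abs_sum_le_sum_abs _ _).trans ?_
      have : ∀ s ∈ S, |-f (x + s, j + j0)| ≤ |f (x, j)| := by
        intro s _
        rw [abs_neg]
        exact hp _ (Finset.mem_univ _)
      refine (Finset.sum_le_sum this).trans ?_
      rw [Finset.sum_const, nsmul_eq_mul]
    have h6 : |∑ y : K, f (x + y, j + j0)| ≤ (Fintype.card K : ℝ) * |f (x, j)| := by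
      refine (Finset.abs_sum_le_sum_abs _ _).trans ?_
      have : ∀ y ∈ (univ : Finset K), |f (x + y, j + j0)| ≤ |f (x, j)| := by
        intro s _
        exact hp _ (Finset.mem_univ _)
      refine (Finset.sum_le_sum this).trans ?_
      rw [Finset.sum_const, nsmul_eq_mul, Finset.card_univ]
    have h7 : |θ * f (x, j)| ≤ ((S.card : ℝ) + (Fintype.card K : ℝ)) * |f (x, j)| := by
      rw [← h1]
      refine (abs_add_le _ _).trans ?_
      linarith
    rw [abs_mul] at h7
    have h8 : |θ| ≤ (S.card : ℝ) + (Fintype.card K : ℝ) := le_of_mul_le_mul_right h7 hpos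
    have h9 := le_abs_self θ
    have h10 : (S.card : ℝ) * 4 ≤ (S.card : ℝ) * ((Fintype.card L : ℝ) - 1) := by
      gcongr; linarith
    linarith

end

section fourier
variable {ι : Type} [Fintype ι] [DecidableEq ι]

/-- the sign character of `ZMod 2` -/
noncomputable def sg (a : ZMod 2) : ℝ := if a = 0 then 1 else -1

lemma sg_add (a b : ZMod 2) : sg (a + b) = sg a * sg b := by
  unfold sg
  have h : ∀ c : ZMod 2, c = 0 ∨ c = 1 := by decide
  rcases h a with rfl | rfl <;> rcases h b with rfl | rfl <;> simp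
  have : (1 : ZMod 2) + 1 = 0 := by decide
  simp [this]

lemma sg_zero : sg 0 = 1 := by simp [sg]
lemma sg_one : sg 1 = -1 := by simp [sg]

/-- characters of `F_2^ι` -/
noncomputable def chi (Y X : ι → ZMod 2) : ℝ := sg (Y ⬝ᵥ X)

lemma chi_add (Y X Z : ι → ZMod 2) : chi Y (X + Z) = chi Y X * chi Y Z := by
  unfold chi
  rw [dotProduct_add, sg_add]

lemma chi_comm (Y X : ι → ZMod 2) : chi Y X = chi X Y := by
  unfold chi
  rw [dotProduct_comm]

lemma zmod2_ne_zero {a : ZMod 2} (h : a ≠ 0) : a = 1 := by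
  revert a; decide

lemma add_self_zero (X : ι → ZMod 2) : X + X = 0 := by
  funext i
  have : ∀ a : ZMod 2, a + a = 0 := by decide
  exact this _

lemma sum_chi (Y : ι → ZMod 2) (hY : Y ≠ 0) : ∑ X, chi Y X = 0 := by
  obtain ⟨i, hi⟩ := Function.ne_iff.mp hY
  have hi1 : Y i = 1 := zmod2_ne_zero hi
  obtain ⟨e, he⟩ : ∃ e : ι → ZMod 2, chi Y e = -1 := by
    refine ⟨Pi.single i 1, ?_⟩
    unfold chi
    rw [dotProduct_single, hi1, mul_one]
    exact sg_one
  have h1 : ∑ X, chi Y (X + e) = ∑ X, chi Y X :=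
    Equiv.sum_comp (Equiv.addRight e) (fun X => chi Y X)
  have h2 : ∑ X, chi Y (X + e) = - ∑ X, chi Y X := by
    rw [← Finset.sum_neg_distrib]
    apply Finset.sum_congr rfl
    intro X _
    rw [chi_add, he]
    ring
  linarith

lemma sum_chi_zero : ∑ X : ι → ZMod 2, chi 0 X = (Fintype.card (ι → ZMod 2) : ℝ) := by
  simp [chi, sg_zero]

lemma fourier_inv (F : (ι → ZMod 2) → ℝ) (h : ∀ Y, ∑ X, F X * chi Y X = 0) (X0 : ι → ZMod 2) :
    F X0 = 0 := by
  have h1 : ∑ Y, (∑ X, F X * chi Y X) * chi Y X0 = 0 := by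
    apply Finset.sum_eq_zero
    intro Y _
    rw [h, zero_mul]
  simp only [Finset.sum_mul] at h1
  rw [Finset.sum_comm] at h1
  have h2 : ∀ X, ∑ Y, F X * chi Y X * chi Y X0 = F X * (∑ Y, chi (X + X0) Y) := by
    intro X
    rw [Finset.mul_sum]
    apply Finset.sum_congr rfl
    intro Y _
    rw [chi_comm (X + X0) Y, chi_add]
    ring
  simp only [h2] at h1
  rw [Finset.sum_eq_single X0] at h1
  · rw [add_self_zero, sum_chi_zero] at h1
    have : (Fintype.card (ι → ZMod 2) : ℝ) ≠ 0 := by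
      have : 0 < Fintype.card (ι → ZMod 2) := Fintype.card_pos
      positivity
    exact (mul_eq_zero.mp h1).resolve_right this
  · intro X _ hX
    rw [sum_chi, mul_zero]
    intro h3
    apply hX
    have : X = X + X0 + X0 := by
      rw [add_assoc, add_self_zero, add_zero]
    rw [this, h3, zero_add]
  · intro h3
    exact absurd (Finset.mem_univ _) h3

lemma gap_of_chi (S : Finset (ι → ZMod 2))
    (h : ∀ Y : ι → ZMod 2, Y ≠ 0 → ∑ s ∈ S, chi Y s ≤ (S.card : ℝ) / 2) : Gap S := by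
  intro F θ hF hsum heig
  obtain ⟨x, hx⟩ := hF
  obtain ⟨Y, hY⟩ : ∃ Y, ∑ X, F X * chi Y X ≠ 0 := by
    by_contra hcon
    push Not at hcon
    exact hx (fourier_inv F hcon x)
  have hY0 : Y ≠ 0 := by
    rintro rfl
    apply hY
    simpa [chi, sg_zero] using hsum
  have h1 : θ * ∑ X, F X * chi Y X = (∑ s ∈ S, chi Y s) * ∑ X, F X * chi Y X := by
    have h2 : θ * ∑ X, F X * chi Y X = ∑ X, (∑ s ∈ S, F (X + s)) * chi Y X := by
      rw [Finset.mul_sum]
      apply Finset.sum_congr rfl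
      intro X _
      rw [heig]; ring
    rw [h2]
    simp only [Finset.sum_mul]
    rw [Finset.sum_comm]
    apply Finset.sum_congr rfl
    intro s _
    have h3 : ∑ X, F (X + s) * chi Y X = ∑ X, F (X + s) * (chi Y (X + s) * chi Y s) := by
      apply Finset.sum_congr rfl
      intro X _
      rw [← chi_add, add_assoc, add_self_zero, add_zero]
    rw [h3]
    have h4 : ∑ X, F (X + s) * (chi Y (X + s) * chi Y s) = ∑ X, F X * (chi Y X * chi Y s) :=
      Equiv.sum_comp (Equiv.addRight s) (fun X => F X * (chi Y X * chi Y s))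
    rw [h4, Finset.mul_sum]
    apply Finset.sum_congr rfl
    intro X _
    ring
  have h5 : θ = ∑ s ∈ S, chi Y s := mul_right_cancel₀ hY h1
  rw [h5]
  exact h Y hY0

end fourier

section rankone

/-- index set -/
abbrev KK (D : ℕ) : Type := (Fin D × Fin D) → ZMod 2

/-- the rank one tensor `u ⊗ v` -/
def ten {D : ℕ} (u v : Fin D → ZMod 2) : KK D := fun p => u p.1 * v p.2

/-- the set of all nonzero rank one tensors -/
def S1 (D : ℕ) : Finset (KK D) :=
  ((univ.erase 0 : Finset (Fin D → ZMod 2)) ×ˢ (univ.erase 0 : Finset (Fin D → ZMod 2))).image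
    (fun p => ten p.1 p.2)

lemma ten_inj {D : ℕ} {u v u' v' : Fin D → ZMod 2} (hu : u ≠ 0) (hv : v ≠ 0)
    (h : ten u v = ten u' v') : u = u' ∧ v = v' := by
  have h0 : ∀ i j, u i * v j = u' i * v' j := fun i j => congrFun h (i, j)
  obtain ⟨j, hj⟩ := Function.ne_iff.mp hv
  obtain ⟨i, hi⟩ := Function.ne_iff.mp hu
  have hj1 : v j = 1 := zmod2_ne_zero hj
  have hi1 : u i = 1 := zmod2_ne_zero hi
  have h1 : u' i * v' j = 1 := by rw [← h0, hi1, hj1]; rfl
  have h2 : u' i = 1 := by
    apply zmod2_ne_zero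
    intro h3
    rw [h3, zero_mul] at h1
    exact absurd h1 (by decide)
  have h3 : v' j = 1 := by
    apply zmod2_ne_zero
    intro h3
    rw [h3, mul_zero] at h1
    exact absurd h1 (by decide)
  constructor
  · funext a
    have := h0 a j
    rw [hj1, h3, mul_one, mul_one] at this
    exact this
  · funext a
    have := h0 i a
    rw [hi1, h2, one_mul, one_mul] at this
    exact this

lemma sum_S1 {D : ℕ} (f : KK D → ℝ) :
    ∑ s ∈ S1 D, f s = ∑ u ∈ univ.erase (0 : Fin D → ZMod 2), ∑ v ∈ univ.erase (0 : Fin D → ZMod 2),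
      f (ten u v) := by
  unfold S1
  rw [Finset.sum_image, Finset.sum_product]
  rintro ⟨u, v⟩ h1 ⟨u', v'⟩ h2 h
  simp only [Finset.coe_product, Finset.coe_erase, Set.mem_prod, Set.mem_sdiff,
    Set.mem_singleton_iff] at h1 h2
  obtain ⟨a, b⟩ := ten_inj h1.1.2 h1.2.2 h
  rw [a, b]

lemma card_S1 (D : ℕ) : (S1 D).card = (2 ^ D - 1) * (2 ^ D - 1) := by
  unfold S1
  rw [Finset.card_image_of_injOn]
  · rw [Finset.card_product, Finset.card_erase_of_mem (Finset.mem_univ _), Finset.card_univ]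
    simp
  · rintro ⟨u, v⟩ h1 ⟨u', v'⟩ h2 h
    simp only [Finset.coe_product, Finset.coe_erase, Set.mem_prod, Set.mem_sdiff,
      Set.mem_singleton_iff] at h1 h2
    obtain ⟨a, b⟩ := ten_inj h1.1.2 h1.2.2 h
    rw [a, b]

lemma card_S1_real (D : ℕ) : ((S1 D).card : ℝ) = (2 ^ D - 1) ^ 2 := by
  rw [card_S1]
  have : 1 ≤ 2 ^ D := Nat.one_le_two_pow
  push_cast [Nat.cast_sub this]
  ring

lemma zero_not_mem_S1 (D : ℕ) : (0 : KK D) ∉ S1 D := by
  intro h
  unfold S1 at h
  rw [Finset.mem_image] at h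
  obtain ⟨⟨u, v⟩, h1, h2⟩ := h
  simp only [Finset.mem_product, Finset.mem_erase, Finset.mem_univ, and_true] at h1
  have h3 : ten u v = ten 0 0 := by
    simp only at h2
    rw [h2]
    funext p
    simp [ten]
  have := (ten_inj h1.1 h1.2 h3).1
  exact h1.1 this

lemma sum_sg_erase {D : ℕ} (w : Fin D → ZMod 2) :
    ∑ v ∈ univ.erase (0 : Fin D → ZMod 2), chi w v = (if w = 0 then (2 : ℝ) ^ D else 0) - 1 := by
  have h1 : ∑ v ∈ univ.erase (0 : Fin D → ZMod 2), chi w v + chi w 0 = ∑ v, chi w v :=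
    Finset.sum_erase_add _ _ (Finset.mem_univ 0)
  have h2 : chi w 0 = 1 := by simp [chi, sg_zero]
  have h3 : ∑ v, chi w v = (if w = 0 then (2 : ℝ) ^ D else 0) := by
    split_ifs with h
    · subst h
      rw [sum_chi_zero]
      simp
    · exact sum_chi w h
  linarith

lemma chi_S1 {D : ℕ} (Y : KK D) (hY : Y ≠ 0) :
    ∑ s ∈ S1 D, chi Y s ≤ ((S1 D).card : ℝ) / 2 := by
  rw [sum_S1, card_S1_real]
  obtain ⟨⟨i0, j0⟩, hij⟩ := Function.ne_iff.mp hY
  have hij1 : Y (i0, j0) = 1 := zmod2_ne_zero hij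
  -- contraction of Y with u
  set w : (Fin D → ZMod 2) → (Fin D → ZMod 2) := fun u j => ∑ i, Y (i, j) * u i with hw
  have h1 : ∀ u v, chi Y (ten u v) = chi (w u) v := by
    intro u v
    unfold chi
    congr 1
    simp only [dotProduct, ten, hw, Fintype.sum_prod_type]
    rw [Finset.sum_comm]
    apply Finset.sum_congr rfl
    intro j _
    rw [Finset.sum_mul]
    apply Finset.sum_congr rfl
    intro i _
    ring
  simp only [h1, sum_sg_erase]
  rw [Finset.sum_sub_distrib]
  have h2 : ∑ u ∈ univ.erase (0 : Fin D → ZMod 2), (if w u = 0 then (2 : ℝ) ^ D else 0) + 2 ^ D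
      = ∑ u, (if w u = 0 then (2 : ℝ) ^ D else 0) := by
    rw [← Finset.sum_erase_add _ _ (Finset.mem_univ (0 : Fin D → ZMod 2))]
    congr 1
    have : w 0 = 0 := by
      funext j
      simp [hw]
    rw [if_pos this]
  have h3 : ∑ u, (if w u = 0 then (2 : ℝ) ^ D else 0) ≤
      ∑ u, (2 : ℝ) ^ D * ((1 + chi (fun i => Y (i, j0)) u) / 2) := by
    apply Finset.sum_le_sum
    intro u _
    have h5 : w u j0 = (fun i => Y (i, j0)) ⬝ᵥ u := by
      simp [hw, dotProduct]
    split_ifs with h4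
    · have h6 : chi (fun i => Y (i, j0)) u = 1 := by
        unfold chi
        rw [← h5, h4]
        simp [sg_zero]
      rw [h6]
      norm_num
    · have h6 : (-1 : ℝ) ≤ chi (fun i => Y (i, j0)) u := by
        unfold chi sg
        split_ifs <;> norm_num
      have : (0 : ℝ) ≤ 2 ^ D := by positivity
      apply mul_nonneg this
      linarith
  have h4 : ∑ u, (2 : ℝ) ^ D * ((1 + chi (fun i => Y (i, j0)) u) / 2) = 2 ^ D * 2 ^ D / 2 := by
    rw [← Finset.mul_sum]
    simp only [add_div]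
    rw [Finset.sum_add_distrib, ← Finset.sum_div, ← Finset.sum_div, sum_chi]
    · simp
      ring
    · intro h
      have := congrFun h i0
      simp only [Pi.zero_apply] at this
      rw [hij1] at this
      exact absurd this (by decide)
  have h5 : ∑ u ∈ univ.erase (0 : Fin D → ZMod 2), (1 : ℝ) = 2 ^ D - 1 := by
    rw [Finset.sum_const, Finset.card_erase_of_mem (Finset.mem_univ _), Finset.card_univ]
    simp
  rw [h5]
  have h6 : (1 : ℝ) ≤ 2 ^ D := one_le_pow₀ (by norm_num)
  nlinarith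

lemma gap_S1 (D : ℕ) : Gap (S1 D) := gap_of_chi (S1 D) (fun Y hY => chi_S1 Y hY)

end rankone

end Pool.Agent.Lib_helper17.Sep
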