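import Pool.Agent.Lib_helper17.SepBounds
import Pool.Agent.Lib_helper17.SepEigen

set_option linter.unusedSectionVars false
set_option linter.unusedVariables false

namespace Pool.Agent.Lib_helper17.Sep
open Finset

section abs
variable {K L : Type} [AddCommGroup K] [AddCommGroup L] [Fintype K] [Fintype L]
  [DecidableEq K] [DecidableEq L]

lemma aa_pow_ge (S : Finset K) (j0 : L) (t : ℕ) : 1 - t * (del S j0 / 2) ≤ aa S j0 ^ t := by
  have h := one_add_mul_le_pow (a := -(del S j0 / 2)) (by linarith [del_le_one S j0]) t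
  have h2 : 1 + -(del S j0 / 2) = aa S j0 := by unfold aa; ring
  rw [h2] at h
  linarith

lemma aa_pow_le (S : Finset K) (j0 : L) (t : ℕ) :
    aa S j0 ^ t * (1 + t * (del S j0 / 2)) ≤ 1 := by
  have h := one_add_mul_le_pow (a := (del S j0 / 2)) (by linarith [del_pos S j0]) t
  have h1 : 0 ≤ aa S j0 ^ t := pow_nonneg (aa_nonneg S j0) t
  calc aa S j0 ^ t * (1 + t * (del S j0 / 2)) ≤ aa S j0 ^ t * (1 + del S j0 / 2) ^ t :=
        mul_le_mul_of_nonneg_left h h1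
    _ = (1 - (del S j0 / 2) ^ 2) ^ t := by
        rw [← mul_pow]
        congr 1
        unfold aa
        ring
    _ ≤ 1 := by
        apply pow_le_one₀
        · have := del_le_one S j0
          have := del_pos S j0
          nlinarith
        · nlinarith [sq_nonneg (del S j0 / 2)]

/-- the numerical hypotheses of the example -/
structure Good (S : Finset K) (j0 : L) : Prop where
  small : del S j0 ≤ 1 / 128
  large : ∀ t : ℕ, (t : ℝ) ≤ 8 / del S j0 → ((1 + S.card) ^ t : ℝ) * 64 ≤ Fintype.card K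

lemma sep_low {S : Finset K} {j0 : L} (hg : Good S j0) (t : ℕ)
    (ht : (t : ℝ) < 3 / 2 / del S j0) :
    ∃ p, (Fintype.card (K × L) : ℝ) * mu (conn S j0) t p < 3 / 4 := by
  have hd := del_pos S j0
  have h1 : (t : ℝ) ≤ 8 / del S j0 := by
    refine ht.le.trans ?_
    gcongr
    norm_num
  have h2 := hg.large t h1
  obtain ⟨p, hp⟩ := exists_low S j0 t (by
    have : ((1 + S.card) ^ t : ℝ) < Fintype.card K := by
      have : (0 : ℝ) < (1 + S.card) ^ t := by positivity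
      linarith
    exact_mod_cast this)
  refine ⟨p, lt_of_le_of_lt hp ?_⟩
  have h3 := aa_pow_ge S j0 t
  rw [lt_div_iff₀ hd] at ht
  linarith

lemma sep_zero (S : Finset K) (j0 : L) (hN : 1 < Fintype.card K) :
    ∃ p, (Fintype.card (K × L) : ℝ) * mu (conn S j0) 0 p ≤ 0 := by
  obtain ⟨p, hp⟩ := exists_low S j0 0 (by simpa using hN)
  exact ⟨p, by simpa using hp⟩

lemma sep_up {S : Finset K} {j0 : L} (hg : Good S j0) (p : K × L) :
    1 / 4 ≤ (Fintype.card (K × L) : ℝ) * mu (conn S j0) (⌈1 / del S j0⌉₊ + 3) p := by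
  have hd := del_pos S j0
  have hs := hg.small
  refine le_trans ?_ (low_iter S j0 ⌈1 / del S j0⌉₊ 3 p)
  have h1 := aa_pow_le S j0 ⌈1 / del S j0⌉₊
  have h2 : 1 / del S j0 ≤ (⌈1 / del S j0⌉₊ : ℝ) := Nat.le_ceil _
  rw [div_le_iff₀ hd] at h2
  have h3 : 0 ≤ aa S j0 ^ ⌈1 / del S j0⌉₊ := pow_nonneg (aa_nonneg S j0) _
  have h4 : aa S j0 ^ ⌈1 / del S j0⌉₊ ≤ 2 / 3 := by
    nlinarith
  have h5 : (127 / 128 : ℝ) ≤ 1 - del S j0 := by linarith
  have h6 : (127 / 128 : ℝ) * (1 / 3) ≤ (1 - del S j0) * (1 - aa S j0 ^ ⌈1 / del S j0⌉₊) := by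
    apply mul_le_mul h5 (by linarith) (by norm_num) (by linarith)
  have h7 : (1 - (1 / 2 : ℝ) ^ 3) = 7 / 8 := by norm_num
  rw [h7]
  linarith

lemma sep_up' {S : Finset K} {j0 : L} (hg : Good S j0) :
    ∃ t, ∀ p : K × L, 3 / 4 ≤ (Fintype.card (K × L) : ℝ) * mu (conn S j0) t p := by
  have hd := del_pos S j0
  have hs := hg.small
  refine ⟨⌈14 / del S j0⌉₊ + 4, fun p => ?_⟩
  refine le_trans ?_ (low_iter S j0 ⌈14 / del S j0⌉₊ 4 p)
  have h1 := aa_pow_le S j0 ⌈14 / del S j0⌉₊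
  have h2 : 14 / del S j0 ≤ (⌈14 / del S j0⌉₊ : ℝ) := Nat.le_ceil _
  rw [div_le_iff₀ hd] at h2
  have h3 : 0 ≤ aa S j0 ^ ⌈14 / del S j0⌉₊ := pow_nonneg (aa_nonneg S j0) _
  have h4 : aa S j0 ^ ⌈14 / del S j0⌉₊ ≤ 1 / 8 := by
    nlinarith
  have h5 : (127 / 128 : ℝ) ≤ 1 - del S j0 := by linarith
  have h6 : (127 / 128 : ℝ) * (7 / 8) ≤ (1 - del S j0) * (1 - aa S j0 ^ ⌈14 / del S j0⌉₊) := by
    apply mul_le_mul h5 (by linarith) (by norm_num) (by linarith)
  have h7 : (1 - (1 / 2 : ℝ) ^ 4) = 15 / 16 := by norm_num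
  rw [h7]
  linarith

lemma tv_low {S : Finset K} {j0 : L} (hg : Good S j0) (t : ℕ)
    (ht : (t : ℝ) ≤ 1 / del S j0) : 1 / 4 < tv (conn S j0) t := by
  have hd := del_pos S j0
  have h1 : (t : ℝ) ≤ 8 / del S j0 := by
    refine ht.trans ?_
    gcongr
    norm_num
  have h2 := hg.large t h1
  have h3 := aa_pow_ge S j0 t
  have h4 := tv_ge S j0 t
  have hK := Kpos (K := K)
  have h5 : ((1 + S.card) ^ t : ℝ) / (Fintype.card K : ℝ) ≤ 1 / 64 := by
    rw [div_le_iff₀ hK]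
    linarith
  rw [le_div_iff₀ hd] at ht
  linarith

end abs

section param

abbrev LL (k : ℕ) : Type := Fin k → ZMod 2

/-- the all-one vector -/
def jj (k : ℕ) : LL k := fun _ => 1

lemma card_KK (D : ℕ) : Fintype.card (KK D) = 2 ^ (D * D) := by simp
lemma card_LL (k : ℕ) : Fintype.card (LL k) = 2 ^ k := by simp

lemma inv_del (D k : ℕ) : 1 / del (S1 D) (jj k) =
    ((2 : ℝ) ^ D - 1) ^ 2 * ((2 : ℝ) ^ k - 1) / 2 ^ (D * D) + 1 := by
  have h2 : 0 < Dt (S1 D) (jj k) := Dt_pos _ _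
  unfold del
  rw [Dt_eq, card_S1_real, card_KK, card_LL] at h2
  rw [Dt_eq, card_S1_real, card_KK, card_LL]
  push_cast
  push_cast at h2
  have : (2 : ℝ) ^ (D * D) ≠ 0 := by positivity
  have h3 := h2.ne'
  rw [one_div_div]
  field_simp

/-- relations between the parameters -/
structure Par (D k r : ℕ) : Prop where
  r10 : 10 ≤ r
  rel : 2 * D + k = D * D + r
  hD : D = 64 * 2 ^ r

variable {D k r : ℕ}

lemma Par.D_ge (h : Par D k r) : 64 ≤ D := by
  have h1 := h.hD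
  have h2 : 1 ≤ 2 ^ r := Nat.one_le_two_pow
  omega

lemma Par.k_ge (h : Par D k r) : 10 ≤ k := by
  have h1 := h.rel
  have h2 := h.D_ge
  have h3 := h.r10
  have h4 : 2 * D ≤ D * D := Nat.mul_le_mul_right _ (by omega)
  omega

lemma Par.A_ge (h : Par D k r) : (2 : ℝ) ≤ 2 ^ D := by
  calc (2 : ℝ) = 2 ^ 1 := by norm_num
    _ ≤ 2 ^ D := pow_le_pow_right₀ (by norm_num) (by linarith [h.D_ge])

lemma Par.B_ge (h : Par D k r) : (2 : ℝ) ≤ 2 ^ k := by
  calc (2 : ℝ) = 2 ^ 1 := by norm_num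
    _ ≤ 2 ^ k := pow_le_pow_right₀ (by norm_num) (by linarith [h.k_ge])

lemma Par.pow_rel (h : Par D k r) : (2 : ℝ) ^ D * 2 ^ D * 2 ^ k = 2 ^ (D * D) * 2 ^ r := by
  rw [← pow_add, ← pow_add, ← pow_add]
  congr 1
  have := h.rel
  omega

lemma Par.inv_del_ge (h : Par D k r) : (2 : ℝ) ^ r / 8 ≤ 1 / del (S1 D) (jj k) := by
  rw [inv_del]
  have hA := h.A_ge
  have hB := h.B_ge
  have hrel := h.pow_rel
  have hN : (0 : ℝ) < 2 ^ (D * D) := by positivity
  revert hA hB hrel hN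
  generalize (2 : ℝ) ^ D = A
  generalize (2 : ℝ) ^ k = B
  generalize (2 : ℝ) ^ (D * D) = N
  generalize (2 : ℝ) ^ r = R
  intro hA hB hrel hN
  have h1 : A * A / 4 ≤ (A - 1) ^ 2 := by nlinarith
  have h2 : B / 2 ≤ B - 1 := by linarith
  have h3 : A * A / 4 * (B / 2) ≤ (A - 1) ^ 2 * (B - 1) :=
    mul_le_mul h1 h2 (by linarith) (by positivity)
  have h4 : R / 8 ≤ (A - 1) ^ 2 * (B - 1) / N := by
    rw [le_div_iff₀ hN]
    nlinarith
  linarith

lemma Par.inv_del_le (h : Par D k r) : 1 / del (S1 D) (jj k) ≤ 2 * (2 : ℝ) ^ r := by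
  rw [inv_del]
  have hA := h.A_ge
  have hB := h.B_ge
  have hrel := h.pow_rel
  have hN : (0 : ℝ) < 2 ^ (D * D) := by positivity
  have h5 : (1 : ℝ) ≤ 2 ^ r := one_le_pow₀ (by norm_num)
  revert hA hB hrel hN h5
  generalize (2 : ℝ) ^ D = A
  generalize (2 : ℝ) ^ k = B
  generalize (2 : ℝ) ^ (D * D) = N
  generalize (2 : ℝ) ^ r = R
  intro hA hB hrel hN h5
  have h1 : (A - 1) ^ 2 ≤ A * A := by nlinarith
  have h3 : (A - 1) ^ 2 * (B - 1) ≤ A * A * B :=
    mul_le_mul h1 (by linarith) (by linarith) (by positivity)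
  have h4 : (A - 1) ^ 2 * (B - 1) / N ≤ R := by
    rw [div_le_iff₀ hN]
    linarith
  linarith

lemma Par.good (h : Par D k r) : Good (S1 D) (jj k) where
  small := by
    have h0 := h.inv_del_ge
    have hd := del_pos (S1 D) (jj k)
    have h1 : (1024 : ℝ) ≤ 2 ^ r := by
      calc (1024 : ℝ) = 2 ^ 10 := by norm_num
        _ ≤ 2 ^ r := pow_le_pow_right₀ (by norm_num) h.r10
    have h2 : (128 : ℝ) ≤ 1 / del (S1 D) (jj k) := by linarith
    rw [le_div_iff₀ hd] at h2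
    linarith
  large := by
    intro t ht
    have h0 := h.inv_del_le
    have h1 : (8 : ℝ) / del (S1 D) (jj k) = 8 * (1 / del (S1 D) (jj k)) := by
      ring
    rw [h1] at ht
    have h2 : (t : ℝ) ≤ 16 * 2 ^ r := by linarith
    have h3 : t ≤ 16 * 2 ^ r := by exact_mod_cast h2
    have h4 : 4 * t ≤ D := by
      have := h.hD
      omega
    rw [card_S1_real, card_KK]
    have hA := h.A_ge
    have h5 : (1 + ((2 : ℝ) ^ D - 1) ^ 2) ≤ 2 ^ (2 * D) := by
      rw [two_mul, pow_add]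
      nlinarith
    have h6 : (1 + ((2 : ℝ) ^ D - 1) ^ 2) ^ t ≤ (2 ^ (2 * D)) ^ t :=
      pow_le_pow_left₀ (by positivity) h5 t
    have h7 : ((2 : ℝ) ^ (2 * D)) ^ t * 64 ≤ 2 ^ (D * D) := by
      rw [← pow_mul, show (64 : ℝ) = 2 ^ 6 by norm_num, ← pow_add]
      apply pow_le_pow_right₀ (by norm_num)
      have h8 := h.D_ge
      nlinarith
    push_cast
    linarith

lemma jj_ne_zero (h : 0 < k) : jj k ≠ 0 := by
  intro h1
  have := congrFun h1 ⟨0, h⟩
  simp [jj] at this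

/-- dimensions of the `n`-th example -/
def DD (n : ℕ) : ℕ := 64 * 2 ^ (n + 10)
def kk (n : ℕ) : ℕ := DD n * DD n + (n + 10) - 2 * DD n

lemma par (n : ℕ) : Par (DD n) (kk n) (n + 10) := by
  have h1 : 1 ≤ 2 ^ (n + 10) := Nat.one_le_two_pow
  have h2 : 64 ≤ DD n := by unfold DD; omega
  have h4 : 2 * DD n ≤ DD n * DD n := Nat.mul_le_mul_right _ (by omega)
  refine ⟨by omega, ?_, rfl⟩
  unfold kk
  omega

end param

end Pool.Agent.Lib_helper17.Sep
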